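import Pool.Agent.P.MP_92d394_lc.Ser

/-! A cheap join with three gaps. -/

set_option linter.unusedSectionVars false

namespace Pool.Agent.P.MP_92d394_lc

open Finset

variable {W E : Type} [Fintype W] [DecidableEq W] [Fintype E] [DecidableEq E]
  {a b : E → W} {T R : Finset W}

theorem Net.three (h : Net a b T R) {e : E} (he : a e ∈ T) : 3 ≤ (cls a b e).card := by
  have h1 := h.low (cls_cld (a := a) (b := b) e)
  have h2 : 0 < spk a T (cls a b e) := card_pos.2 ⟨e, mem_filter.2 ⟨self_cls e, he⟩⟩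
  by_contra k
  have h3 : spk a T (cls a b e) = 1 := by omega
  have h4 : (cls a b e).card = 2 := by omega
  have d := h.dR _ (h.bR e)
  have m : e ∈ cut a b (sg (b e)) := mem_sg.2 (Or.inr ⟨rfl, h.nl e⟩)
  obtain ⟨f, hf⟩ := card_eq_one.1 (show ((cut a b (sg (b e))).erase e).card = 1 by
    rw [card_erase_of_mem m, d])
  have m1 := mem_erase.1 (hf ▸ mem_singleton_self f)
  have q1 : eqv a b e f := Or.inr ⟨sg (b e), by rw [← hf, insert_erase m]⟩
  have nf : a f ∉ T := fun z => by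
    rcases mem_sg.1 m1.2 with p | p
    · exact disjoint_left.1 h.dj z (p.1 ▸ h.bR e)
    · exact m1.1 (h.inj _ _ z he p.1)
  obtain ⟨w, w1, w2, w3⟩ : ∃ w ∈ R, w ≠ b e ∧ f ∈ cut a b (sg w) := by
    rcases mem_sg.1 m1.2 with p | p
    · exact ⟨b f, h.bR f, p.2, mem_sg.2 (Or.inr ⟨rfl, h.nl f⟩)⟩
    · exact ⟨a f, (h.aTR f).resolve_left nf, p.2, mem_sg.2 (Or.inl ⟨rfl, (h.nl f).symm⟩)⟩
  obtain ⟨g, hg⟩ := card_eq_one.1 (show ((cut a b (sg w)).erase f).card = 1 by
    rw [card_erase_of_mem w3, h.dR w w1])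
  have m2 := mem_erase.1 (hg ▸ mem_singleton_self g)
  have q2 : eqv a b f g := Or.inr ⟨sg w, by rw [← hg, insert_erase w3]⟩
  have ne : g ≠ e := fun z => by
    rcases mem_sg.1 (z ▸ m2.2) with p | p
    · exact disjoint_left.1 h.dj he (p.1 ▸ w1)
    · exact w2 p.1.symm
  have := two_lt_card.2 ⟨e, self_cls e, f, mem_cls.2 q1, g, mem_cls.2 (q1.trans q2),
    m1.1.symm, ne.symm, m2.1.symm⟩
  omega

theorem Net.third (h : Net a b T R) (hT : T.Nonempty) (e f : E) :
    ∃ g, a g ∈ T ∧ ¬ eqv a b e g ∧ ¬ eqv a b f g := by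
  obtain ⟨t, ht⟩ := hT
  by_contra k
  have s : cut a b (sg t) ⊆ (cls a b e ∩ cut a b (sg t)) ∪ (cls a b f ∩ cut a b (sg t)) :=
    fun g hg => by
      simp only [mem_union, mem_inter, mem_cls]
      have := (h.spoke ht).1 hg
      grind
  have h1 := (card_le_card s).trans (card_union_le _ _)
  have h2 := h.one e ht
  have h3 := h.one f ht
  rw [h.dT t ht] at h1
  omega

theorem arith {x y z k₁ k₂ k₃ : ℕ} (h1 : 0 < k₁) (h2 : 0 < k₂) (h3 : 0 < k₃)
    (h : (x ≤ k₁ ∧ y ≤ k₂ ∧ z ≤ k₃) ∨ (x = 0 ∧ y = 0 ∧ z ≤ 3 * k₃) ∨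
      (x ≤ k₁ ∧ k₂ = k₃ ∧ y + z ≤ 2 * k₃) ∨ (k₁ = k₃ ∧ k₂ = k₃ ∧ x + y + z ≤ 3 * k₃)) :
    (x : ℝ) / k₁ + y / k₂ + z / k₃ ≤ 3 := by
  have d : ∀ {u k r : ℕ}, 0 < k → u ≤ r * k → (u : ℝ) / k ≤ r := fun hk hu => by
    rw [div_le_iff₀ (by exact_mod_cast hk)]
    exact_mod_cast hu
  rcases h with ⟨a1, a2, a3⟩ | ⟨a1, a2, a3⟩ | ⟨a1, a2, a3⟩ | ⟨a1, a2, a3⟩
  · have := d (r := 1) h1 (by omega : x ≤ _)
    have := d (r := 1) h2 (by omega : y ≤ _)
    have := d (r := 1) h3 (by omega : z ≤ _)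
    push_cast at *
    linarith
  · have := d h3 a3
    simpa [a1, a2] using this
  · have := d (r := 1) h1 (by omega : x ≤ _)
    have := d h3 a3
    rw [a2]
    push_cast at *
    rw [add_div] at this
    linarith
  · have := d h3 a3
    rw [a1, a2]
    push_cast at *
    rwa [add_div, add_div] at this

theorem Net.caps (h : Net a b T R) (hT : T.Nonempty) :
    ∃ (e f : E) (k₁ k₂ k₃ : ℕ), ¬ eqv a b e f ∧ (cls a b e).card ≤ k₁ ∧ (cls a b f).card ≤ k₂ ∧
      (∀ g, ¬ eqv a b e g → ¬ eqv a b f g → (cls a b g).card ≤ k₃) ∧ 3 ≤ k₃ ∧ k₃ ≤ k₁ ∧ k₃ ≤ k₂ ∧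
      k₁ + k₂ + k₃ ≤ R.card + 3 ∧ ∀ J, Tight a b T J →
        ((J ∩ cls a b e).card : ℝ) / k₁ + (J ∩ cls a b f).card / k₂ +
          (J \ (cls a b e ∪ cls a b f)).card / k₃ ≤ 3 := by
  classical
  obtain ⟨t, ht⟩ := id hT
  obtain ⟨e₀, -⟩ : (cut a b (sg t)).Nonempty := card_pos.1 (by rw [h.dT t ht]; omega)
  obtain ⟨e, -, me⟩ := exists_max_image univ (fun e => (cls a b e).card) ⟨e₀, mem_univ _⟩
  obtain ⟨f₀, -, n₀, -⟩ := h.third hT e e
  obtain ⟨f, nf, mf⟩ := exists_max_image (univ.filter fun f => ¬ eqv a b e f)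
    (fun e => (cls a b e).card) ⟨f₀, by simpa using n₀⟩
  simp only [mem_filter, mem_univ, true_and, forall_const] at nf mf me
  have s2 := h.two nf
  have dj := cls_disj nf
  have cl : Cld a b (cls a b e ∪ cls a b f) := (cls_cld e).union (cls_cld f)
  have i1 : ∀ g, ¬ eqv a b e g → ¬ eqv a b f g →
      (cls a b e).card + (cls a b f).card + (cls a b g).card ≤ R.card + 3 := fun g p q => by
    have d : Disjoint (cls a b e ∪ cls a b f) (cls a b g) :=
      disjoint_union_left.2 ⟨cls_disj p, cls_disj q⟩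
    have u := h.up (cl.union (cls_cld g))
    rw [spk_union d, spk_union dj, card_union_of_disjoint d, card_union_of_disjoint dj] at u
    have := h.spk_cls g
    omega
  obtain ⟨g₀, g1, g2, g3⟩ := h.third hT e f
  have g4 := h.three g1
  have g5 := i1 g₀ g2 g3
  have g6 := mf g₀ g2
  have g7 := me f
  set p := (cls a b e).card with hp
  set q := (cls a b f).card with hq
  have key : ∀ J, Tight a b T J → ∃ x y z, (J ∩ cls a b e).card = x ∧ (J ∩ cls a b f).card = y ∧
      (J \ (cls a b e ∪ cls a b f)).card = z ∧ (x = 0 ∨ x = p) ∧ (y = 0 ∨ y = q) ∧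
      x + y + z ≤ R.card ∧ p + y + z ≤ R.card ∧ x + q + z ≤ R.card ∧
      z + 3 * p + 3 * q ≤ 3 * R.card + 9 := fun J hJ => by
    have cJ := h.cld hJ.1
    have sJ := h.spk_tight hJ
    have c1 := card_sdiff_add_card_inter J (cls a b e ∪ cls a b f)
    rw [inter_union_distrib_left, card_union_of_disjoint
      (dj.mono inter_subset_right inter_subset_right)] at c1
    have u0 := h.up cJ
    have l0 := h.low cJ
    have ua : Disjoint J (cls a b e) → J.card + p ≤ R.card := fun d => by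
      have u := h.up (cJ.union (cls_cld e))
      rw [spk_union d, card_union_of_disjoint d] at u
      have := h.spk_cls e
      omega
    have ub : Disjoint J (cls a b f) → J.card + q ≤ R.card := fun d => by
      have u := h.up (cJ.union (cls_cld f))
      rw [spk_union d, card_union_of_disjoint d] at u
      have := h.spk_cls f
      omega
    refine ⟨_, _, _, rfl, rfl, rfl, ?_⟩
    rcases cJ.cases e with p1 | p1 <;> rcases cJ.cases f with p2 | p2
    · rw [inter_eq_right.2 p1, inter_eq_right.2 p2] at *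
      omega
    · have := ub p2
      rw [inter_eq_right.2 p1, disjoint_iff_inter_eq_empty.1 p2, card_empty] at *
      omega
    · have := ua p1
      rw [inter_eq_right.2 p2, disjoint_iff_inter_eq_empty.1 p1, card_empty] at *
      omega
    · have := ua p1
      have := ub p2
      have d : Disjoint J (cls a b e ∪ cls a b f) := disjoint_union_right.2 ⟨p1, p2⟩
      have u := h.up (cJ.union cl)
      rw [spk_union d, spk_union dj, card_union_of_disjoint d, card_union_of_disjoint dj] at u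
      rw [disjoint_iff_inter_eq_empty.1 p2, disjoint_iff_inter_eq_empty.1 p1, card_empty] at *
      omega
  by_cases c1 : R.card + 3 ≤ p + 2 * q
  · refine ⟨e, f, p, q, R.card + 3 - p - q, nf, le_rfl, le_rfl,
      fun g u v => by have := i1 g u v; omega, by omega, by omega, by omega, by omega,
      fun J hJ => ?_⟩
    obtain ⟨x, y, z, rfl, rfl, rfl, k⟩ := key J hJ
    exact arith (by omega) (by omega) (by omega) (by omega)
  by_cases c2 : (R.card + 3 - p) / 2 ≤ p
  · refine ⟨e, f, p, (R.card + 3 - p) / 2, (R.card + 3 - p) / 2, nf, le_rfl, by omega,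
      fun g u v => by have := mf g u; omega, by omega, by omega, by omega, by omega,
      fun J hJ => ?_⟩
    obtain ⟨x, y, z, rfl, rfl, rfl, k⟩ := key J hJ
    exact arith (by omega) (by omega) (by omega) (by omega)
  · refine ⟨e, f, (R.card + 3) / 3, (R.card + 3) / 3, (R.card + 3) / 3, nf, by omega, by omega,
      fun g u v => by have := me g; omega, by omega, by omega, by omega, by omega,
      fun J hJ => ?_⟩
    obtain ⟨x, y, z, rfl, rfl, rfl, k⟩ := key J hJ
    exact arith (by omega) (by omega) (by omega) (by omega)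

theorem gaps (L M : E → ℝ) (hL : ∀ e, 0 ≤ L e) (hM : ∀ e, 0 < M e)
    (h1 : ∀ e, ∑ f ∈ cls a b e, 1 / M f ≤ 1) (r : ℕ) :
    ∀ (X : Finset E) (s l : ℝ), Cld a b X → 0 ≤ s → 0 ≤ l → (∀ e ∈ X, L e ≤ s) →
      ∑ e ∈ X, 1 / M e ≤ r + l → ∃ F ⊆ X, F.card ≤ r ∧
        (∀ e ∈ F, ∀ f ∈ F, eqv a b e f → e = f) ∧ ∑ e ∈ X, L e / M e ≤ ∑ e ∈ F, L e + l * s := by
  have bd : ∀ (X : Finset E) (s : ℝ), (∀ e ∈ X, L e ≤ s) →
      ∑ e ∈ X, L e / M e ≤ (∑ e ∈ X, 1 / M e) * s := fun X s k => by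
    rw [sum_mul]
    refine sum_le_sum fun e he => ?_
    rw [one_div_mul_eq_div]
    exact div_le_div_of_nonneg_right (k e he) (hM e).le
  induction r with
  | zero =>
    intro X s l _ hs _ k1 k2
    refine ⟨∅, empty_subset _, le_rfl, by simp, (bd X s k1).trans ?_⟩
    simp only [Nat.cast_zero, zero_add, sum_empty] at k2 ⊢
    exact mul_le_mul_of_nonneg_right k2 hs
  | succ r ih =>
    intro X s l hX hs hl k1 k2
    rcases X.eq_empty_or_nonempty with rfl | ne
    · exact ⟨∅, subset_rfl, by simp, by simp, by simpa using mul_nonneg hl hs⟩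
    obtain ⟨e, he, me⟩ := exists_max_image X L ne
    have sb : cls a b e ⊆ X := fun f q => hX e he f (mem_cls.1 q)
    have t1 := sum_sdiff (f := fun e => 1 / M e) sb
    have t2 := sum_sdiff (f := fun e => L e / M e) sb
    have t3 := bd (cls a b e) (L e) fun f q => me f (sb q)
    obtain ⟨F, f1, f2, f3, f4⟩ := ih (X \ cls a b e) (L e) (l + 1 - ∑ f ∈ cls a b e, 1 / M f)
      (hX.sdiff (cls_cld e)) (hL e) (by linarith [h1 e]) (fun f q => me f (mem_sdiff.1 q).1)
      (by push_cast at k2; linarith)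
    have ne : ∀ f ∈ F, ¬ eqv a b e f := fun f q r => (mem_sdiff.1 (f1 q)).2 (mem_cls.2 r)
    have nm : e ∉ F := fun q => ne e q (Or.inl rfl)
    refine ⟨insert e F, insert_subset he (f1.trans sdiff_subset), by
      rw [card_insert_of_notMem nm]; omega, fun x hx y hy q => ?_, ?_⟩
    · rcases mem_insert.1 hx with u | u <;> rcases mem_insert.1 hy with v | v
      · rw [u, v]
      · exact absurd (u ▸ q) (ne y v)
      · exact absurd (v ▸ q.symm) (ne x u)
      · exact f3 x u y v q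
    · rw [sum_insert nm]
      nlinarith [mul_le_mul_of_nonneg_left (k1 e he) hl]

theorem Net.main (h : Net a b T R) (hT : T.Nonempty) (L : E → ℝ) (hL : ∀ e, 0 ≤ L e) (Φ : ℝ)
    (hΦ : ∀ k₁ k₂ k₃ : ℕ, 3 ≤ k₁ → 3 ≤ k₂ → 3 ≤ k₃ → k₁ + k₂ + k₃ ≤ R.card + 3 →
      Φ ≤ k₁ / (k₁ - 2) + k₂ / (k₂ - 2) + k₃ / (k₃ - 2)) (p0 : 0 < Φ) :
    ∃ J F, F ⊆ J ∧ Tight a b T J ∧ (∀ φ, cut a b φ ⊆ F → cut a b φ = ∅) ∧
      Φ * (∑ e ∈ J, L e - 2 * ∑ e ∈ F, L e) ≤ ∑ e, L e := by
  classical
  obtain ⟨e, f, k₁, k₂, k₃, nf, c1, c2, c3, b3, b1, b2, bs, key⟩ := h.caps hT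
  have hΦ' := hΦ k₁ k₂ k₃ (by omega) (by omega) b3 bs
  set A := cls a b e with hA
  set B := cls a b f with hB
  have dj : Disjoint A B := cls_disj nf
  have r3 : (3 : ℝ) ≤ k₃ := by exact_mod_cast b3
  have r1 : (k₃ : ℝ) ≤ k₁ := by exact_mod_cast b1
  have r2 : (k₃ : ℝ) ≤ k₂ := by exact_mod_cast b2
  have an : ∀ {u v : ℝ}, 3 ≤ u → u ≤ v → v / (v - 2) ≤ u / (u - 2) := fun p q => by
    rw [div_le_div_iff₀ (by linarith) (by linarith)]
    nlinarith
  set M : E → ℝ := fun g => if g ∈ A then k₁ else if g ∈ B then k₂ else k₃ with hM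
  have spl : ∀ (X : Finset E) (u : ℝ → ℝ), ∑ g ∈ X, u (M g) = (X ∩ A).card * u k₁ +
      (X ∩ B).card * u k₂ + (X \ (A ∪ B)).card * u k₃ := fun X u => by
    rw [← sum_inter_add_sum_sdiff X (A ∪ B), inter_union_distrib_left,
      sum_union (dj.mono inter_subset_right inter_subset_right),
      sum_congr (s₁ := X ∩ A) (g := fun _ => u k₁) rfl fun g q => by
        simp [hM, (mem_inter.1 q).2],
      sum_congr (s₁ := X ∩ B) (g := fun _ => u k₂) rfl fun g q => by
        simp [hM, (mem_inter.1 q).2, disjoint_right.1 dj (mem_inter.1 q).2],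
      sum_congr (s₁ := X \ (A ∪ B)) (g := fun _ => u k₃) rfl fun g q => by
        have := (mem_sdiff.1 q).2
        rw [mem_union, not_or] at this
        simp [hM, this.1, this.2]]
    simp
  have M3 : ∀ g, (k₃ : ℝ) ≤ M g := fun g => by
    simp only [hM]; split_ifs <;> linarith
  have Mc : ∀ g, ∑ x ∈ cls a b g, 1 / M x ≤ 1 := fun g => by
    have d : ∀ {u k : ℕ}, 3 ≤ k → u ≤ k → (u : ℝ) * (1 / k) ≤ 1 := fun p q => by
      rw [mul_one_div, div_le_one (by exact_mod_cast (by omega))]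
      exact_mod_cast q
    rw [spl _ fun u => 1 / u]
    by_cases p : eqv a b e g
    · rw [← cls_eq p, ← hA, inter_self, disjoint_iff_inter_eq_empty.1 dj,
        sdiff_eq_empty_iff_subset.2 subset_union_left]
      simpa using d (by omega) c1
    by_cases q : eqv a b f g
    · rw [← cls_eq q, ← hB, inter_self, disjoint_iff_inter_eq_empty.1 dj.symm,
        sdiff_eq_empty_iff_subset.2 subset_union_right]
      simpa using d (by omega) c2
    · rw [disjoint_iff_inter_eq_empty.1 (cls_disj p).symm,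
        disjoint_iff_inter_eq_empty.1 (cls_disj q).symm]
      simpa using d b3 ((card_le_card sdiff_subset).trans (c3 g p q))
  set S := ∑ g, L g with hS
  have S0 : 0 ≤ S := sum_nonneg fun g _ => hL g
  set τ := S / Φ with hτ
  have τ0 : 0 ≤ τ := div_nonneg S0 p0.le
  set f₁ : ℝ := k₁ / (k₁ - 2) with hf₁
  set f₂ : ℝ := k₂ / (k₂ - 2) with hf₂
  set f₃ : ℝ := k₃ / (k₃ - 2) with hf₃
  have a1 : f₁ ≤ f₃ := an r3 r1
  have a2 : f₂ ≤ f₃ := an r3 r2
  obtain ⟨J, hJ, co⟩ := h.ex_tight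
    (fun g => L g + (if g = e then τ * (f₃ - f₁) else 0) + if g = f then τ * (f₃ - f₂) else 0)
    fun g => add_nonneg (add_nonneg (hL g) (by split_ifs; nlinarith; rfl))
      (by split_ifs; nlinarith; rfl)
  simp only [sum_add_distrib, sum_ite_eq', mem_univ, if_true] at co
  have cJ := h.cld hJ.1
  obtain ⟨F, f1, f2, f3, f4⟩ := gaps L M hL (fun g => by linarith [M3 g]) Mc 3 J S 0 cJ S0 le_rfl
    (fun g _ => single_le_sum (fun g _ => hL g) (mem_univ g)) (by
      rw [spl _ fun u => 1 / u]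
      simpa [div_eq_mul_inv] using key J hJ)
  refine ⟨J, F, f1, hJ, fun φ q => ?_, ?_⟩
  · have u := (card_le_card q).trans f2
    have v := h.br φ
    by_contra w
    have w' := card_pos.2 (nonempty_iff_ne_empty.2 w)
    rcases (show (cut a b φ).card = 2 ∨ (cut a b φ).card = 3 by omega) with z | z
    · obtain ⟨x, y, n, z⟩ := card_eq_two.1 z
      exact n (f3 x (q (by simp [z])) y (q (by simp [z])) (Or.inr ⟨φ, z⟩))
    · have := hJ.2 φ z
      rw [inter_eq_right.2 (q.trans f1)] at this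
      omega
  obtain ⟨w, w0, w1, w2⟩ : ∃ w : ℝ, 0 < w ∧ (∀ g ∈ J, w ≤ M g / (M g - 2)) ∧
      τ * (f₃ - w) ≤ (if e ∈ J then τ * (f₃ - f₁) else 0) + if f ∈ J then τ * (f₃ - f₂) else 0 := by
    have q1 : 0 < f₁ := div_pos (by linarith) (by linarith)
    have q2 : 0 < f₂ := div_pos (by linarith) (by linarith)
    have m1 : ∀ g ∈ J, g ∈ A → e ∈ J := fun g p q => cJ g p e (mem_cls.1 q).symm
    have m2 : ∀ g ∈ J, g ∈ B → f ∈ J := fun g p q => cJ g p f (mem_cls.1 q).symm
    refine ⟨min (if e ∈ J then f₁ else f₃) (if f ∈ J then f₂ else f₃),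
      lt_min (by split_ifs <;> linarith) (by split_ifs <;> linarith), fun g p => ?_, ?_⟩
    · simp only [hM]
      split_ifs with u1 u2 u3 u4 u5 u6 <;> first
        | exact min_le_left _ _
        | exact min_le_right _ _
        | exact (min_le_left _ _).trans a1
        | exact absurd (m1 g p ‹_›) ‹_›
        | exact absurd (m2 g p ‹_›) ‹_›
    · have n1 := mul_nonneg τ0 (sub_nonneg.2 a1)
      have n2 := mul_nonneg τ0 (sub_nonneg.2 a2)
      split_ifs
      · rcases min_choice f₁ f₂ with z | z <;> rw [z] <;> linarith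
      · rw [min_eq_left a1]; linarith
      · rw [min_eq_right a2]; linarith
      · simp
  have t1 : w * (∑ g ∈ J, L g - 2 * ∑ g ∈ J, L g / M g) ≤ ∑ g ∈ J, L g := by
    rw [mul_sum, ← sum_sub_distrib, mul_sum]
    refine sum_le_sum fun g p => ?_
    have m := M3 g
    have := (le_div_iff₀ (by linarith)).1 (w1 g p)
    have e1 : w * (L g - 2 * (L g / M g)) = w * (M g - 2) * (L g / M g) := by
      field_simp [show M g ≠ 0 by linarith]
    have e2 : L g = M g * (L g / M g) := by field_simp [show M g ≠ 0 by linarith]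
    rw [e1]
    exact (mul_le_mul_of_nonneg_right this (div_nonneg (hL g) (by linarith))).trans e2.ge
  have t2 : S = τ * Φ := by rw [hτ]; field_simp
  have t3 : ∑ g ∈ J, L g ≤ w * τ := by nlinarith [mul_le_mul_of_nonneg_left hΦ' τ0]
  have t4 : ∑ g ∈ J, L g - 2 * ∑ g ∈ J, L g / M g ≤ τ := le_of_mul_le_mul_left (t1.trans t3) w0
  rw [t2, mul_comm τ]
  exact mul_le_mul_of_nonneg_left (by linarith) p0.le

end Pool.Agent.P.MP_92d394_lc
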