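import Pool.Agent.P.MP_92d394_lc.Low

/-! The cost vector that attains the bound. -/

set_option linter.unusedSectionVars false

namespace Pool.Agent.P.MP_92d394_lc

open Finset

variable {V : Type} [Fintype V] [DecidableEq V]
  {m : Fin 3 → ℕ} {I : V → Fin 3} {pos : V → ℕ} {nd : Fin 3 → ℕ → V}

/-- The cost. -/
noncomputable def cst (m : Fin 3 → ℕ) (I : V → Fin 3) (pos : V → ℕ) (u v : V) : ℝ :=
  |(pos u : ℝ) / m (I u) - pos v / m (I v)| +
    if I u = I v then (0 : ℝ) else (1 : ℝ) / m (I u) + (1 : ℝ) / m (I v)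

theorem dot_comm (c x : V → V → ℝ) : dot c x = dot x c := by simp only [dot, mul_comm]

theorem cst_metric : IsMetric (cst m I pos) := by
  have p : ∀ i, (0 : ℝ) ≤ 1 / m i := fun i => by positivity
  refine ⟨fun u v => ?_, fun u => by simp [cst], fun u v => ?_, fun u v w => ?_⟩
  · unfold cst
    rw [abs_sub_comm]
    grind
  · unfold cst
    positivity
  · have := abs_sub_le ((pos u : ℝ) / m (I u)) (pos w / m (I w)) (pos v / m (I v))
    have := p (I u)
    have := p (I v)
    have := p (I w)
    unfold cst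
    by_cases a : I u = I w
    · simp only [a, if_true] at *; linarith
    by_cases b : I w = I v
    · simp only [b, if_true] at *; linarith
    · simp only [a, b, if_false]
      split_ifs <;> linarith

theorem Crd.dot_cst (h : Crd m I pos nd) :
    dot (cst m I pos) (bb m I pos) = 3 + 2 * ∑ i, (1 : ℝ) / m i := by
  have p : ∀ i, (m i : ℝ) ≠ 0 := fun i => by have := h.one i; positivity
  have n1 : ∀ i : Fin 3, i ≠ i + 1 := by decide
  rw [h.dot_bb cst_metric.1 cst_metric.2.1,
    sum_congr rfl fun i _ => sum_congr rfl (g := fun _ => (1 : ℝ) / m i) fun j hj => by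
      have a1 : j + 1 ≤ m i := mem_range.1 hj
      have a2 : j ≤ m i := by omega
      simp [cst, h.I_nd _ _ a1, h.I_nd _ _ a2, h.pos_nd _ _ a1, h.pos_nd _ _ a2, ← sub_div,
        abs_div]]
  simp [cst, h.I_nd, h.pos_nd, n1, p, Fin.sum_univ_three]
  ring

theorem cutm_eq (i : Fin 3) (u v : V) : cutm (univ.filter fun v => I v = i) u v =
    if I u = I v then 0 else (if I u = i then 1 else 0) + if I v = i then 1 else 0 := by
  simp only [cutm, mem_filter, mem_univ, true_and]
  grind

theorem sum_cutm (r : Fin 3 → ℝ) (u v : V) :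
    ∑ i, r i * cutm (univ.filter fun v => I v = i) u v =
      if I u = I v then 0 else r (I u) + r (I v) := by
  simp only [cutm_eq]
  split_ifs <;> simp [mul_add, sum_add_distrib]

theorem Crd.tooth_ne (h : Crd m I pos nd) (i : Fin 3) :
    (univ.filter fun v => I v = i)ᶜ.Nonempty :=
  ⟨nd (i + 1) 0, by simp [h.I_nd]⟩

theorem Crd.sep_low (h : Crd m I pos nd) {y : V → V → ℝ} (hy : y ∈ SubP V) :
    3 + 2 * ∑ i, (1 : ℝ) / m i ≤ dot (cst m I pos) y := by
  have p : ∀ i, (0 : ℝ) < m i := fun i => by have := h.one i; positivity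
  refine le_trans ?_ (dot_mono (c := (fun u v => ((1 : ℝ) / m (I u) + 1 / m (I v)) / 2) +
    ∑ i, ((1 : ℝ) / m i / 2) • cutm (univ.filter fun v => I v = i)) (fun u v n => ?_) hy.2.1
    fun u v => (hy.2.2.1 u v).1)
  · rw [dot_comm, dot_add, dot_sum]
    simp only [dot_smul]
    simp only [dot_comm y]
    have e1 : dot (fun u v => ((1 : ℝ) / m (I u) + 1 / m (I v)) / 2) y = ∑ u, (1 : ℝ) / m (I u) := by
      simp only [dot, add_div, add_mul, sum_add_distrib]
      rw [sum_comm (f := fun u v => (1 : ℝ) / m (I v) / 2 * y u v)]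
      have : ∀ u, ∑ v, y v u = 2 := fun u => by simp only [hy.1 _ u, hy.2.2.2.1]
      simp only [← mul_sum, hy.2.2.2.1, this, div_mul_cancel₀ _ (two_ne_zero' ℝ)]
      ring
    have e2 : ∑ u, (1 : ℝ) / m (I u) = ∑ i, (1 + (1 : ℝ) / m i) := by
      rw [h.sum]
      refine sum_congr rfl fun i _ => ?_
      rw [sum_congr rfl (g := fun _ => (1 : ℝ) / m i) fun j hj => by
        rw [h.I_nd i j (Nat.lt_succ_iff.1 (mem_range.1 hj))]]
      have := (p i).ne'
      simp only [sum_const, card_range, nsmul_eq_mul]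
      push_cast
      field_simp
    have e3 : ∑ i, (1 : ℝ) / m i ≤
        ∑ i, 1 / m i / 2 * dot (cutm (univ.filter fun v => I v = i)) y := sum_le_sum fun i _ => by
      have := cut_two hy ⟨nd i 0, by simp [h.I_nd]⟩ (h.tooth_ne i)
      have := one_div_pos.2 (p i)
      nlinarith
    rw [e1, e2, sum_add_distrib]
    simp only [sum_const, card_univ, Fintype.card_fin, nsmul_eq_mul, Nat.cast_ofNat]
    linarith
  · simp only [Pi.add_apply, Finset.sum_apply, Pi.smul_apply, smul_eq_mul, sum_cutm, cst]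
    split_ifs with k
    · have n' : pos u ≠ pos v := fun e => n (by rw [← h.nd_eq u, k, e, h.nd_eq])
      have : (1 : ℝ) ≤ |(pos u : ℝ) - pos v| := by
        exact_mod_cast Int.one_le_abs (show (pos u : ℤ) - pos v ≠ 0 by omega)
      rw [k, ← sub_div, abs_div, abs_of_pos (p _), add_self_div_two]
      exact add_le_add_left (div_le_div_of_nonneg_right this (p _).le) _
    · linarith [abs_nonneg ((pos u : ℝ) / m (I u) - pos v / m (I v))]

theorem cut_even {x : V → V → ℝ} (hx : x ∈ SubP V) (hi : ∀ u v, ∃ k : ℤ, x u v = k)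
    (S : Finset V) : ∃ k : ℤ, dot (cutm S) x = 2 * k := by
  have : ∃ k : ℤ, ∑ u ∈ S, ∑ v ∈ S, x u v = 2 * k := by
    choose f hf using hi
    induction S using Finset.induction_on with
    | empty => exact ⟨0, by simp⟩
    | insert a S ha ih =>
      obtain ⟨k, ih⟩ := ih
      refine ⟨k + ∑ v ∈ S, f a v, ?_⟩
      simp only [sum_insert ha, sum_add_distrib, ih, hx.2.1, hx.1 _ a]
      push_cast
      simp only [← hf]
      ring
  obtain ⟨k, e⟩ := this
  exact ⟨S.card - k, by push_cast; linarith [cut_eq hx S]⟩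

theorem sum_div_range (f : ℕ → ℝ) {q : ℕ} (hq : 0 < q) (k : ℕ) :
    ∑ t ∈ range (q * k), f (t / q) = q * ∑ j ∈ range k, f j := by
  induction k with
  | zero => simp
  | succ k ih =>
    rw [Nat.mul_succ, sum_range_add, ih, sum_range_succ, sum_congr (s₁ := range q) rfl
      (g := fun _ => f k) fun x hx => by rw [Nat.mul_add_div hq, Nat.div_eq_of_lt (mem_range.1 hx), add_zero]]
    simp [mul_add]

theorem abs_eq_sum (a b M : ℕ) (ha : a ≤ M) (hb : b ≤ M) :
    ∑ t ∈ range M, (if a ≤ t ↔ b ≤ t then (0 : ℝ) else 1) = |(a : ℝ) - b| := by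
  wlog h : a ≤ b generalizing a b
  · rw [abs_sub_comm, ← this b a hb ha (by omega)]
    simp only [iff_comm]
  rw [abs_of_nonpos (by simpa using h), neg_sub, ← Nat.cast_sub h, ← Nat.card_Ico,
    show Ico a b = (range M).filter fun t => ¬ (a ≤ t ↔ b ≤ t) from by
      ext t; simp only [mem_Ico, mem_filter, mem_range]; omega, card_filter]
  push_cast
  exact sum_congr rfl fun t _ => by split_ifs <;> rfl

/-- No edge inside the path `i` crosses the position `s`. -/
def Free (x : V → V → ℝ) (I : V → Fin 3) (pos : V → ℕ) (i : Fin 3) (s : ℕ) : Prop :=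
  ∀ u v, I u = i → I v = i → pos u < s → s ≤ pos v → x u v = 0

open Classical in
theorem Crd.tooth (h : Crd m I pos nd) {x : V → V → ℝ} (hx : x ∈ SubP V) (i : Fin 3) :
    2 * (1 + ∑ j ∈ range (m i), if Free x I pos i (j + 1) then (1 : ℝ) else 0) ≤
      dot (cutm (univ.filter fun v => I v = i)) x := by
  set O : ℕ → ℝ := fun s => ∑ u ∈ univ.filter (fun u => I u = i ∧ pos u < s),
    ∑ v ∈ (univ.filter fun v => I v = i)ᶜ, x u v with hO
  have st : ∀ s s', s < s' → s ≤ m i → Free x I pos i s → Free x I pos i s' →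
      O s + 2 ≤ O s' := fun s s' l a f f' => by
    have sb : univ.filter (fun u => I u = i ∧ pos u < s) ⊆
        univ.filter (fun u => I u = i ∧ pos u < s') := fun u => by
      simp only [mem_filter, mem_univ, true_and]; omega
    have t := cut_two hx (S := univ.filter (fun u => I u = i ∧ pos u < s') \
      univ.filter (fun u => I u = i ∧ pos u < s))
      ⟨nd i s, by simp [h.I_nd i s a, h.pos_nd i s a, l]⟩ ⟨nd (i + 1) 0, by simp [h.I_nd]⟩
    rw [dot_cutm hx.1] at t
    simp only [hO]
    rw [← sum_sdiff sb, add_comm]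
    refine add_le_add_left (t.trans_eq (sum_congr rfl fun u hu => (sum_subset (fun v => ?_)
      fun v h1 h2 => ?_).symm)) _
    · simp only [mem_compl, mem_sdiff, mem_filter, mem_univ, true_and]; tauto
    · simp only [mem_compl, mem_sdiff, mem_filter, mem_univ, true_and, not_not] at hu h1 h2
      by_cases k : pos v < s
      · rw [hx.1]
        exact f v u h2 hu.1.1 k (by omega)
      · exact f' u v hu.1.1 h2 hu.1.2 (by omega)
  have ind : ∀ s, s ≤ m i + 1 → ∀ s', s ≤ s' → Free x I pos i s' →
      2 * ∑ j ∈ range s, (if Free x I pos i j then (1 : ℝ) else 0) ≤ O s' := fun s => by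
    induction s with
    | zero =>
      exact fun _ _ _ _ => by
        simpa using sum_nonneg fun u _ => sum_nonneg fun v _ => (hx.2.2.1 u v).1
    | succ s ih =>
      intro a s' l f
      rw [sum_range_succ]
      split_ifs with k
      · linarith [ih (by omega) s le_rfl k, st s s' l (by omega) k f]
      · linarith [ih (by omega) s' (by omega) f]
  have := ind _ le_rfl _ le_rfl fun u v _ b _ c => absurd (b ▸ h.le v) (by omega)
  rw [sum_range_succ', if_pos (show Free x I pos i 0 from
    fun u v _ _ c _ => absurd c (Nat.not_lt_zero _))] at this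
  rw [dot_cutm hx.1, add_comm]
  refine this.trans_eq (sum_congr (filter_congr fun u _ => ?_) fun _ _ => rfl)
  exact and_iff_left_iff_imp.2 fun b => Nat.lt_succ_iff.2 (b ▸ h.le u)

open Classical in
theorem Crd.tsp_low (h : Crd m I pos nd) {x : V → V → ℝ} (hx : x ∈ SubP V)
    (hi : ∀ u v, ∃ k : ℤ, x u v = k) : 4 + 2 * ∑ i, (1 : ℝ) / m i ≤ dot (cst m I pos) x := by
  have p : ∀ i, (0 : ℝ) < m i := fun i => by have := h.one i; positivity
  set q : Fin 3 → ℕ := fun i => m (i + 1) * m (i + 2) with hq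
  set M := m 0 * m 1 * m 2 with hM
  have q0 : ∀ i, 0 < q i := fun i => Nat.mul_pos (h.one _) (h.one _)
  have qm : ∀ i, q i * m i = M := fun i => by
    rcases f3 i with rfl | rfl | rfl <;> simp [hq, hM] <;> ring
  have M0 : (0 : ℝ) < M := by rw [hM]; push_cast; exact mul_pos (mul_pos (p 0) (p 1)) (p 2)
  have qM : ∀ i, (q i : ℝ) / M = 1 / m i := fun i => by
    rw [div_eq_div_iff M0.ne' (p i).ne', one_mul]
    exact_mod_cast qm i
  set H : ℕ → Finset V := fun t => univ.filter fun v => pos v * q (I v) ≤ t with hH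
  have PM : ∀ v, pos v * q (I v) ≤ M := fun v => by
    rw [← qm (I v), mul_comm]; exact Nat.mul_le_mul_left _ (h.le v)
  have ec : cst m I pos = (1 / M : ℝ) • ∑ t ∈ range M, cutm (H t) +
      ∑ i, ((1 : ℝ) / m i) • cutm (univ.filter fun v => I v = i) := by
    funext u v
    simp only [Pi.add_apply, Finset.sum_apply, Pi.smul_apply, smul_eq_mul, sum_cutm, cst]
    congr 1
    simp only [cutm, hH, mem_filter, mem_univ, true_and]
    rw [abs_eq_sum _ _ _ (PM u) (PM v), ← abs_of_pos (one_div_pos.2 M0), ← abs_mul]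
    congr 1
    push_cast
    rw [div_eq_mul_one_div, div_eq_mul_one_div (pos v : ℝ), ← qM, ← qM]
    ring
  have hd : ∀ t ∈ range M, 4 - 2 * ∑ i, (if Free x I pos i (t / q i + 1) then (1 : ℝ) else 0) ≤
      dot (cutm (H t)) x := fun t ht => by
    by_cases k : ∃ i, Free x I pos i (t / q i + 1)
    · obtain ⟨i, k⟩ := k
      have a := single_le_sum (f := fun i => if Free x I pos i (t / q i + 1) then (1 : ℝ) else 0)
        (fun i _ => by positivity) (mem_univ i)
      have b := cut_two hx (S := H t) ⟨nd 0 0, by simp [hH, h.pos_nd]⟩ ⟨nd 0 (m 0), by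
        have := qm 0
        have := mem_range.1 ht
        simp only [hH, mem_compl, mem_filter, mem_univ, true_and, h.pos_nd 0 _ le_rfl,
          h.I_nd 0 _ le_rfl, mul_comm (m 0)]
        omega⟩
      rw [if_pos k] at a
      linarith
    · simp only [not_exists] at k
      simp only [k, if_false, sum_const_zero]
      unfold Free at k
      push Not at k
      choose u v h1 h2 h3 h4 h5 using k
      have a : ∀ i, 1 ≤ ∑ w ∈ (H t)ᶜ, x (u i) w := fun i => by
        refine le_trans ?_ (single_le_sum (fun w _ => (hx.2.2.1 _ w).1) (a := v i) ?_)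
        · obtain ⟨z, e⟩ := hi (u i) (v i)
          have := (hx.2.2.1 (u i) (v i)).1.lt_of_ne' (h5 i)
          rw [e] at this ⊢
          exact_mod_cast this
        · have := (Nat.div_lt_iff_lt_mul (q0 i)).1 (h4 i)
          simpa [hH, h2] using this
      have b : ∑ i, ∑ w ∈ (H t)ᶜ, x (u i) w ≤ dot (cutm (H t)) x := by
        rw [dot_cutm hx.1, ← sum_image (f := fun s => ∑ w ∈ (H t)ᶜ, x s w)
          fun i _ j _ e => by rw [← h1 i, e, h1]]
        refine sum_le_sum_of_subset_of_nonneg (fun s hs => ?_)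
          fun s _ _ => sum_nonneg fun w _ => (hx.2.2.1 _ w).1
        obtain ⟨i, -, rfl⟩ := mem_image.1 hs
        have := (Nat.le_div_iff_mul_le (q0 i)).1 (Nat.lt_succ_iff.1 (h3 i))
        simpa [hH, h1] using this
      obtain ⟨z, e⟩ := cut_even hx hi (H t)
      rw [Fin.sum_univ_three] at b
      have c : (3 : ℝ) ≤ 2 * z := by linarith [a 0, a 1, a 2]
      have c' : (4 : ℝ) ≤ 2 * z := by
        have : (3 : ℤ) ≤ 2 * z := by exact_mod_cast c
        exact_mod_cast (show (4 : ℤ) ≤ 2 * z by omega)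
      linarith
  have s1 := sum_le_sum hd
  rw [sum_sub_distrib, ← mul_sum, sum_comm, sum_congr (s₁ := univ) rfl fun i _ => by
    rw [← qm i, sum_div_range (fun j => if Free x I pos i (j + 1) then (1 : ℝ) else 0) (q0 i)]] at s1
  have s2 := sum_le_sum fun i (_ : i ∈ univ) =>
    mul_le_mul_of_nonneg_left (h.tooth hx i) (one_div_pos.2 (p i)).le
  rw [ec, dot_comm, dot_add, dot_smul, dot_sum, dot_sum]
  simp only [dot_smul]
  simp only [dot_comm x]
  have s3 := mul_le_mul_of_nonneg_left s1 (one_div_pos.2 M0).le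
  refine le_trans (le_of_eq ?_) (add_le_add s3 s2)
  simp only [Fin.sum_univ_three, ← qM, sum_const, card_range, nsmul_eq_mul]
  field_simp
  ring

end Pool.Agent.P.MP_92d394_lc
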