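import Mathlib

/-! The subtour elimination polytope and the gap of a point. A vector indexed by the edges of the
complete graph is written as a symmetric matrix with zero diagonal. -/

namespace Pool.Agent.P.MP_92d394_lc

open Finset

variable {V : Type} [Fintype V] [DecidableEq V]

/-- The scalar product over the edges: every edge occurs twice in the double sum. -/
noncomputable def dot (c x : V → V → ℝ) : ℝ := (∑ u, ∑ v, c u v * x u v) / 2

/-- The subtour elimination polytope. -/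
def SubP (V : Type) [Fintype V] [DecidableEq V] : Set (V → V → ℝ) :=
  {x | (∀ u v, x u v = x v u) ∧ (∀ u, x u u = 0) ∧ (∀ u v, 0 ≤ x u v ∧ x u v ≤ 1) ∧
    (∀ u, ∑ v, x u v = 2) ∧
    ∀ S : Finset V, 3 ≤ S.card → S.card + 3 ≤ Fintype.card V → 2 ≤ ∑ u ∈ S, ∑ v ∈ Sᶜ, x u v}

/-- Metric cost vectors. -/
def IsMetric (c : V → V → ℝ) : Prop :=
  (∀ u v, c u v = c v u) ∧ (∀ u, c u u = 0) ∧ (∀ u v, 0 ≤ c u v) ∧ ∀ u v w, c u v ≤ c u w + c w v

/-- The optimum over the polytope. -/
noncomputable def sepOpt (c : V → V → ℝ) : ℝ := sInf (dot c '' SubP V)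

/-- The optimum over the integer points of the polytope. -/
noncomputable def tspOpt (c : V → V → ℝ) : ℝ :=
  sInf (dot c '' {x | x ∈ SubP V ∧ ∀ u v, ∃ k : ℤ, x u v = k})

/-- The gap of a point. -/
noncomputable def gap (x : V → V → ℝ) : ℝ :=
  sSup {r | ∃ c, IsMetric c ∧ c ≠ 0 ∧ (∀ y ∈ SubP V, dot c x ≤ dot c y) ∧ r = tspOpt c / sepOpt c}

/-- The number of edges of the support graph. -/
noncomputable def suppCard {n : ℕ} (x : Fin n → Fin n → ℝ) : ℕ :=
  (univ.filter fun p : Fin n × Fin n => p.1 < p.2 ∧ 0 < x p.1 p.2).card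

/-- Half integral vectors whose half edges form vertex disjoint triangles. -/
def IsTri (y : V → V → ℝ) : Prop :=
  (∀ u v, y u v = 0 ∨ y u v = 1 / 2 ∨ y u v = 1) ∧
    ∀ u v, y u v = 1 / 2 → ∃ w, w ≠ v ∧ y u w = 1 / 2 ∧ y v w = 1 / 2 ∧
      ∀ z, y u z = 1 / 2 → z = v ∨ z = w

end Pool.Agent.P.MP_92d394_lc
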