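import Pool.Agent.P.MP_92d394_lc.Df

/-! Half integral vectors with short half cycles. -/

namespace Pool.Agent.P.MP_92d394_lc

/-- Half integral vectors whose half edges form vertex disjoint triangles and squares: a half edge
`u v` extends to a closed walk `x u v w` of half edges, a triangle if `w = x` and a square
otherwise, and `v`, `x` are the only half neighbours of `u`. -/
def IsTS {V : Type} (y : V → V → ℝ) : Prop :=
  (∀ u v, y u v = 0 ∨ y u v = 1 / 2 ∨ y u v = 1) ∧
    ∀ u v, y u v = 1 / 2 → ∃ w x, w ≠ u ∧ x ≠ v ∧ y v w = 1 / 2 ∧ y u x = 1 / 2 ∧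
      (w = x ∨ y w x = 1 / 2) ∧ ∀ z, y u z = 1 / 2 → z = v ∨ z = x

end Pool.Agent.P.MP_92d394_lc
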