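import Pool.Agent.P.MP_92d394_lc.Cst

/-! Assembly. -/

namespace Pool.Agent.P.MP_92d394_lc

open Finset

theorem ex_crd {n : ℕ} {m : Fin 3 → ℕ} (h1 : ∀ i, 1 ≤ m i) (h2 : m 0 + m 1 + m 2 + 3 = n) :
    ∃ (I : Fin n → Fin 3) (pos : Fin n → ℕ) (nd : Fin 3 → ℕ → Fin n), Crd m I pos nd := by
  obtain ⟨e⟩ : Nonempty (Fin n ≃ Σ i : Fin 3, Fin (m i + 1)) := ⟨Fintype.equivOfCardEq (by
    simp [Fin.sum_univ_three]; omega)⟩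
  refine ⟨fun v => (e v).1, fun v => (e v).2,
    fun i j => e.symm ⟨i, ⟨min j (m i), Nat.lt_succ_of_le (min_le_right _ _)⟩⟩, h1,
    fun v => Nat.lt_succ_iff.1 (e v).2.2, fun v => ?_, fun i j _ => by simp, fun i j h => ?_⟩
  · rw [Equiv.symm_apply_eq]
    simp only [min_eq_left (Nat.lt_succ_iff.1 (e v).2.2)]
  · rw [e.apply_symm_apply]
    exact min_eq_left h

theorem ex_best {n : ℕ} (hn : 6 ≤ n) : ∃ m : Fin 3 → ℕ, (∀ i, 1 ≤ m i) ∧ m 0 + m 1 + m 2 + 3 = n ∧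
    ∀ k₁ k₂ k₃ : ℕ, 3 ≤ k₁ → 3 ≤ k₂ → 3 ≤ k₃ → k₁ + k₂ + k₃ ≤ n + 3 →
      3 + 2 * ∑ i, (1 : ℝ) / m i ≤ k₁ / (k₁ - 2) + k₂ / (k₂ - 2) + k₃ / (k₃ - 2) := by
  obtain ⟨m, h1, h2⟩ := exists_min_image
    ((Fintype.piFinset fun _ : Fin 3 => Icc 1 n).filter fun m => m 0 + m 1 + m 2 + 3 = n)
    (fun m => ∑ i, (1 : ℝ) / m i) ⟨![n - 5, 1, 1], by
      simp [Fin.forall_fin_succ]; omega⟩
  simp only [mem_filter, Fintype.mem_piFinset, mem_Icc] at h1 h2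
  refine ⟨m, fun i => (h1.1 i).1, h1.2, fun k₁ k₂ k₃ a1 a2 a3 a4 => ?_⟩
  obtain ⟨l₁, rfl⟩ : ∃ l, k₁ = l + 2 := ⟨k₁ - 2, by omega⟩
  obtain ⟨l₂, rfl⟩ : ∃ l, k₂ = l + 2 := ⟨k₂ - 2, by omega⟩
  obtain ⟨l₃, rfl⟩ : ∃ l, k₃ = l + 2 := ⟨k₃ - 2, by omega⟩
  have := h2 ![n - 3 - l₂ - l₃, l₂, l₃] (by simp [Fin.forall_fin_succ]; omega)
  have p1 : (0 : ℝ) < l₁ := by exact_mod_cast (by omega)
  have p2 : (0 : ℝ) < l₂ := by exact_mod_cast (by omega)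
  have p3 : (0 : ℝ) < l₃ := by exact_mod_cast (by omega)
  have q : (1 : ℝ) / (n - 3 - l₂ - l₃ : ℕ) ≤ 1 / l₁ :=
    one_div_le_one_div_of_le p1 (by exact_mod_cast (by omega))
  have e : ∀ l : ℝ, 0 < l → (l + 2) / (l + 2 - 2) = 1 + 2 * (1 / l) := fun l p => by
    rw [add_sub_cancel_right]; field_simp
  rw [Fin.sum_univ_three (fun i => (1 : ℝ) / (![n - 3 - l₂ - l₃, l₂, l₃] i : ℕ))] at this
  push_cast
  rw [e _ p1, e _ p2, e _ p3]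
  simp only [Matrix.cons_val_zero, Matrix.cons_val_one, Matrix.cons_val] at this
  linarith

variable {V : Type} [Fintype V] [DecidableEq V]

theorem sepOpt_eq {c x : V → V → ℝ} (hx : x ∈ SubP V) (h : ∀ y ∈ SubP V, dot c x ≤ dot c y) :
    sepOpt c = dot c x :=
  IsLeast.csInf_eq ⟨⟨x, hx, rfl⟩, by rintro _ ⟨y, hy, rfl⟩; exact h y hy⟩

theorem ratio_le {y : V → V → ℝ} (hy : y ∈ SubP V) {Φ : ℝ} (p0 : 0 < Φ)
    (h : ∀ c, IsMetric c → ∃ x, (x ∈ SubP V ∧ ∀ u v, ∃ k : ℤ, x u v = k) ∧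
      Φ * dot c x ≤ (Φ + 1) * dot c y) :
    ∀ r ∈ {r | ∃ c, IsMetric c ∧ c ≠ 0 ∧ (∀ z ∈ SubP V, dot c y ≤ dot c z) ∧
      r = tspOpt c / sepOpt c}, r ≤ (Φ + 1) / Φ := by
  rintro _ ⟨c, hc, -, ho, rfl⟩
  obtain ⟨x, x1, x2⟩ := h c hc
  have t : tspOpt c ≤ dot c x := csInf_le ⟨0, by
    rintro _ ⟨z, hz, rfl⟩
    exact dot_nonneg hc.2.2.1 fun u v => (hz.1.2.2.1 u v).1⟩ ⟨x, x1, rfl⟩
  rw [sepOpt_eq hy ho]
  refine div_le_of_le_mul₀ (dot_nonneg hc.2.2.1 fun u v => (hy.2.2.1 u v).1) (by positivity) ?_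
  rw [div_mul_eq_mul_div, le_div_iff₀ p0]
  nlinarith

theorem Crd.gap_ge {m : Fin 3 → ℕ} {I : V → Fin 3} {pos : V → ℕ} {nd : Fin 3 → ℕ → V}
    (h : Crd m I pos nd) (hn : 3 ≤ Fintype.card V) {Φ : ℝ} (e : Φ = 3 + 2 * ∑ i, (1 : ℝ) / m i)
    (hΦ : ∀ k₁ k₂ k₃ : ℕ, 3 ≤ k₁ → 3 ≤ k₂ → 3 ≤ k₃ → k₁ + k₂ + k₃ ≤ Fintype.card V + 3 →
      Φ ≤ k₁ / (k₁ - 2) + k₂ / (k₂ - 2) + k₃ / (k₃ - 2)) : (Φ + 1) / Φ ≤ gap (bb m I pos) := by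
  have p0 : 0 < Φ := by rw [e]; positivity
  have up := fun c hc => upper h.mem h.isTri hn (c := c) hc Φ hΦ p0
  have ho : ∀ z ∈ SubP V, dot (cst m I pos) (bb m I pos) ≤ dot (cst m I pos) z :=
    fun z hz => h.dot_cst ▸ h.sep_low hz
  refine le_trans ?_ (le_csSup ⟨_, ratio_le h.mem p0 up⟩ ⟨cst m I pos, cst_metric, fun k => ?_,
    ho, rfl⟩)
  · rw [sepOpt_eq h.mem ho, h.dot_cst, ← e]
    refine div_le_div_of_nonneg_right (le_csInf ?_ ?_) p0.le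
    · obtain ⟨x, x1, -⟩ := up _ (cst_metric (m := m) (I := I) (pos := pos))
      exact ⟨_, x, x1, rfl⟩
    · rintro _ ⟨z, hz, rfl⟩
      linarith [h.tsp_low hz.1 hz.2]
  · have := h.dot_cst
    rw [k, ← e] at this
    simp [dot] at this
    linarith

theorem triangle_points (n : ℕ) (hn : 6 ≤ n) :
    ∃ x ∈ (SubP (Fin n)).extremePoints ℝ, suppCard x = n + 3 ∧
      ∀ y ∈ SubP (Fin n), IsTri y → gap y ≤ gap x := by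
  obtain ⟨m, h1, h2, h3⟩ := ex_best hn
  obtain ⟨I, pos, nd, h⟩ := ex_crd h1 h2
  have c3 : 3 ≤ Fintype.card (Fin n) := by simp; omega
  rw [← Fintype.card_fin n] at h3
  refine ⟨bb m I pos, h.isTri.extreme h.mem, by rw [h.supp]; omega, fun y hy ht => ?_⟩
  refine le_trans (Real.sSup_le (ratio_le hy (by positivity) fun c hc =>
    upper hy ht c3 hc _ h3 (by positivity)) (by positivity)) (h.gap_ge c3 rfl h3)

end Pool.Agent.P.MP_92d394_lc
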