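import Pool.Agent.P.MP_92d394_lc.Df

/-! Cuts, and shortcutting a connected even multigraph to a tour. -/

set_option linter.unusedSectionVars false

namespace Pool.Agent.P.MP_92d394_lc

open Finset

variable {V : Type} [Fintype V] [DecidableEq V]

/-- The cut semimetric. -/
def cutm (S : Finset V) (u v : V) : ℝ := if u ∈ S ↔ v ∈ S then 0 else 1

/-- The vector of an edge. -/
def ed (p q : V) (u v : V) : ℝ :=
  if p = q then 0 else (if u = p ∧ v = q then 1 else 0) + if u = q ∧ v = p then 1 else 0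

theorem ed_self (p q s : V) : ed p q s s = 0 := by
  unfold ed
  split_ifs <;> grind

theorem ed_symm (p q s t : V) : ed p q s t = ed p q t s := by
  simp only [ed, and_comm, add_comm]

theorem dot_add (c x y : V → V → ℝ) : dot c (x + y) = dot c x + dot c y := by
  simp only [dot, Pi.add_apply, mul_add, sum_add_distrib, add_div]

theorem dot_sub (c x y : V → V → ℝ) : dot c (x - y) = dot c x - dot c y := by
  simp only [dot, Pi.sub_apply, mul_sub, sum_sub_distrib, sub_div]

theorem dot_smul (c x : V → V → ℝ) (r : ℝ) : dot c (r • x) = r * dot c x := by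
  simp only [dot, Pi.smul_apply, smul_eq_mul, mul_left_comm _ r, ← mul_sum, mul_div_assoc]

theorem dot_sum {ι : Type} (c : V → V → ℝ) (s : Finset ι) (x : ι → V → V → ℝ) :
    dot c (∑ i ∈ s, x i) = ∑ i ∈ s, dot c (x i) := by
  classical
  induction s using Finset.induction_on with
  | empty => simp [dot]
  | insert i s h ih => rw [sum_insert h, sum_insert h, dot_add, ih]

theorem dot_ed {c : V → V → ℝ} (h1 : ∀ u v, c u v = c v u) (h2 : ∀ u, c u u = 0) (p q : V) :
    dot c (ed p q) = c p q := by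
  unfold dot ed
  split_ifs with h
  · simp [h, h2]
  · simp [mul_add, sum_add_distrib, ite_and, h1 q p]

theorem dot_mono {c d x : V → V → ℝ} (h : ∀ u v, u ≠ v → c u v ≤ d u v) (h0 : ∀ u, x u u = 0)
    (hx : ∀ u v, 0 ≤ x u v) : dot c x ≤ dot d x := by
  refine div_le_div_of_nonneg_right (sum_le_sum fun u _ => sum_le_sum fun v _ => ?_) zero_le_two
  by_cases k : u = v
  · simp [k, h0]
  · exact mul_le_mul_of_nonneg_right (h u v k) (hx u v)

theorem dot_nonneg {c x : V → V → ℝ} (h : ∀ u v, 0 ≤ c u v) (hx : ∀ u v, 0 ≤ x u v) :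
    0 ≤ dot c x :=
  div_nonneg (sum_nonneg fun u _ => sum_nonneg fun v _ => mul_nonneg (h u v) (hx u v)) zero_le_two

theorem cutm_symm (S : Finset V) (u v : V) : cutm S u v = cutm S v u := by
  simp only [cutm, iff_comm]

theorem cutm_self (S : Finset V) (u : V) : cutm S u u = 0 := by simp [cutm]

theorem cutm_nonneg (S : Finset V) (u v : V) : 0 ≤ cutm S u v := by
  unfold cutm; split_ifs <;> norm_num

theorem cutm_compl (S : Finset V) : cutm Sᶜ = cutm S := by
  funext u v
  simp only [cutm, mem_compl, not_iff_not]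

theorem dot_cutm {x : V → V → ℝ} (h : ∀ u v, x u v = x v u) (S : Finset V) :
    dot (cutm S) x = ∑ u ∈ S, ∑ v ∈ Sᶜ, x u v := by
  have e1 : ∀ u ∈ S, ∑ v, cutm S u v * x u v = ∑ v ∈ Sᶜ, x u v := fun u hu => by
    rw [← sum_add_sum_compl S, sum_eq_zero fun v hv => by simp [cutm, hu, hv], zero_add]
    exact sum_congr rfl fun v hv => by simp [cutm, hu, mem_compl.1 hv]
  have e2 : ∀ u ∈ Sᶜ, ∑ v, cutm S u v * x u v = ∑ v ∈ S, x v u := fun u hu => by
    rw [← sum_add_sum_compl S, sum_eq_zero (s := Sᶜ) fun v hv => by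
      simp [cutm, mem_compl.1 hu, mem_compl.1 hv], add_zero]
    exact sum_congr rfl fun v hv => by simp [cutm, mem_compl.1 hu, hv, h u v]
  rw [dot, ← sum_add_sum_compl S, sum_congr rfl e1, sum_congr rfl e2, sum_comm (s := Sᶜ)]
  ring

theorem dot_single {x : V → V → ℝ} (h : ∀ u v, x u v = x v u) (h0 : ∀ u, x u u = 0) (u : V) :
    dot (cutm {u}) x = ∑ v, x u v := by
  rw [dot_cutm h, sum_singleton, ← sum_add_sum_compl {u}, sum_singleton, h0, zero_add]

theorem cut_eq {x : V → V → ℝ} (hx : x ∈ SubP V) (S : Finset V) :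
    dot (cutm S) x + ∑ u ∈ S, ∑ v ∈ S, x u v = 2 * S.card := by
  rw [dot_cutm hx.1, ← sum_add_distrib, sum_congr rfl fun u _ => by
    rw [add_comm, sum_add_sum_compl, hx.2.2.2.1 u]]
  simp [mul_comm]

theorem cut_two {x : V → V → ℝ} (hx : x ∈ SubP V) {S : Finset V} (h1 : S.Nonempty)
    (h2 : Sᶜ.Nonempty) : 2 ≤ dot (cutm S) x := by
  have sm : ∀ S : Finset V, S.Nonempty → S.card ≤ 2 → 2 ≤ dot (cutm S) x := fun S p q => by
    have e := cut_eq hx S
    have i : ∑ u ∈ S, ∑ v ∈ S, x u v ≤ ∑ u ∈ S, ((S.card : ℝ) - 1) := sum_le_sum fun u hu => by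
      rw [← add_sum_erase S _ hu, hx.2.1, zero_add, ← cast_card_erase_of_mem hu]
      simpa using sum_le_card_nsmul _ _ 1 fun v _ => (hx.2.2.1 u v).2
    have := card_pos.2 p
    rw [sum_const, nsmul_eq_mul] at i
    rcases (show S.card = 1 ∨ S.card = 2 by omega) with z | z <;> rw [z] at e i <;>
      push_cast at e i <;> linarith
  by_cases p : S.card ≤ 2
  · exact sm S h1 p
  by_cases q : Sᶜ.card ≤ 2
  · exact cutm_compl S ▸ sm _ h2 q
  · have := card_add_card_compl S
    rw [dot_cutm hx.1]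
    exact hx.2.2.2.2 S (by omega) (by omega)

/-- Connected even multigraphs. -/
structure Eul (z : V → V → ℝ) : Prop where
  sy : ∀ u v, z u v = z v u
  dg : ∀ u, z u u = 0
  nat : ∀ u v, ∃ k : ℕ, z u v = k
  ev : ∀ S, ∃ k : ℤ, dot (cutm S) z = 2 * k
  pos : ∀ S : Finset V, S.Nonempty → Sᶜ.Nonempty → 0 < dot (cutm S) z

theorem Eul.nn {z : V → V → ℝ} (h : Eul z) (u v : V) : 0 ≤ z u v := by
  obtain ⟨k, e⟩ := h.nat u v
  rw [e]; positivity

theorem Eul.two {z : V → V → ℝ} (h : Eul z) {S : Finset V} (h1 : S.Nonempty)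
    (h2 : Sᶜ.Nonempty) : 2 ≤ dot (cutm S) z := by
  obtain ⟨k, e⟩ := h.ev S
  have := h.pos S h1 h2
  rw [e] at this ⊢
  have : (1 : ℝ) ≤ k := by exact_mod_cast (show 0 < k by exact_mod_cast (by linarith : (0 : ℝ) < k))
  linarith

theorem Eul.pair {z : V → V → ℝ} (h : Eul z) {v : V} (hv : 2 < ∑ u, z v u) :
    ∃ u w, 1 ≤ z v u ∧ 1 + (if w = u then 1 else 0) ≤ z v w ∧ ∀ S : Finset V, v ∉ S → u ∈ S →
      w ∈ S → (∀ s ∈ S, ∀ t ∉ S, t ≠ v → z s t = 0) → 2 < dot (cutm S) z := by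
  classical
  have one : ∀ s t, 0 < z s t → 1 ≤ z s t := fun s t p => by
    obtain ⟨k, e⟩ := h.nat s t
    rw [e] at p ⊢
    exact_mod_cast p
  have cl : ∀ S : Finset V, v ∉ S → (∀ s ∈ S, ∀ t ∉ S, t ≠ v → z s t = 0) →
      dot (cutm S) z = ∑ s ∈ S, z v s := fun S p q => by
    rw [dot_cutm h.sy]
    exact sum_congr rfl fun s hs => (sum_eq_single_of_mem v (mem_compl.2 p)
      fun t ht r => q s hs t (mem_compl.1 ht) r).trans (h.sy _ _)
  obtain ⟨u, -, hu⟩ := exists_lt_of_sum_lt (s := univ) (f := fun _ => (0 : ℝ)) (g := z v)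
    (by simp only [sum_const_zero]; linarith)
  have uv : u ≠ v := fun e => by rw [e, h.dg] at hu; exact lt_irrefl _ hu
  obtain ⟨A, hA, mA⟩ := exists_min_image (univ.filter fun S : Finset V => v ∉ S ∧ u ∈ S ∧
    ∀ s ∈ S, ∀ t ∉ S, t ≠ v → z s t = 0) card ⟨univ.erase v, by simp [uv]⟩
  simp only [mem_filter, mem_univ, true_and] at hA mA
  have sub : ∀ S : Finset V, u ∈ S → (∀ s ∈ S, ∀ t ∉ S, t ≠ v → z s t = 0) → A ⊆ S :=
    fun S p q => inter_eq_left.1 (eq_of_subset_of_card_le inter_subset_left (mA _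
      ⟨fun r => hA.1 (mem_inter.1 r).1, mem_inter.2 ⟨hA.2.1, p⟩, fun s hs t ht r => by
        rw [mem_inter] at hs ht
        by_cases k : t ∈ A
        · exact q s hs.2 t (fun k' => ht ⟨k, k'⟩) r
        · exact hA.2.2 s hs.1 t k r⟩))
  have df : ∀ S : Finset V, v ∉ S → (∀ s ∈ S, ∀ t ∉ S, t ≠ v → z s t = 0) → (S \ A).Nonempty →
      2 ≤ ∑ s ∈ S \ A, z v s := fun S p q r => by
    have nv : v ∉ S \ A := fun k => p (mem_sdiff.1 k).1
    rw [← cl _ nv fun s hs t ht r => ?_]
    · exact h.two r ⟨v, mem_compl.2 nv⟩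
    · rw [mem_sdiff] at hs ht
      by_cases k : t ∈ A
      · rw [h.sy]
        exact hA.2.2 t k s hs.2 fun e => p (e ▸ hs.1)
      · exact q s hs.1 t (fun k' => ht ⟨k', k⟩) r
  rcases (univ.erase v \ A).eq_empty_or_nonempty with k | k
  · obtain ⟨w, -, hw⟩ := exists_lt_of_sum_lt (s := univ)
      (f := fun w => if w = u then (1 : ℝ) else 0) (g := z v) (by simp; linarith)
    refine ⟨u, w, one _ _ hu, ?_, fun S p q _ r => ?_⟩
    · obtain ⟨j, e⟩ := h.nat v w
      rw [e] at hw ⊢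
      split_ifs at hw ⊢
      · exact_mod_cast (show 1 + 1 ≤ j by exact_mod_cast hw)
      · exact_mod_cast (show 1 + 0 ≤ j by exact_mod_cast hw)
    · rw [cl S p r]
      refine hv.trans_le ?_
      rw [← add_sum_erase _ _ (mem_univ v), h.dg, zero_add]
      exact sum_le_sum_of_subset_of_nonneg ((sdiff_eq_empty_iff_subset.1 k).trans (sub S q r))
        fun s _ _ => h.nn _ _
  · obtain ⟨w, w1, hw⟩ := exists_lt_of_sum_lt (s := univ.erase v \ A) (f := fun _ => (0 : ℝ))
      (g := z v) (by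
        have := df (univ.erase v) (by simp) (by simp) k
        simp only [sum_const_zero]; linarith)
    have wA := (mem_sdiff.1 w1).2
    refine ⟨u, w, one _ _ hu, by
      rw [if_neg fun e : w = u => wA (e ▸ hA.2.1), add_zero]; exact one _ _ hw,
      fun S p q q' r => ?_⟩
    have e1 := df S p r ⟨w, mem_sdiff.2 ⟨q', wA⟩⟩
    have e2 := h.two ⟨u, hA.2.1⟩ ⟨v, mem_compl.2 hA.1⟩
    rw [cl A hA.1 hA.2.2] at e2
    rw [cl S p r, ← sum_sdiff (sub S q r)]
    linarith

theorem Eul.split {z : V → V → ℝ} (h : Eul z) {v : V} (hv : 2 < ∑ u, z v u) :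
    ∃ u w, u ≠ v ∧ w ≠ v ∧ Eul (z - ed v u - ed v w + ed u w) := by
  obtain ⟨u, w, h1, h2, h3⟩ := h.pair hv
  have uv : u ≠ v := fun e => by rw [e, h.dg] at h1; linarith
  have wv : w ≠ v := fun e => by
    rw [e, h.dg] at h2; split_ifs at h2 <;> linarith
  set z' := z - ed v u - ed v w + ed u w with hz
  have ez : ∀ s t, z' s t = z s t - ed v u s t - ed v w s t + ed u w s t := fun _ _ => rfl
  have sy : ∀ s t, z' s t = z' t s := fun s t => by
    rw [ez, ez, h.sy, ed_symm v u, ed_symm v w, ed_symm u w]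
  have e0 : ∀ p q s t : V, 0 ≤ ed p q s t := fun p q s t => by unfold ed; positivity
  have ei : ∀ p q s t : V, ∃ k : ℤ, ed p q s t = k := fun p q s t =>
    ⟨if p = q then 0 else (if s = p ∧ t = q then 1 else 0) + if s = q ∧ t = p then 1 else 0, by
      unfold ed; push_cast; rfl⟩
  have off : ∀ s t, s ≠ v → t ≠ v → z s t ≤ z' s t := fun s t p q => by
    have := e0 u w s t
    rw [ez, show ed v u s t = 0 by simp [ed, p, q], show ed v w s t = 0 by simp [ed, p, q]]
    linarith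
  have at1 : ∀ t, 0 ≤ z' v t := fun t => by
    have := e0 u w v t
    have := h.nn v t
    rw [ez]
    by_cases p : t = w
    · subst p
      by_cases q : t = u
      · subst q
        simp only [ed, wv.symm] at *
        simp at *
        linarith
      · simp [ed, wv.symm, uv.symm, q] at *
        linarith
    · by_cases q : t = u
      · subst q
        simp [ed, wv.symm, uv.symm, p] at *
        linarith
      · simp [ed, wv.symm, uv.symm, p, q] at *
        linarith
  have nn : ∀ s t, 0 ≤ z' s t := fun s t => by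
    by_cases p : s = v
    · exact p ▸ at1 t
    by_cases q : t = v
    · exact sy t s ▸ q ▸ at1 s
    · exact (h.nn s t).trans (off s t p q)
  have ct : ∀ S, dot (cutm S) z' = dot (cutm S) z - cutm S v u - cutm S v w + cutm S u w :=
    fun S => by
      simp only [hz, dot_add, dot_sub, dot_ed (cutm_symm S) (cutm_self S)]
  have po : ∀ S : Finset V, v ∉ S → S.Nonempty → 0 < dot (cutm S) z' := fun S p q => by
    by_cases k : ∀ s ∈ S, ∀ t ∉ S, t ≠ v → z s t = 0
    · have r := h.pos S q ⟨v, mem_compl.2 p⟩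
      have r' := fun a b => h3 S p a b k
      rw [ct]
      by_cases a : u ∈ S <;> by_cases b : w ∈ S <;> simp [cutm, a, b, p] at r' ⊢ <;> linarith
    · push Not at k
      obtain ⟨s, hs, t, ht, k1, k2⟩ := k
      rw [dot_cutm sy]
      refine sum_pos' (fun s _ => sum_nonneg fun t _ => nn s t) ⟨s, hs, ?_⟩
      exact sum_pos' (fun t _ => nn s t) ⟨t, mem_compl.2 ht,
        ((h.nn s t).lt_of_ne' k2).trans_le (off s t (fun e => p (e ▸ hs)) k1)⟩
  refine ⟨u, w, uv, wv, (?_ : Eul z')⟩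
  refine ⟨sy, fun s => ?_, fun s t => ?_, fun S => ?_, fun S p q => ?_⟩
  · rw [ez, h.dg, ed_self, ed_self, ed_self]; ring
  · obtain ⟨k, e⟩ := h.nat s t
    obtain ⟨k1, e1⟩ := ei v u s t
    obtain ⟨k2, e2⟩ := ei v w s t
    obtain ⟨k3, e3⟩ := ei u w s t
    have n := nn s t
    rw [ez, e, e1, e2, e3] at n ⊢
    obtain ⟨j, hj⟩ := Int.eq_ofNat_of_zero_le (show 0 ≤ (k : ℤ) - k1 - k2 + k3 by exact_mod_cast n)
    exact ⟨j, by exact_mod_cast hj⟩
  · obtain ⟨k, e⟩ := h.ev S
    rw [ct, e]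
    refine ⟨k - if (u ∈ S ↔ w ∈ S) ∧ ¬ (v ∈ S ↔ u ∈ S) then 1 else 0, ?_⟩
    by_cases a : u ∈ S <;> by_cases b : w ∈ S <;> by_cases c : v ∈ S <;>
      simp [cutm, a, b, c] <;> ring
  · by_cases k : v ∈ S
    · exact cutm_compl S ▸ po Sᶜ (by simpa using k) q
    · exact po S k p

theorem Eul.tour {c : V → V → ℝ} (hc : IsMetric c) (hn : 3 ≤ Fintype.card V) {z : V → V → ℝ}
    (h : Eul z) : ∃ x, (x ∈ SubP V ∧ ∀ u v, ∃ k : ℤ, x u v = k) ∧ dot c x ≤ dot c z := by
  set o : V → V → ℝ := fun u v => if u = v then 0 else 1 with ho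
  have o1 : ∀ u v, o u v = o v u := fun u v => by simp only [ho, eq_comm]
  have o2 : ∀ u, o u u = 0 := fun u => by simp [ho]
  have o3 : ∀ u v, 0 ≤ o u v := fun u v => by simp only [ho]; positivity
  obtain ⟨m, hm⟩ := exists_nat_gt (dot o z)
  induction m generalizing z with
  | zero => exact absurd hm (by simpa using dot_nonneg o3 h.nn)
  | succ m ih =>
  by_cases k : ∃ v, 2 < ∑ u, z v u
  · obtain ⟨v, hv⟩ := k
    obtain ⟨u, w, p, q, r⟩ := h.split hv
    obtain ⟨x, x1, x2⟩ := ih r (by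
      simp only [dot_add, dot_sub, dot_ed o1 o2]
      simp only [ho, p.symm, q.symm, if_false]
      push_cast at hm
      split_ifs <;> linarith)
    refine ⟨x, x1, x2.trans ?_⟩
    simp only [dot_add, dot_sub, dot_ed hc.1 hc.2.1]
    linarith [hc.2.2.2 u w v, hc.1 u v]
  push Not at k
  have ne : ∀ S : Finset V, S.card ≤ 2 → Sᶜ.Nonempty := fun S p => card_pos.1 (by
    have := card_add_card_compl S; omega)
  have dg : ∀ v, ∑ u, z v u = 2 := fun v => le_antisymm (k v) (by
    rw [← dot_single h.sy h.dg]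
    exact h.two (singleton_nonempty v) (ne _ (by simp)))
  refine ⟨z, ⟨⟨h.sy, h.dg, fun u v => ⟨h.nn u v, ?_⟩, dg, fun S p q => ?_⟩, fun u v => ?_⟩, le_rfl⟩
  · by_cases e : u = v
    · simp [e, h.dg]
    have t := h.two (insert_nonempty u {v}) (ne _ card_le_two)
    have d1 := dg u
    have d2 := dg v
    rw [← sum_add_sum_compl {u, v}, sum_pair e, h.dg] at d1 d2
    rw [dot_cutm h.sy, sum_pair e] at t
    linarith [h.sy u v]
  · rw [← dot_cutm h.sy]
    refine h.two (card_pos.1 (by omega)) (card_pos.1 ?_)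
    have := card_add_card_compl S
    omega
  · obtain ⟨j, e⟩ := h.nat u v
    exact ⟨j, by simpa using e⟩

end Pool.Agent.P.MP_92d394_lc
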