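import Pool.Agent.P.MP_92d394_lc.Up

/-! The vertices with three paths between two triangles. -/

set_option linter.unusedSectionVars false

namespace Pool.Agent.P.MP_92d394_lc

open Finset

variable {V : Type} [Fintype V] [DecidableEq V]

theorem IsTri.extreme {x : V → V → ℝ} (hx : x ∈ SubP V) (ht : IsTri x) :
    x ∈ (SubP V).extremePoints ℝ := by
  have key : ∀ y ∈ SubP V, (∀ u v, x u v ≠ 1 / 2 → y u v = x u v) → y = x := fun y hy h => by
    have row : ∀ u, ∑ v ∈ tri x u, (y u v - x u v) = 0 := fun u => by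
      rw [sum_subset (subset_univ _) fun v _ hv => by
        rw [h u v fun k => hv (by simp [tri, k]), sub_self], sum_sub_distrib, hy.2.2.2.1,
        hx.2.2.2.1, sub_self]
    funext p q
    by_cases k : x p q = 1 / 2
    · obtain ⟨r, n1, n2, n3, b1, b2, e1, e2, e3⟩ := tri_spec hx ht k
      have r1 := row p
      have r2 := row q
      have r3 := row r
      rw [e1] at r1
      rw [e2] at r2
      rw [e3] at r3
      rw [sum_insert (by simp [n1, n2]), sum_pair n3, hy.2.1, hx.2.1] at r1 r2 r3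
      linarith [hy.1 p q, hy.1 p r, hy.1 q r, hx.1 p q, hx.1 p r, hx.1 q r]
    · exact h p q k
  refine mem_extremePoints_iff_left.2 ⟨hx, fun y hy z hz ⟨s, t, hs, h1, h2, h3⟩ =>
    key y hy fun u v k => ?_⟩
  have e : s * y u v + t * z u v = x u v := congrFun (congrFun h3 u) v
  have a := hy.2.2.1 u v
  have b := hz.2.2.1 u v
  rcases ht.1 u v with q | q | q
  · rw [q] at e ⊢; nlinarith
  · exact absurd q k
  · rw [q] at e ⊢; nlinarith

/-- Coordinates on three paths. -/
structure Crd (m : Fin 3 → ℕ) (I : V → Fin 3) (pos : V → ℕ) (nd : Fin 3 → ℕ → V) : Prop where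
  one : ∀ i, 1 ≤ m i
  le : ∀ v, pos v ≤ m (I v)
  nd_eq : ∀ v, nd (I v) (pos v) = v
  I_nd : ∀ i j, j ≤ m i → I (nd i j) = i
  pos_nd : ∀ i j, j ≤ m i → pos (nd i j) = j

/-- The vertex. -/
noncomputable def bb (m : Fin 3 → ℕ) (I : V → Fin 3) (pos : V → ℕ) (u v : V) : ℝ :=
  if I u = I v then (if pos u + 1 = pos v ∨ pos v + 1 = pos u then 1 else 0)
  else if (pos u = 0 ∧ pos v = 0) ∨ (pos u = m (I u) ∧ pos v = m (I v)) then 1 / 2 else 0

variable {m : Fin 3 → ℕ} {I : V → Fin 3} {pos : V → ℕ} {nd : Fin 3 → ℕ → V}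

theorem Crd.eq_nd (h : Crd m I pos nd) {i : Fin 3} {j : ℕ} (hj : j ≤ m i) (u : V) :
    u = nd i j ↔ I u = i ∧ pos u = j :=
  ⟨fun e => e ▸ ⟨h.I_nd i j hj, h.pos_nd i j hj⟩, fun e => e.1 ▸ e.2 ▸ (h.nd_eq u).symm⟩

theorem Crd.sum (h : Crd m I pos nd) (f : V → ℝ) :
    ∑ v, f v = ∑ i, ∑ j ∈ range (m i + 1), f (nd i j) := by
  rw [sum_sigma']
  exact sum_nbij' (fun v => ⟨I v, pos v⟩) (fun s => nd s.1 s.2)
    (fun v _ => by simpa [Nat.lt_succ_iff] using h.le v) (fun _ _ => mem_univ _)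
    (fun v _ => h.nd_eq v)
    (fun s hs => by
      have : s.2 ≤ m s.1 := by simpa [Nat.lt_succ_iff] using hs
      simp [h.I_nd _ _ this, h.pos_nd _ _ this])
    fun v _ => by rw [h.nd_eq]

theorem f3 (i : Fin 3) : i = 0 ∨ i = 1 ∨ i = 2 := by revert i; decide

theorem Crd.bb_eq (h : Crd m I pos nd) : bb m I pos =
    ∑ i, ∑ j ∈ range (m i), ed (nd i j) (nd i (j + 1)) + (1 / 2 : ℝ) •
      ∑ i, (ed (nd i 0) (nd (i + 1) 0) + ed (nd i (m i)) (nd (i + 1) (m (i + 1)))) := by
  funext u v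
  have p : ∀ i, ∑ j ∈ range (m i), ed (nd i j) (nd i (j + 1)) u v =
      if I u = i ∧ I v = i ∧ (pos u + 1 = pos v ∨ pos v + 1 = pos u) then 1 else 0 := fun i => by
    rw [sum_congr rfl (g := fun j =>
      (if pos u = j then (if I u = i ∧ I v = i ∧ pos v = j + 1 then (1 : ℝ) else 0) else 0) +
      if pos v = j then (if I u = i ∧ I v = i ∧ pos u = j + 1 then (1 : ℝ) else 0) else 0)
      fun j hj => ?_, sum_add_distrib, sum_ite_eq, sum_ite_eq]
    · have := h.le u
      have := h.le v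
      simp only [mem_range]
      grind
    · have a1 : j + 1 ≤ m i := mem_range.1 hj
      have a2 : j ≤ m i := by omega
      simp only [ed, h.eq_nd a1, h.eq_nd a2 u, h.eq_nd a2 v, h.pos_nd i j a2]
      grind
  have q : ∀ i k : Fin 3, ∀ a b, a ≤ m i → b ≤ m k → i ≠ k → ed (nd i a) (nd k b) u v =
      (if (I u = i ∧ pos u = a) ∧ I v = k ∧ pos v = b then 1 else 0) +
      if (I u = k ∧ pos u = b) ∧ I v = i ∧ pos v = a then 1 else 0 := fun i k a b a1 a2 n => by
    simp only [ed, h.eq_nd a2, h.eq_nd a1 u, h.eq_nd a1 v, h.I_nd i a a1, n, false_and, if_false]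
  have n : ∀ i : Fin 3, i ≠ i + 1 := by decide
  simp only [Pi.add_apply, Finset.sum_apply, Pi.smul_apply, smul_eq_mul, p,
    fun i => q i (i + 1) 0 0 (Nat.zero_le _) (Nat.zero_le _) (n i),
    fun i => q i (i + 1) _ _ le_rfl le_rfl (n i), Fin.sum_univ_three, bb]
  have := h.one 0
  have := h.one 1
  have := h.one 2
  rcases f3 (I u) with a | a | a <;> rcases f3 (I v) with b | b | b <;> simp [a, b] <;> grind

theorem Crd.dot_bb (h : Crd m I pos nd) {c : V → V → ℝ} (h1 : ∀ u v, c u v = c v u)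
    (h2 : ∀ u, c u u = 0) : dot c (bb m I pos) =
    ∑ i, ∑ j ∈ range (m i), c (nd i j) (nd i (j + 1)) + 1 / 2 *
      ∑ i, (c (nd i 0) (nd (i + 1) 0) + c (nd i (m i)) (nd (i + 1) (m (i + 1)))) := by
  simp only [h.bb_eq, dot_add, dot_smul, dot_sum, dot_ed h1 h2]

theorem bb_symm (u v : V) : bb m I pos u v = bb m I pos v u := by
  unfold bb; grind

theorem bb_self (u : V) : bb m I pos u u = 0 := by simp [bb]

theorem cutm_tri (S : Finset V) (u v w : V) : cutm S u v ≤ cutm S u w + cutm S w v := by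
  by_cases a : u ∈ S <;> by_cases b : v ∈ S <;> by_cases c : w ∈ S <;> simp [cutm, a, b, c]

theorem path_le (S : Finset V) (f : ℕ → V) (a b : ℕ) :
    cutm S (f a) (f (a + b)) ≤ ∑ j ∈ range b, cutm S (f (a + j)) (f (a + j + 1)) := by
  induction b with
  | zero => simp [cutm_self]
  | succ b ih =>
    rw [sum_range_succ]
    exact (cutm_tri S (f a) (f (a + b + 1)) (f (a + b))).trans (add_le_add_left ih _)

theorem path_two (S : Finset V) (f : ℕ → V) {a k : ℕ} (h : a ≤ k) :
    cutm S (f 0) (f a) + cutm S (f a) (f k) ≤ ∑ j ∈ range k, cutm S (f j) (f (j + 1)) := by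
  obtain ⟨b, rfl⟩ := Nat.exists_eq_add_of_le h
  rw [sum_range_add]
  have := path_le S f 0 a
  simp only [zero_add] at this
  linarith [path_le S f a b]

theorem Crd.mem (h : Crd m I pos nd) : bb m I pos ∈ SubP V := by
  refine ⟨bb_symm, bb_self, fun u v => by unfold bb; split_ifs <;> norm_num, fun u => ?_,
    fun S p q => ?_⟩
  · rw [h.sum]
    have a := h.le u
    have o := h.one
    have e : ∀ i, ∑ j ∈ range (m i + 1), bb m I pos u (nd i j) =
        if I u = i then (if pos u < m i then 1 else 0) + (if 0 < pos u then 1 else 0)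
        else (if pos u = 0 then 1 / 2 else 0) + if pos u = m (I u) then 1 / 2 else 0 := fun i => by
      have o1 := o i
      by_cases k : I u = i
      · rw [sum_congr rfl (g := fun j => (if pos u + 1 = j then (1 : ℝ) else 0) +
          if pos u - 1 = j then (if 0 < pos u then 1 else 0) else 0) fun j hj => ?_,
          sum_add_distrib, sum_ite_eq, sum_ite_eq]
        · simp only [mem_range]; grind
        · have a1 : j ≤ m i := Nat.lt_succ_iff.1 (mem_range.1 hj)
          simp only [bb, h.I_nd i j a1, h.pos_nd i j a1]; grind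
      · rw [sum_congr rfl (g := fun j => (if 0 = j then (if pos u = 0 then (1 / 2 : ℝ) else 0) else 0) +
          if m i = j then (if pos u = m (I u) then 1 / 2 else 0) else 0) fun j hj => ?_,
          sum_add_distrib, sum_ite_eq, sum_ite_eq]
        · simp [k]
        · have a1 : j ≤ m i := Nat.lt_succ_iff.1 (mem_range.1 hj)
          simp only [bb, h.I_nd i j a1, h.pos_nd i j a1]; grind
    simp only [e, Fin.sum_univ_three]
    have := o (I u)
    rcases f3 (I u) with b | b | b <;> rw [b] at a this <;> simp [b] <;> grind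
  have nn : ∀ (S : Finset V) (i : Fin 3), 0 ≤ ∑ j ∈ range (m i), cutm S (nd i j) (nd i (j + 1)) :=
    fun S i => sum_nonneg fun _ _ => cutm_nonneg _ _ _
  have al : ∀ S : Finset V, (∀ i, nd i 0 ∈ S ∧ nd i (m i) ∈ S) → Sᶜ.Nonempty →
      2 ≤ dot (cutm S) (bb m I pos) := fun S k ⟨v, hv⟩ => by
    rw [h.dot_bb (cutm_symm S) (cutm_self S)]
    have t := path_two S (nd (I v)) (h.le v)
    have t' := single_le_sum (fun i _ => nn S i) (mem_univ (I v))
    rw [h.nd_eq] at t
    simp [cutm, k, mem_compl.1 hv] at t t' ⊢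
    linarith
  rw [← dot_cutm bb_symm]
  have := card_add_card_compl S
  by_cases k1 : ∀ i, nd i 0 ∈ S ∧ nd i (m i) ∈ S
  · exact al S k1 (card_pos.1 (by omega))
  by_cases k2 : ∀ i, nd i 0 ∈ Sᶜ ∧ nd i (m i) ∈ Sᶜ
  · exact cutm_compl S ▸ al Sᶜ k2 (by rw [compl_compl]; exact card_pos.1 (by omega))
  rw [h.dot_bb (cutm_symm S) (cutm_self S)]
  have t : ∀ i, cutm S (nd i 0) (nd i (m i)) ≤ ∑ j ∈ range (m i), cutm S (nd i j) (nd i (j + 1)) :=
    fun i => by simpa using path_le S (nd i) 0 (m i)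
  refine le_trans ?_ (add_le_add_left (sum_le_sum fun i _ => t i) _)
  simp only [Fin.forall_fin_succ, mem_compl] at k1 k2
  simp only [Fin.sum_univ_three, cutm]
  by_cases a0 : nd 0 0 ∈ S <;> by_cases a1 : nd 1 0 ∈ S <;> by_cases a2 : nd 2 0 ∈ S <;>
    by_cases b0 : nd 0 (m 0) ∈ S <;> by_cases b1 : nd 1 (m 1) ∈ S <;>
    by_cases b2 : nd 2 (m 2) ∈ S <;> simp [a0, a1, a2, b0, b1, b2] at k1 k2 ⊢ <;> norm_num

theorem Crd.isTri (h : Crd m I pos nd) : IsTri (bb m I pos) := by
  refine ⟨fun u v => by unfold bb; split_ifs <;> simp, fun u v k => ?_⟩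
  have hf : ∀ u v, bb m I pos u v = 1 / 2 ↔ I u ≠ I v ∧
      ((pos u = 0 ∧ pos v = 0) ∨ (pos u = m (I u) ∧ pos v = m (I v))) := fun u v => by
    unfold bb
    split_ifs <;> simp_all
  obtain ⟨k1, k2⟩ := (hf u v).1 k
  obtain ⟨l, l1, l2, l3⟩ := (by decide : ∀ i j : Fin 3, i ≠ j → ∃ l, l ≠ i ∧ l ≠ j ∧
    ∀ s, s ≠ i → s = j ∨ s = l) _ _ k1
  have o := h.one (I u)
  have o' := h.one (I v)
  have nv := h.nd_eq v
  simp only [hf]
  rcases k2 with k2 | k2
  · have a := h.I_nd l 0 (Nat.zero_le _)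
    have b := h.pos_nd l 0 (Nat.zero_le _)
    refine ⟨nd l 0, by grind, by grind, by grind, fun z hz => ?_⟩
    have := h.nd_eq z
    grind
  · have a := h.I_nd l _ le_rfl
    have b := h.pos_nd l _ le_rfl
    refine ⟨nd l (m l), by grind, by grind, by grind, fun z hz => ?_⟩
    have := h.nd_eq z
    grind

theorem Crd.supp {n : ℕ} {I : Fin n → Fin 3} {pos : Fin n → ℕ} {nd : Fin 3 → ℕ → Fin n}
    (h : Crd m I pos nd) : suppCard (bb m I pos) = m 0 + m 1 + m 2 + 6 := by
  set c : Fin n → Fin n → ℝ := fun u v =>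
    if bb m I pos u v = 1 then 1 else if bb m I pos u v = 1 / 2 then 2 else 0 with hc
  have e1 := h.dot_bb (c := c) (fun u v => by simp only [hc, bb_symm u v])
    fun u => by simp [hc, bb_self]
  have n1 : ∀ i : Fin 3, i ≠ i + 1 := by decide
  rw [sum_congr rfl fun i _ => sum_congr rfl (g := fun _ => 1) fun j hj => by
      have a1 : j + 1 ≤ m i := mem_range.1 hj
      have a2 : j ≤ m i := by omega
      simp [hc, bb, h.I_nd _ _ a1, h.I_nd _ _ a2, h.pos_nd _ _ a1, h.pos_nd _ _ a2],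
    sum_congr (f := fun i => c (nd i 0) (nd (i + 1) 0) + c (nd i (m i)) (nd (i + 1) (m (i + 1))))
      rfl (g := fun _ => 4) fun i _ => by
      simp [hc, bb, h.I_nd, h.pos_nd, n1 i]
      norm_num] at e1
  have e2 : ∀ u v, c u v * bb m I pos u v = (if u < v ∧ 0 < bb m I pos u v then 1 else 0) +
      if v < u ∧ 0 < bb m I pos v u then 1 else 0 := fun u v => by
    rw [bb_symm v u]
    rcases lt_trichotomy u v with o | o | o
    · rcases h.isTri.1 u v with k | k | k <;> simp [hc, k, o, o.not_gt]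
    · simp [o, bb_self]
    · rcases h.isTri.1 u v with k | k | k <;> simp [hc, k, o, o.not_gt]
  simp only [dot, e2, sum_add_distrib] at e1
  rw [sum_comm (f := fun u v => if v < u ∧ 0 < bb m I pos v u then (1 : ℝ) else 0)] at e1
  have e3 : (suppCard (bb m I pos) : ℝ) =
      ∑ u, ∑ v, if u < v ∧ 0 < bb m I pos u v then (1 : ℝ) else 0 := by
    rw [suppCard, card_filter, Fintype.sum_prod_type]
    push_cast
    rfl
  rw [← e3] at e1
  simp only [Fin.sum_univ_three, sum_const, card_range, nsmul_eq_mul, mul_one, card_univ,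
    Fintype.card_fin, Nat.cast_ofNat] at e1
  exact_mod_cast (show (suppCard (bb m I pos) : ℝ) = m 0 + m 1 + m 2 + 6 by linarith)

end Pool.Agent.P.MP_92d394_lc
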