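import Pool.Agent.P.MP_92d394_lc.Cap

/-! Cuts of bridgeless multigraphs, and joins coupled along two element cuts. -/

set_option linter.unusedSectionVars false

namespace Pool.Agent.P.MP_92d394_lc

open Finset

variable {W E : Type} [Fintype W] [DecidableEq W] [Fintype E] [DecidableEq E]

/-- No cut has exactly one edge. -/
def Br (a b : E → W) : Prop := ∀ φ, (cut a b φ).card ≠ 1

/-- Joins meeting every three element cut once. -/
def G3 (a b : E → W) (J : Finset E) : Prop :=
  ∀ φ, (J ∩ cut a b φ).card % 2 = (cut a b φ).card % 2 ∧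
    ((cut a b φ).card = 3 → (J ∩ cut a b φ).card = 1)

variable {a b : E → W}

theorem exJ (h : Br a b) (g : E → ℝ) (hg : ∀ e, 0 ≤ g e) :
    ∃ J, G3 a b J ∧ 3 * ∑ e ∈ J, g e ≤ ∑ e, g e := by
  have pr : ∀ φ, par (Sum.elim a b) φ = ((cut a b φ).card : ZMod 2) := fun φ => by
    rw [par, Fintype.sum_sum_type, ← sum_add_distrib]
    simpa using sum_card a b univ φ
  have fe : Feas a b (Sum.elim a b) fun _ => 1 / 3 := ⟨fun _ => by norm_num, fun φ p => by
    rw [pr] at p
    have p1 := (ZMod.natCast_eq_one_iff_odd).1 p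
    have p2 := h φ
    have p3 : (3 : ℝ) ≤ (cut a b φ).card := by
      obtain ⟨r, p1⟩ := p1
      exact_mod_cast (show 3 ≤ (cut a b φ).card by omega)
    rw [sum_const, nsmul_eq_mul]
    linarith⟩
  obtain ⟨J, -, jo, c1, co⟩ := (tj _ _ _ _ fe).once fe.1
    (univ.filter fun φ => (cut a b φ).card = 3) id
    (fun φ p => by rw [id, pr, (mem_filter.1 p).2]; rfl)
    (fun φ p => by rw [id, sum_const, (mem_filter.1 p).2]; norm_num) g hg
  refine ⟨J, fun φ => ⟨?_, fun p => c1 φ (mem_filter.2 ⟨mem_univ _, p⟩)⟩, ?_⟩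
  · have := jo φ
    rwa [pr, sum_card, ZMod.natCast_eq_natCast_iff'] at this
  · have := co.trans (sum_le_univ_sum_of_nonneg fun e => mul_nonneg (hg e) (fe.1 e))
    rw [← sum_mul] at this
    linarith

theorem cut_add_const (φ : W → ZMod 2) (s : ZMod 2) :
    cut a b (fun w => φ w + s) = cut a b φ := by
  ext e
  simp [mem_cut]

theorem G3.cld {J : Finset E} (h : G3 a b J) : Cld a b J := fun e he f q => by
  by_cases k : e = f
  · exact k ▸ he
  obtain ⟨φ, q⟩ := q.resolve_left k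
  by_contra r
  have := (h φ).1
  rw [q, card_pair k, show J ∩ {e, f} = {e} from ext fun x => by
    simp only [mem_inter, mem_insert, mem_singleton]; grind, card_singleton] at this
  omega

theorem Br.two (h : Br a b) {φ : W → ZMod 2} {e : E} (he : e ∈ cut a b φ) :
    ∃ f ∈ cut a b φ, f ≠ e := by
  by_contra k
  push Not at k
  exact h φ (card_eq_one.2 ⟨e, eq_singleton_iff_unique_mem.2 ⟨he, k⟩⟩)

/-- Two edges of a three element cut are not in series. -/
theorem Br.node (h : Br a b) {φ : W → ZMod 2} (h3 : (cut a b φ).card = 3) {e f : E}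
    (he : e ∈ cut a b φ) (hf : f ∈ cut a b φ) (q : eqv a b e f) : e = f := by
  by_contra k
  obtain ⟨ψ, q⟩ := q.resolve_left k
  refine h (ψ + φ) ?_
  have s : cut a b ψ ⊆ cut a b φ := q ▸ insert_subset he (singleton_subset_iff.2 hf)
  rw [show cut a b (ψ + φ) = cut a b φ \ cut a b ψ from ext fun x => by
    rw [mem_cut_add, mem_sdiff]; have := @s x; tauto, card_sdiff_of_subset s, h3, q,
    card_pair k]

/-- Localisation of a cut inside a join. -/
theorem G3.loc {J : Finset E} (h : G3 a b J) {ψ φ : W → ZMod 2} {l l' : E}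
    (h1 : cut a b ψ = {l, l'}) (h2 : l ∉ J) (h3 : l' ∉ J) (h4 : cut a b φ ⊆ J) (s : ZMod 2) :
    ∃ χ, cut a b χ = (cut a b φ).filter fun e => ψ (a e) = s := by
  set χ : W → ZMod 2 := fun w => (φ w + φ (a l)) * (ψ w + s + 1) with hχ
  have k1 : ∀ e, e ≠ l' → (e ∈ cut a b χ ↔ e ∈ cut a b φ ∧ ψ (a e) = s) := fun e n => by
    by_cases k : e = l
    · have u : e ∉ cut a b φ := fun z => h2 (k ▸ h4 z)
      simp only [mem_cut, hχ, ← k] at u ⊢
      revert u
      generalize φ (a e) = p1, φ (b e) = p2, ψ (a e) = p3, ψ (b e) = p4, s = p6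
      revert p1 p2 p3 p4 p6
      decide
    · have u : e ∉ cut a b ψ := by simp [h1, k, n]
      simp only [mem_cut, hχ] at u ⊢
      revert u
      generalize φ (a e) = p1, φ (b e) = p2, ψ (a e) = p3, ψ (b e) = p4, φ (a l) = p5, s = p6
      revert p1 p2 p3 p4 p5 p6
      decide
  have k2 : l' ∉ cut a b χ := fun u => by
    have := (h χ).1
    rw [show J ∩ cut a b χ = (cut a b χ).erase l' from ext fun x => by
      rw [mem_inter, mem_erase]
      exact ⟨fun z => ⟨fun w => h3 (w ▸ z.1), z.2⟩,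
        fun z => ⟨h4 ((k1 x z.1).1 z.2).1, z.2⟩⟩, card_erase_of_mem u] at this
    have := card_pos.2 ⟨_, u⟩
    omega
  refine ⟨χ, ext fun e => ?_⟩
  rw [mem_filter]
  by_cases k : e = l'
  · exact k ▸ iff_of_false k2 fun z => h3 (h4 z.1)
  · exact k1 e k

theorem submod (φ ψ : W → ZMod 2) : (cut a b (φ * ψ)).card + (cut a b (φ + ψ + φ * ψ)).card ≤
    (cut a b φ).card + (cut a b ψ).card := by
  simp only [cut, card_filter, ← sum_add_distrib]
  refine sum_le_sum fun e _ => ?_
  exact (by decide : ∀ p1 p2 p3 p4 : ZMod 2, ((if p1 * p3 ≠ p2 * p4 then 1 else 0) +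
    if p1 + p3 + p1 * p3 ≠ p2 + p4 + p2 * p4 then 1 else 0) ≤
      (if p1 ≠ p2 then 1 else 0) + if p3 ≠ p4 then 1 else 0) (φ (a e)) (φ (b e)) (ψ (a e)) (ψ (b e))

/-- No small cut contains a spoke on each side of a series edge. -/
theorem Br.nosplit0 (h : Br a b) {ρ e x y : E} {ψ φ : W → ZMod 2} (h1 : cut a b ψ = {ρ, e})
    (l3 : (cut a b (sg (a ρ))).card = 3) (r3 : (cut a b (sg (b ρ))).card = 3)
    (xl : x ∈ cut a b (sg (a ρ))) (yr : y ∈ cut a b (sg (b ρ))) (xa : a x = a ρ) (ya : a y = b ρ)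
    (xn : x ≠ ρ) (yn : y ≠ ρ) (k0 : ρ ∉ cut a b φ) (k1 : x ∈ cut a b φ) (k2 : y ∈ cut a b φ) :
    3 < (cut a b φ).card := by
  have m0 : ρ ∈ cut a b ψ := by simp [h1]
  have nl : a ρ ≠ b ρ := fun z => mem_cut.1 m0 (by rw [z])
  have ρl : ρ ∈ cut a b (sg (a ρ)) := mem_sg.2 (Or.inl ⟨rfl, nl.symm⟩)
  have ρr : ρ ∈ cut a b (sg (b ρ)) := mem_sg.2 (Or.inr ⟨rfl, nl⟩)
  have q0 : eqv a b ρ e := Or.inr ⟨ψ, h1⟩
  have nx : ¬ eqv a b x e := fun z => xn (h.node l3 xl ρl (z.trans q0.symm))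
  have ny : ¬ eqv a b y e := fun z => yn (h.node r3 yr ρr (z.trans q0.symm))
  have mx : x ∉ cut a b ψ := by
    simp only [h1, mem_insert, mem_singleton, not_or]
    exact ⟨xn, fun z => nx (Or.inl z)⟩
  have my : y ∉ cut a b ψ := by
    simp only [h1, mem_insert, mem_singleton, not_or]
    exact ⟨yn, fun z => ny (Or.inl z)⟩
  have key : ∀ z, z ∈ cut a b φ → z ∉ cut a b ψ → φ (a z) = φ (a ρ) → ¬ eqv a b z e →
      ∃ f ∈ cut a b φ, f ≠ z ∧ ψ (a f) = ψ (a z) := fun z u v w n => by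
    set χ : W → ZMod 2 := fun t => (φ t + φ (a ρ)) * (ψ t + ψ (a z) + 1) with hχ
    have c1 : z ∈ cut a b χ := by
      simp only [mem_cut, hχ] at u v ⊢
      revert u v w
      generalize φ (a z) = p1, φ (b z) = p2, ψ (a z) = p3, ψ (b z) = p4, φ (a ρ) = p5
      revert p1 p2 p3 p4 p5
      decide
    by_contra k
    push Not at k
    have c2 : cut a b χ ⊆ {z, e} := fun f hf => by
      rw [mem_insert, mem_singleton]
      by_contra r
      push Not at r
      by_cases t : f = ρ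
      · simp only [mem_cut, hχ, t] at hf k0
        revert hf k0
        generalize φ (a ρ) = p1, φ (b ρ) = p2, ψ (a ρ) + ψ (a z) + 1 = p3,
          ψ (b ρ) + ψ (a z) + 1 = p4
        revert p1 p2 p3 p4
        decide
      · have t' : f ∉ cut a b ψ := by simp [h1, t, r.2]
        have := fun q => k f q r.1
        simp only [mem_cut, hχ] at hf t' this
        revert hf t' this
        generalize φ (a f) = p1, φ (b f) = p2, ψ (a f) = p3, ψ (b f) = p4, φ (a ρ) = p5,
          ψ (a z) = p6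
        revert p1 p2 p3 p4 p5 p6
        decide
    obtain ⟨f, f1, f2⟩ := h.two c1
    have f3 : f = e := by simpa [f2] using c2 f1
    exact n (Or.inr ⟨χ, c2.antisymm (insert_subset c1 (singleton_subset_iff.2 (f3 ▸ f1)))⟩)
  obtain ⟨f, f1, f2, f3⟩ := key x k1 mx (by rw [xa]) nx
  obtain ⟨g, g1, g2, g3⟩ := key y k2 my (by rw [ya]; exact (not_not.1 (mem_cut.not.1 k0)).symm) ny
  have n := mem_cut.1 m0
  rw [xa] at f3
  rw [ya] at g3
  have s : ({x, y, f, g} : Finset E) ⊆ cut a b φ := by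
    simp [insert_subset_iff, k1, k2, f1, g1]
  refine lt_of_lt_of_le ?_ (card_le_card s)
  rw [card_insert_of_notMem (by simp only [mem_insert, mem_singleton]; grind),
    card_insert_of_notMem (by simp only [mem_insert, mem_singleton]; grind),
    card_pair (by grind)]
  omega

/-- The local structure at a square. -/
structure Loc (a b : E → W) (ε : Fin 5 → E) : Prop where
  inj : Function.Injective ε
  a0 : a (ε 0) = a (ε 4)
  a3 : a (ε 3) = a (ε 4)
  a1 : a (ε 1) = b (ε 4)
  a2 : a (ε 2) = b (ε 4)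
  cl : cut a b (sg (a (ε 4))) = {ε 0, ε 3, ε 4}
  cr : cut a b (sg (b (ε 4))) = {ε 1, ε 2, ε 4}

variable {ε : Fin 5 → E}

theorem Loc.l3 (h : Loc a b ε) : (cut a b (sg (a (ε 4)))).card = 3 := by
  rw [h.cl, card_insert_of_notMem (by simp [h.inj.eq_iff]), card_pair (by simp [h.inj.eq_iff])]

theorem Loc.r3 (h : Loc a b ε) : (cut a b (sg (b (ε 4)))).card = 3 := by
  rw [h.cr, card_insert_of_notMem (by simp [h.inj.eq_iff]), card_pair (by simp [h.inj.eq_iff])]

theorem Loc.nl (h : Loc a b ε) : a (ε 4) ≠ b (ε 4) := fun z => by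
  have : ε 4 ∈ cut a b (sg (a (ε 4))) := by simp [h.cl]
  exact mem_cut.1 this (by rw [z])

theorem Br.nosplit (h : Br a b) (k : Loc a b ε) {e : E} {ψ φ : W → ZMod 2}
    (h1 : cut a b ψ = {ε 4, e}) {i j : Fin 5} (hi : i = 0 ∨ i = 3) (hj : j = 1 ∨ j = 2)
    (k1 : ε i ∈ cut a b φ) (k2 : ε j ∈ cut a b φ) : 3 < (cut a b φ).card := by
  have t : ∀ (φ : W → ZMod 2) (i : Fin 5), i = 0 ∨ i = 3 → ε 4 ∉ cut a b φ → ε i ∈ cut a b φ →
      ε j ∈ cut a b φ → 3 < (cut a b φ).card := fun φ i hi =>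
    h.nosplit0 h1 k.l3 k.r3 (by rcases hi with rfl | rfl <;> simp [k.cl])
      (by rcases hj with rfl | rfl <;> simp [k.cr]) (by rcases hi with rfl | rfl; exacts [k.a0, k.a3])
      (by rcases hj with rfl | rfl; exacts [k.a1, k.a2])
      (by rcases hi with rfl | rfl <;> simp [k.inj.eq_iff])
      (by rcases hj with rfl | rfl <;> simp [k.inj.eq_iff])
  by_cases c : ε 4 ∈ cut a b φ
  swap
  · exact t φ i hi c k1 k2
  by_contra r
  have s : cut a b φ = {ε i, ε j, ε 4} := (eq_of_subset_of_card_le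
    (by simp [insert_subset_iff, k1, k2, c]) (by
      rw [card_insert_of_notMem, card_pair]
      · omega
      all_goals rcases hi with rfl | rfl <;> rcases hj with rfl | rfl <;>
        simp [k.inj.eq_iff])).symm
  have u : cut a b (φ + sg (a (ε 4))) = {ε (3 - i), ε j} := ext fun x => by
    rw [mem_cut_add, s, k.cl]
    have := @k.inj
    rcases hi with rfl | rfl <;> rcases hj with rfl | rfl <;>
      simp only [mem_insert, mem_singleton, show (3 : Fin 5) - 0 = 3 from rfl,
        show (3 : Fin 5) - 3 = 0 from rfl] <;> grind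
  have := t (φ + sg (a (ε 4))) (3 - i) (by rcases hi with rfl | rfl <;> simp) (by
    rw [u]
    rcases hi with rfl | rfl <;> rcases hj with rfl | rfl <;> simp [k.inj.eq_iff])
    (by simp [u]) (by simp [u])
  rw [u] at this
  have := card_le_two (a := ε (3 - i)) (b := ε j)
  omega

end Pool.Agent.P.MP_92d394_lc
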