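import Pool.Agent.P.MP_92d394_lc.Q9

/-! Reduction to irreducible configurations. -/

set_option linter.unusedSectionVars false
set_option synthInstance.maxSize 2000

namespace Pool.Agent.P.MP_92d394_lc

open Finset

section
variable {W E : Type} [Fintype W] [DecidableEq W] [Fintype E] [DecidableEq E] {a b : E → W}

theorem Br.nosplit4 {ε : Fin 5 → E} (h : Br a b) (k : Loc a b ε) {e : E} {ψ φ : W → ZMod 2}
    (h1 : cut a b ψ = {ε 4, e}) (n : ∀ i, e ≠ ε i) (k0 : ε 0 ∈ cut a b φ) (k1 : ε 1 ∈ cut a b φ)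
    (k3 : ε 3 ∉ cut a b φ) (k4 : ε 4 ∉ cut a b φ) :
    3 + (if e ∈ cut a b φ then 1 else 0) < (cut a b φ).card := by
  split_ifs with u
  swap
  · exact h.nosplit k h1 (Or.inl rfl) (Or.inl rfl) k0 k1
  have i := @k.inj
  have s : cut a b (φ + ψ + sg (a (ε 4))) = insert (ε 3) (((cut a b φ).erase e).erase (ε 0)) :=
    ext fun x => by
      simp only [mem_cut_add, h1, k.cl, mem_insert, mem_singleton, mem_erase]
      grind
  have := h.nosplit k h1 (φ := φ + ψ + sg (a (ε 4))) (Or.inr rfl) (Or.inl rfl) (by simp [s])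
    (by simp [s, k1, (n 1).symm, k.inj.eq_iff])
  have t := card_insert_le (ε 3) (((cut a b φ).erase e).erase (ε 0))
  rw [card_erase_of_mem (by simp [k0, (n 0).symm]), card_erase_of_mem u, ← s] at t
  omega

theorem small {φ : W → ZMod 2} {ρ : E}
    (h1 : (cut a b φ).card ≤ 1 + if ρ ∈ cut a b φ then 1 else 0)
    (h2 : ∀ x ∈ cut a b φ, eqv a b ρ x → x = ρ) : (cut a b φ).card ≤ 1 := by
  split_ifs at h1 with u
  swap
  · exact h1
  by_contra k
  obtain ⟨x, x1, x2⟩ := exists_mem_ne (not_le.1 k) ρ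
  exact x2 (h2 x x1 (Or.inr ⟨φ, (eq_of_subset_of_card_le
    (insert_subset u (singleton_subset_iff.2 x1)) (by rw [card_pair x2.symm]; exact h1)).symm⟩))
end

/-- The number of cut edges at a square. -/
def cq (s : Fin 3) (ω : Fin 4 → ZMod 2) (l r : ZMod 2) : ℕ :=
  ∑ i, if om ω l r (tA s i) ≠ om ω l r (tB s i) then 1 else 0

theorem cq1 : ∀ s (ω : Fin 4 → ZMod 2), (∀ i j, ω i = 1 → ω j = 1 → i = j) →
    cq s ω 0 0 = cq 0 ω 0 0 := by decide +kernel

theorem cq2 : ∀ (ω : Fin 4 → ZMod 2) l r,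
    cq 0 ω (ω 0) (ω 1) = cq 1 ω l r + if ω 0 ≠ ω 1 then 1 else 0 := by decide +kernel

theorem cq3 : ∀ (ω : Fin 4 → ZMod 2) l r, ∃ κ, cq 0 ω κ κ ≤ cq 2 ω l r ∨ 2 ≤ cq 2 ω l r ∨
    (cq 0 ω κ κ ≤ cq 2 ω l r + 2 ∧ κ ≠ ω 0 ∧ κ ≠ ω 1 ∧ κ = ω 3) := by decide +kernel

variable {V U Tr S : Type} [Fintype V] [DecidableEq V] [Fintype U] [DecidableEq U] [Fintype Tr]
  [DecidableEq Tr] [Fintype S] [DecidableEq S]

/-- A colouring from its parts. -/
def col (φ : V → ZMod 2) (τ : Tr → ZMod 2) (l r : S → ZMod 2) : V ⊕ Tr ⊕ S × Bool → ZMod 2 :=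
  Sum.elim φ (Sum.elim τ fun t : S × Bool => if t.2 then r t.1 else l t.1)

theorem ex_col (ψ : V ⊕ Tr ⊕ S × Bool → ZMod 2) : ∃ φ τ l r, ψ = col φ τ l r :=
  ⟨fun v => ψ (.inl v), fun t => ψ (.inr (.inl t)), fun Q => ψ (.inr (.inr (Q, false))),
    fun Q => ψ (.inr (.inr (Q, true))), funext fun w => by rcases w with _ | _ | ⟨_, _ | _⟩ <;> rfl⟩

namespace Cfg

variable {D : Cfg V U Tr S} {st : S → Fin 3}

theorem card_col (φ : V → ZMod 2) (τ : Tr → ZMod 2) : ∃ A, ∀ (st : S → Fin 3) (l r : S → ZMod 2),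
    (cut (D.ga st) (D.gb st) (col φ τ l r)).card =
      A + ∑ Q, cq (st Q) (fun j => φ (D.w Q j)) (l Q) (r Q) :=
  ⟨((∑ x, if φ (D.o₁ x) ≠ φ (D.o₂ x) then 1 else 0) +
    ∑ x, ∑ i, if τ x ≠ φ (D.tv x i) then 1 else 0), fun st l r => by
    simp only [cut, card_filter, Fintype.sum_sum_type, Fintype.sum_prod_type, ga, gb, col, nd_om,
      Sum.elim_inl, Sum.elim_inr, ← add_assoc, cq]
    rfl⟩

theorem mem_col {φ : V → ZMod 2} {τ : Tr → ZMod 2} {l r : S → ZMod 2} {Q : S} (h : st Q = 0)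
    (i : Fin 5) : .inr (.inr (Q, i)) ∈ cut (D.ga st) (D.gb st) (col φ τ l r) ↔
      om (fun j => φ (D.w Q j)) (l Q) (r Q) (tA 0 i) ≠
        om (fun j => φ (D.w Q j)) (l Q) (r Q) (tB 0 i) := by
  simp only [mem_cut, ga, gb, col, nd_om, h]

theorem card_upd (φ : V → ZMod 2) (τ : Tr → ZMod 2) (l r : S → ZMod 2) (Q : S) (s : Fin 3)
    (x y : ZMod 2) :
    (cut (D.ga st) (D.gb st) (col φ τ (Function.update l Q x) (Function.update r Q y))).card +
      cq s (fun j => φ (D.w Q j)) (l Q) (r Q) =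
    (cut (D.ga (Function.update st Q s)) (D.gb (Function.update st Q s)) (col φ τ l r)).card +
      cq (st Q) (fun j => φ (D.w Q j)) x y := by
  obtain ⟨A, h⟩ := D.card_col φ τ
  rw [h, h, ← add_sum_erase _ _ (mem_univ Q), ← add_sum_erase _ _ (mem_univ Q),
    sum_congr rfl fun P u => by
      rw [Function.update_of_ne (mem_erase.1 u).1, Function.update_of_ne (mem_erase.1 u).1],
    sum_congr (f := fun P => cq (Function.update st Q s P) _ _ _) rfl fun P u => by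
      rw [Function.update_of_ne (mem_erase.1 u).1]]
  simp only [Function.update_self]
  omega

theorem Deg.mono (h1 : D.Inj) (h2 : D.Deg st) (st' : S → Fin 3) : D.Deg st' := fun v => by
  have e : (sg (.inl v) : V ⊕ Tr ⊕ S × Bool → ZMod 2) = col (sg v) 0 0 0 := funext fun w => by
    rcases w with _ | _ | _ <;> simp [sg, col]
  have := h2 v
  obtain ⟨A, h⟩ := D.card_col (sg v) 0
  have t := fun s Q => cq1 s (fun j => sg v (D.w Q j)) fun i j p q => by
    have : D.w Q i = D.w Q j := by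
      simp only [sg, ite_eq_left_iff, zero_ne_one, imp_false, not_not] at p q
      rw [p, q]
    simpa using h1 (a₁ := .inr (Q, i)) (a₂ := .inr (Q, j)) this
  rw [e, h] at this ⊢
  simpa only [Pi.zero_apply, t] using this

theorem two1 (h3 : D.Two st) {Q : S} (hQ : st Q = 0)
    (h : ∀ x, eqv (D.ga st) (D.gb st) (.inr (.inr (Q, 4))) x → x = .inr (.inr (Q, 4))) :
    D.Two (Function.update st Q 1) := fun ψ hψ => by
  obtain ⟨φ, τ, l, r, rfl⟩ := ex_col ψ
  have e := card_upd (D := D) (st := st) φ τ l r Q 1 (φ (D.w Q 0)) (φ (D.w Q 1))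
  rw [hQ, cq2 _ (l Q) (r Q)] at e
  refine h3 (col φ τ (Function.update l Q (φ (D.w Q 0))) (Function.update r Q (φ (D.w Q 1))))
    (small (ρ := .inr (.inr (Q, 4))) ?_ fun x _ => h x)
  simp only [mem_col hQ, Function.update_self]
  change _ ≤ 1 + if φ (D.w Q 0) ≠ φ (D.w Q 1) then 1 else 0
  omega

theorem two2 (h1 : D.Inj) (h2 : D.Deg st) (h3 : D.Two st) {Q P : S} (hQ : st Q = 0)
    (hP : st P = 0) (n : P ≠ Q)
    (h : cls (D.ga st) (D.gb st) (.inr (.inr (Q, 4))) = {.inr (.inr (Q, 4)), .inr (.inr (P, 4))}) :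
    D.Two (Function.update (Function.update st Q 1) P 2) := fun ψ hψ => by
  obtain ⟨φ, τ, l, r, rfl⟩ := ex_col ψ
  obtain ⟨κ, hκ⟩ := cq3 (fun j => φ (D.w P j)) (l P) (r P)
  have e1 := card_upd (D := D) (st := Function.update st Q 1) φ τ l r P 2 κ κ
  have e := card_upd (D := D) (st := st) φ τ (Function.update l P κ) (Function.update r P κ) Q 1
    (φ (D.w Q 0)) (φ (D.w Q 1))
  rw [hQ, cq2 _ (Function.update l P κ Q) (Function.update r P κ Q)] at e
  rw [Function.update_of_ne n, hP] at e1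
  set χ := col φ τ (Function.update (Function.update l P κ) Q (φ (D.w Q 0)))
    (Function.update (Function.update r P κ) Q (φ (D.w Q 1))) with hχ
  have mQ : .inr (.inr (Q, 4)) ∈ cut (D.ga st) (D.gb st) χ ↔ φ (D.w Q 0) ≠ φ (D.w Q 1) := by
    simp only [hχ, mem_col hQ, Function.update_self]
    rfl
  have mP : ∀ i, .inr (.inr (P, i)) ∈ cut (D.ga st) (D.gb st) χ ↔
      om (fun j => φ (D.w P j)) κ κ (tA 0 i) ≠ om (fun j => φ (D.w P j)) κ κ (tB 0 i) := fun i => by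
    simp only [hχ, mem_col hP, Function.update_self, Function.update_of_ne n]
  have m4 : .inr (.inr (P, 4)) ∉ cut (D.ga st) (D.gb st) χ := fun u => (mP 4).1 u rfl
  rcases hκ with k | k | ⟨k, k0, k1, k3⟩
  · refine h3 χ (small (ρ := .inr (.inr (Q, 4))) (by simp only [mQ]; omega) fun x u v => ?_)
    have := mem_cls.2 v
    rw [h, mem_insert, mem_singleton] at this
    exact this.resolve_right fun z => m4 (z ▸ u)
  · obtain ⟨A, t⟩ := D.card_col φ τ
    rw [t] at hψ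
    have := single_le_sum (f := fun R => cq (Function.update (Function.update st Q 1) P 2 R)
      (fun j => φ (D.w R j)) (l R) (r R)) (fun _ _ => Nat.zero_le _) (mem_univ P)
    simp only [Function.update_self] at this
    omega
  · have N := sn h1 h2 h3
    obtain ⟨ψ, t⟩ := (mem_cls.1 (show .inr (.inr (P, 4)) ∈ cls (D.ga st) (D.gb st)
      (.inr (.inr (Q, 4))) by simp [h])).symm.resolve_left (by simp [n])
    have := N.br.nosplit4 (N.loc P (by simpa using hP)) t (by simp [n.symm]) ((mP 0).2 k0)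
      ((mP 1).2 k1) (fun u => (mP 3).1 u k3) m4
    simp only [mQ] at this
    omega

theorem cost_upd (c : V → V → ℝ) (Q : S) (s : Fin 3) : D.cost (Function.update st Q s) c +
    ![(D.cs c Q 0 + D.cs c Q 1 + D.cs c Q 2 + D.cs c Q 3) / 2, D.cs c Q 1 + D.cs c Q 3,
      D.cs c Q 0 + D.cs c Q 2] (st Q) = D.cost st c +
    ![(D.cs c Q 0 + D.cs c Q 1 + D.cs c Q 2 + D.cs c Q 3) / 2, D.cs c Q 1 + D.cs c Q 3,
      D.cs c Q 0 + D.cs c Q 2] s := by
  unfold cost
  rw [← add_sum_erase (univ : Finset S) _ (mem_univ Q),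
    ← add_sum_erase (univ : Finset S) _ (mem_univ Q),
    sum_congr (s₁ := univ.erase Q) rfl fun P u => by rw [Function.update_of_ne (mem_erase.1 u).1],
    Function.update_self]
  ring

theorem red (h1 : D.Inj) (h6 : 6 ≤ Fintype.card V)
    {c : V → V → ℝ} (hc : IsMetric c) (hd : ∀ Q, D.cs c Q 1 + D.cs c Q 3 ≤ D.cs c Q 0 + D.cs c Q 2)
    (Φ : ℝ) (hΦ : ∀ k₁ k₂ k₃ : ℕ, 3 ≤ k₁ → 3 ≤ k₂ → 3 ≤ k₃ → k₁ + k₂ + k₃ ≤ Fintype.card V + 3 →
      Φ ≤ k₁ / (k₁ - 2) + k₂ / (k₂ - 2) + k₃ / (k₃ - 2)) (p0 : 0 < Φ) (h2 : D.Deg st)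
    (h3 : D.Two st) :
    ∃ x, (x ∈ SubP V ∧ ∀ u v, ∃ k : ℤ, x u v = k) ∧ Φ * dot c x ≤ (Φ + 1) * D.cost st c := by
  induction hn : (univ.filter fun Q => st Q = 0).card using Nat.strong_induction_on
    generalizing st with
  | _ n ih =>
  have key : ∀ st' Q, st Q = 0 → st' Q ≠ 0 → (∀ P, st' P = 0 → st P = 0) → D.Two st' →
      D.cost st' c ≤ D.cost st c → ∃ x, (x ∈ SubP V ∧ ∀ u v, ∃ k : ℤ, x u v = k) ∧
        Φ * dot c x ≤ (Φ + 1) * D.cost st c := fun st' Q a1 a2 a3 a4 a5 => by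
    obtain ⟨x, x1, x2⟩ := ih _ (hn ▸ card_lt_card ⟨fun P u => by simpa using a3 P (by simpa using u),
      fun u => a2 (by simpa using @u Q (by simpa using a1))⟩) (h2.mono h1 st') a4 rfl
    exact ⟨x, x1, x2.trans (mul_le_mul_of_nonneg_left a5 (by linarith))⟩
  by_cases h4 : ∀ Q, st Q = 0 → 3 ≤ (cls (D.ga st) (D.gb st) (.inr (.inr (Q, 4)))).card
  · exact irr h1 h2 h3 h6 h4 hc hd Φ hΦ p0
  push Not at h4
  obtain ⟨Q, hQ, h4⟩ := h4
  by_cases h5 : ∀ x, eqv (D.ga st) (D.gb st) (.inr (.inr (Q, 4))) x → x = .inr (.inr (Q, 4))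
  · refine key _ Q hQ (by simp) (fun P u => ?_) (two1 h3 hQ h5) ?_
    · by_cases k : P = Q
      exacts [k ▸ hQ, by simpa [k] using u]
    · have := cost_upd (D := D) (st := st) c Q 1
      simp [hQ] at this
      linarith [hd Q]
  push Not at h5
  obtain ⟨e, e1, e2⟩ := h5
  obtain ⟨ψ, e3⟩ := e1.resolve_left e2.symm
  obtain ⟨P, hP, rfl⟩ := (three h1 h2 h3 h6 (cut_nl (φ := ψ) (e := e)
    (by simp [e3]))).resolve_left (by rw [← cls_eq e1]; omega)
  have n : P ≠ Q := fun z => e2 (by rw [z])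
  have e4 : cls (D.ga st) (D.gb st) (.inr (.inr (Q, 4))) =
      {.inr (.inr (Q, 4)), .inr (.inr (P, 4))} := (eq_of_subset_of_card_le
    (insert_subset (self_cls _) (singleton_subset_iff.2 (mem_cls.2 e1)))
    (by rw [card_pair e2.symm]; omega)).symm
  have t : ∀ Q P, st Q = 0 → st P = 0 → P ≠ Q → cls (D.ga st) (D.gb st) (.inr (.inr (Q, 4))) =
      {.inr (.inr (Q, 4)), .inr (.inr (P, 4))} →
      D.cs c P 0 + D.cs c P 2 - D.cs c P 1 - D.cs c P 3 ≤
        D.cs c Q 0 + D.cs c Q 2 - D.cs c Q 1 - D.cs c Q 3 → ∃ x,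
      (x ∈ SubP V ∧ ∀ u v, ∃ k : ℤ, x u v = k) ∧ Φ * dot c x ≤ (Φ + 1) * D.cost st c :=
    fun Q P hQ hP n u v => by
      refine key _ Q hQ (by simp [n.symm]) (fun R u => ?_) (two2 h1 h2 h3 hQ hP n u) ?_
      · by_cases k : R = Q
        · exact k ▸ hQ
        by_cases k' : R = P
        exacts [k' ▸ hP, by simpa [k, k'] using u]
      · have := cost_upd (D := D) (st := st) c Q 1
        have := cost_upd (D := D) (st := Function.update st Q 1) c P 2
        simp [hQ, hP, n] at *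
        linarith
  rcases le_total (D.cs c P 0 + D.cs c P 2 - D.cs c P 1 - D.cs c P 3)
    (D.cs c Q 0 + D.cs c Q 2 - D.cs c Q 1 - D.cs c Q 3) with k | k
  · exact t Q P hQ hP n e4 k
  · exact t P Q hP hQ n.symm ((cls_eq e1).symm.trans (e4.trans (pair_comm _ _))) k

end Cfg

end Pool.Agent.P.MP_92d394_lc
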