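import Pool.Agent.P.MP_92d394_lc.Q10
import Pool.Agent.P.MP_92d394_lc.Df2
import Pool.Agent.P.MP_92d394_lc.Fin

/-! From points to configurations. -/

set_option linter.unusedSectionVars false
set_option synthInstance.maxSize 2000

namespace Pool.Agent.P.MP_92d394_lc

open Finset

variable {V : Type} [Fintype V] [DecidableEq V] {y : V → V → ℝ}

/-- The sum over the half edges at a vertex. -/
noncomputable def hs (y d : V → V → ℝ) (u : V) : ℝ := ∑ v, if y u v = 1 / 2 then d u v else 0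

theorem cyc (hy : y ∈ SubP V) (ht : IsTS y) {k : ℕ} [NeZero k] (hk : ∀ i : Fin k, i + 1 ≠ i - 1)
    {f : Fin k → V} (h1 : Function.Injective f) (h2 : ∀ i, y (f i) (f (i + 1)) = 1 / 2)
    {A : Finset V} (h3 : ∀ i, f i ∈ A) (h4 : ∀ u ∈ A, ∀ v, y u v = 1 / 2 → v ∈ A) :
    ∃ B ⊂ A, (∀ i, f i ∉ B) ∧ (∀ u ∈ B, ∀ v, y u v = 1 / 2 → v ∈ B) ∧
      ∀ d : V → V → ℝ, (∀ u v, d u v = d v u) →
        ∑ u ∈ A, hs y d u = ∑ u ∈ B, hs y d u + 2 * ∑ i, d (f i) (f (i + 1)) := by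
  have p : ∀ i, y (f i) (f (i - 1)) = 1 / 2 := fun i => by
    rw [hy.1, ← h2 (i - 1), sub_add_cancel]
  have q : ∀ i z, y (f i) z = 1 / 2 ↔ z = f (i + 1) ∨ z = f (i - 1) := fun i z => by
    obtain ⟨w, x, -, -, -, -, -, r⟩ := ht.2 _ _ (h2 i)
    have := (r _ (p i)).resolve_left (h1.ne (hk i)).symm
    exact ⟨fun u => this ▸ r z u, by rintro (rfl | rfl); exacts [h2 i, p i]⟩
  have s : univ.image f ⊆ A := fun u v => by
    obtain ⟨i, -, rfl⟩ := mem_image.1 v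
    exact h3 i
  refine ⟨A \ univ.image f, sdiff_ssubset s (univ_nonempty.image f), by simp, fun u a v b => ?_,
    fun d hd => ?_⟩
  · rw [mem_sdiff] at a ⊢
    refine ⟨h4 u a.1 v b, fun t => a.2 ?_⟩
    obtain ⟨i, -, rfl⟩ := mem_image.1 t
    rcases (q i u).1 (hy.1 _ _ ▸ b) with rfl | rfl <;> simp
  · rw [← sum_sdiff s, sum_image h1.injOn, two_mul]
    congr 1
    nth_rw 2 [← (Equiv.subRight 1).sum_comp]
    rw [← sum_add_distrib]
    refine sum_congr rfl fun i _ => ?_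
    rw [hs, ← sum_filter, show univ.filter (fun v => y (f i) v = 1 / 2) = {f (i + 1), f (i - 1)} from
      ext fun z => by simp only [mem_filter, q]; simp, sum_pair (h1.ne (hk i))]
    simp [hd (f (i - 1)), add_comm]

theorem ex_cyc (hy : y ∈ SubP V) (ht : IsTS y) (c : V → V → ℝ) (A : Finset V) :
    (∀ u ∈ A, ∀ v, y u v = 1 / 2 → v ∈ A) → ∃ (Tr S : Type) (_ : Fintype Tr) (_ : Fintype S)
      (tv : Tr → Fin 3 → V) (w : S → Fin 4 → V), (∀ t i s j, tv t i = tv s j → t = s ∧ i = j) ∧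
      (∀ t i s j, w t i = w s j → t = s ∧ i = j) ∧ (∀ t i s j, tv t i ≠ w s j) ∧
      (∀ t i, tv t i ∈ A) ∧ (∀ Q j, w Q j ∈ A) ∧
      (∀ Q, c (w Q 1) (w Q 2) + c (w Q 3) (w Q 0) ≤ c (w Q 0) (w Q 1) + c (w Q 2) (w Q 3)) ∧
      ∀ d : V → V → ℝ, (∀ u v, d u v = d v u) → ∑ u ∈ A, hs y d u =
        2 * (∑ t, ∑ i, d (tv t i) (tv t (i + 1)) + ∑ Q, ∑ j, d (w Q j) (w Q (j + 1))) := by
  induction A using Finset.strongInduction with
  | H A ih =>
  intro h
  by_cases k : ∃ u ∈ A, ∃ v, y u v = 1 / 2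
  swap
  · push Not at k
    exact ⟨Empty, Empty, inferInstance, inferInstance, Empty.elim, Empty.elim,
      by simp, by simp, by simp, by simp, by simp, by simp, fun d _ =>
        (sum_eq_zero fun u a => sum_eq_zero fun v _ => if_neg (k u a v)).trans (by simp)⟩
  obtain ⟨u, a1, v, a2⟩ := k
  obtain ⟨w, x, n1, n2, b1, b2, b3, -⟩ := ht.2 u v a2
  have ne : ∀ s t, y s t = 1 / 2 → s ≠ t := fun s t k e => by
    rw [e, hy.2.1] at k; norm_num at k
  have m1 := h u a1 v a2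
  have m2 := h v m1 w b1
  have m3 := h u a1 x b2
  have n3 := ne _ _ a2
  have n4 := ne _ _ b1
  have n5 := ne _ _ b2
  rw [hy.1] at b2
  by_cases n6 : w = x
  · obtain ⟨f, f1, f2, f3⟩ : ∃ f : Fin 3 → V, Function.Injective f ∧
        (∀ i, y (f i) (f (i + 1)) = 1 / 2) ∧ ∀ i, f i ∈ A := ⟨![u, v, w],
      fun i j => by fin_cases i <;> fin_cases j <;> simp [n1, n3, n4, n1.symm, n3.symm, n4.symm],
      fun i => by fin_cases i; exacts [a2, b1, n6 ▸ b2], fun i => by fin_cases i <;> assumption⟩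
    obtain ⟨B, s1, s2, s3, s4⟩ := cyc hy ht (by decide) f1 f2 f3 h
    obtain ⟨Tr, S, _, _, tv, z, t1, t2, t3, t4, t5, t6, t7⟩ := ih B s1 s3
    refine ⟨Option Tr, S, inferInstance, inferInstance, fun t => t.elim f tv, z, ?_, t2, ?_, ?_,
      fun Q j => s1.1 (t5 Q j), t6, fun d hd => ?_⟩
    · rintro (_ | t) i (_ | s) j <;> simp only [Option.elim] <;> grind [Function.Injective]
    · rintro (_ | t) i s j <;> simp only [Option.elim] <;> grind
    · rintro (_ | t) i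
      exacts [f3 i, s1.1 (t4 t i)]
    · rw [s4 d hd, t7 d hd, Fintype.sum_option]
      simp only [Option.elim]
      ring
  · obtain ⟨g, g1, g2, g3⟩ : ∃ f : Fin 4 → V, Function.Injective f ∧
        (∀ i, y (f i) (f (i + 1)) = 1 / 2) ∧ ∀ i, f i ∈ A := ⟨![u, v, w, x],
      fun i j => by fin_cases i <;> fin_cases j <;> simp [n1, n2, n3, n4, n5, n6, n1.symm, n2.symm,
        n3.symm, n4.symm, n5.symm, Ne.symm n6],
      fun i => by fin_cases i; exacts [a2, b1, b3.resolve_left n6, b2],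
      fun i => by fin_cases i <;> assumption⟩
    obtain ⟨f, f1, f2, f3, f4⟩ : ∃ f : Fin 4 → V, Function.Injective f ∧
        (∀ i, y (f i) (f (i + 1)) = 1 / 2) ∧ (∀ i, f i ∈ A) ∧
        c (f 1) (f 2) + c (f 3) (f 0) ≤ c (f 0) (f 1) + c (f 2) (f 3) := by
      rcases le_total (c (g 1) (g 2) + c (g 3) (g 0)) (c (g 0) (g 1) + c (g 2) (g 3)) with k | k
      · exact ⟨g, g1, g2, g3, k⟩
      · exact ⟨fun i => g (i + 1), g1.comp (add_left_injective 1), fun i => g2 _, fun i => g3 _,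
          (add_comm _ _).trans_le k⟩
    obtain ⟨B, s1, s2, s3, s4⟩ := cyc hy ht (by decide) f1 f2 f3 h
    obtain ⟨Tr, S, _, _, tv, z, t1, t2, t3, t4, t5, t6, t7⟩ := ih B s1 s3
    refine ⟨Tr, Option S, inferInstance, inferInstance, tv, fun t => t.elim f z, t1, ?_, ?_,
      fun Q j => s1.1 (t4 Q j), ?_, ?_, fun d hd => ?_⟩
    · rintro (_ | t) i (_ | s) j <;> simp only [Option.elim] <;> grind [Function.Injective]
    · rintro t i (_ | s) j <;> simp only [Option.elim] <;> grind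
    · rintro (_ | t) i
      exacts [f3 i, s1.1 (t5 t i)]
    · rintro (_ | t)
      exacts [f4, t6 t]
    · rw [s4 d hd, t7 d hd, Fintype.sum_option]
      simp only [Option.elim]
      ring

theorem ex_cfg (hy : y ∈ SubP V) (ht : IsTS y) (c : V → V → ℝ) :
    ∃ (U Tr S : Type) (_ : Fintype U) (_ : Fintype Tr) (_ : Fintype S) (D : Cfg V U Tr S), D.Inj ∧
      (∀ Q, D.cs c Q 1 + D.cs c Q 3 ≤ D.cs c Q 0 + D.cs c Q 2) ∧
      ∀ d : V → V → ℝ, (∀ u v, d u v = d v u) → 2 * dot d y = 2 * ∑ e, d (D.o₁ e) (D.o₂ e) +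
        (∑ t, ∑ i, d (D.tv t i) (D.tv t (i + 1)) + ∑ Q, ∑ j, d (D.w Q j) (D.w Q (j + 1))) := by
  classical
  obtain ⟨Tr, S, _, _, tv, w, t1, t2, t3, -, -, t6, t7⟩ := ex_cyc hy ht c univ (by simp)
  refine ⟨{p : V × V // Fintype.equivFin V p.1 < Fintype.equivFin V p.2 ∧ y p.1 p.2 = 1}, Tr, S,
    inferInstance, inferInstance, inferInstance, ⟨fun e => e.1.1, fun e => e.1.2, tv, w⟩, ?_, t6,
    fun d hd => ?_⟩
  · rintro (⟨s, i⟩ | ⟨s, i⟩) (⟨t, j⟩ | ⟨t, j⟩) <;> simp only [Sum.elim_inl, Sum.elim_inr] <;> grind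
  set P := fun u v => Fintype.equivFin V u < Fintype.equivFin V v ∧ y u v = 1 with hP
  have e1 : ∑ e : {p : V × V // P p.1 p.2}, d e.1.1 e.1.2 =
      ∑ u, ∑ v, if P u v then d u v else 0 := by
    rw [← Fintype.sum_prod_type', ← sum_filter]
    exact (sum_subtype _ (by simp) fun p : V × V => d p.1 p.2).symm
  have e2 : ∀ u v, d u v * y u v = (if P u v then d u v else 0) + (if P v u then d v u else 0) +
      (if y u v = 1 / 2 then d u v else 0) / 2 := fun u v => by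
    have := hy.2.1 u
    have := hd u v
    have := hy.1 u v
    have := (Fintype.equivFin V).injective.eq_iff (a := u) (b := v)
    rcases ht.1 u v with k | k | k <;> simp only [hP] <;> grind
  have e3 := t7 d hd
  simp only [hs] at e3
  simp only [dot, e2, sum_add_distrib, ← sum_div]
  rw [sum_comm (f := fun u v => if P v u then d v u else 0), ← e1, e3]
  ring

theorem ct1 : ∀ (ω : Fin 3 → ZMod 2) κ, (∑ i, if ω i ≠ ω (i + 1) then 1 else 0) ≤
    2 * (∑ i, if κ ≠ ω i then 1 else 0) ∧ ((∀ i j, ω i = 1 → ω j = 1 → i = j) → κ = 0 →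
      (∑ i, if ω i ≠ ω (i + 1) then 1 else 0) = 2 * ∑ i, if κ ≠ ω i then 1 else 0) := by
  decide +kernel

theorem cq4 : ∀ (ω : Fin 4 → ZMod 2) l r, (∑ i, if ω i ≠ ω (i + 1) then 1 else 0) ≤
    2 * cq 0 ω l r ∧ ((∀ i j, ω i = 1 → ω j = 1 → i = j) → l = 0 → r = 0 →
      (∑ i, if ω i ≠ ω (i + 1) then 1 else 0) = 2 * cq 0 ω l r) := by
  decide +kernel

theorem upper2 (hy : y ∈ SubP V) (ht : IsTS y) (hn : 6 ≤ Fintype.card V) {c : V → V → ℝ}
    (hc : IsMetric c) (Φ : ℝ)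
    (hΦ : ∀ k₁ k₂ k₃ : ℕ, 3 ≤ k₁ → 3 ≤ k₂ → 3 ≤ k₃ → k₁ + k₂ + k₃ ≤ Fintype.card V + 3 →
      Φ ≤ k₁ / (k₁ - 2) + k₂ / (k₂ - 2) + k₃ / (k₃ - 2)) (p0 : 0 < Φ) :
    ∃ x, (x ∈ SubP V ∧ ∀ u v, ∃ k : ℤ, x u v = k) ∧ Φ * dot c x ≤ (Φ + 1) * dot c y := by
  classical
  obtain ⟨U, Tr, S, _, _, _, D, h1, hd, he⟩ := ex_cfg hy ht c
  have cc : ∀ (φ : V → ZMod 2) τ l r, (cut (D.ga 0) (D.gb 0) (col φ τ l r)).card =
      (∑ e, if φ (D.o₁ e) ≠ φ (D.o₂ e) then 1 else 0) +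
      (∑ t, (∑ i, if τ t ≠ φ (D.tv t i) then 1 else 0) +
        ∑ Q, cq 0 (fun j => φ (D.w Q j)) (l Q) (r Q)) := fun φ τ l r => by
    simp only [cut, card_filter, Fintype.sum_sum_type, Fintype.sum_prod_type, Cfg.ga, Cfg.gb, col,
      Cfg.nd_om, Sum.elim_inl, Sum.elim_inr, cq]
    rfl
  have cd : ∀ φ : V → ZMod 2, 2 * dot (cutm (univ.filter fun v => φ v = 1)) y =
      (2 * (∑ e, if φ (D.o₁ e) ≠ φ (D.o₂ e) then 1 else 0) +
      (∑ t, (∑ i, if φ (D.tv t i) ≠ φ (D.tv t (i + 1)) then 1 else 0) +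
        ∑ Q, ∑ j, if φ (D.w Q j) ≠ φ (D.w Q (j + 1)) then 1 else 0) : ℕ) := fun φ => by
    have : ∀ u v, cutm (univ.filter fun v => φ v = 1) u v = if φ u ≠ φ v then 1 else 0 :=
      fun u v => by
        rcases z2 (φ u) with p | p <;> rcases z2 (φ v) with q | q <;> simp [cutm, p, q]
    rw [he _ (cutm_symm _)]
    simp only [this]
    push_cast
    rfl
  have h2 : D.Deg 0 := fun v => by
    have e := cd (sg v)
    have o : ∀ u w, sg v u = 1 → sg v w = 1 → u = w := fun u w p q => by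
      simp only [sg, ite_eq_left_iff, zero_ne_one, imp_false, not_not] at p q
      rw [p, q]
    rw [show univ.filter (fun u => sg v u = 1) = {v} from ext fun u => by simp [sg],
      dot_single hy.1 hy.2.1, hy.2.2.2.1,
      sum_congr rfl fun t _ => (ct1 (fun i => sg v (D.tv t i)) 0).2 (fun i j p q => by
        simpa using h1 (a₁ := .inl (t, i)) (a₂ := .inl (t, j)) (o _ _ p q)) rfl,
      sum_congr rfl fun Q _ => (cq4 (fun i => sg v (D.w Q i)) 0 0).2 (fun i j p q => by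
        simpa using h1 (a₁ := .inr (Q, i)) (a₂ := .inr (Q, j)) (o _ _ p q)) rfl rfl,
      ← mul_sum, ← mul_sum] at e
    rw [show (sg (.inl v) : V ⊕ Tr ⊕ S × Bool → ZMod 2) = col (sg v) 0 0 0 from funext fun w => by
      rcases w with _ | _ | _ <;> simp [sg, col], cc]
    have := Nat.cast_injective (R := ℝ) ((by norm_num : ((4 : ℕ) : ℝ) = 2 * 2).trans e)
    simp only [Pi.zero_apply]
    omega
  have h3 : D.Two 0 := fun ψ hψ u v => by
    obtain ⟨φ, τ, l, r, rfl⟩ := ex_col ψ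
    have e := cd φ
    have e1 := sum_le_sum fun t (_ : t ∈ univ) => (ct1 (fun i => φ (D.tv t i)) (τ t)).1
    have e2 := sum_le_sum fun Q (_ : Q ∈ univ) => (cq4 (fun i => φ (D.w Q i)) (l Q) (r Q)).1
    rw [← mul_sum] at e1 e2
    rw [cc] at hψ
    have e3 := e.trans_le ((Nat.cast_le.2 (by omega : _ ≤ 2)).trans_eq Nat.cast_two)
    have t : ∀ u v, φ u = 1 → φ v = 1 := fun u v p => by
      by_contra q
      linarith [cut_two hy (S := univ.filter fun v => φ v = 1) ⟨u, by simpa using p⟩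
        ⟨v, by simpa using q⟩]
    change φ u = φ v
    have := t u v
    have := t v u
    rcases z2 (φ u) with p | p <;> rcases z2 (φ v) with q | q <;> simp_all
  have e := he c hc.1
  rw [show dot c y = D.cost 0 c by
    simp only [Cfg.cost, Cfg.cs, Pi.zero_apply, Matrix.cons_val_zero, ← sum_div,
      Fin.sum_univ_four] at e ⊢
    linarith]
  exact Cfg.red h1 hn hc hd Φ hΦ p0 h2 h3

theorem tri_square_points (n : ℕ) (hn : 6 ≤ n) :
    ∃ x ∈ (SubP (Fin n)).extremePoints ℝ, suppCard x = n + 3 ∧ gap x < 4 / 3 ∧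
      ∀ y ∈ SubP (Fin n), IsTS y → gap y ≤ gap x := by
  obtain ⟨m, h1, h2, h3⟩ := ex_best hn
  obtain ⟨I, pos, nd, h⟩ := ex_crd h1 h2
  have c3 : 6 ≤ Fintype.card (Fin n) := by simpa using hn
  rw [← Fintype.card_fin n] at h3
  have p : (0 : ℝ) < ∑ i, (1 : ℝ) / m i :=
    sum_pos (fun i _ => one_div_pos.2 (by exact_mod_cast h1 i)) univ_nonempty
  refine ⟨bb m I pos, h.isTri.extreme h.mem, by rw [h.supp]; omega, ?_, fun y hy ht => ?_⟩
  · refine lt_of_le_of_lt (Real.sSup_le (ratio_le h.mem (by positivity) fun c hc =>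
      upper h.mem h.isTri (by omega) hc _ h3 (by positivity)) (by positivity)) ?_
    rw [div_lt_div_iff₀ (by positivity) (by positivity)]
    linarith
  · exact le_trans (Real.sSup_le (ratio_le hy (by positivity) fun c hc =>
      upper2 hy ht c3 hc _ h3 (by positivity)) (by positivity)) (h.gap_ge (by omega) rfl h3)

end Pool.Agent.P.MP_92d394_lc
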