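import Pool.Agent.P.MP_92d394_lc.Q1

/-! Coupling the join along two element cuts. -/

set_option linter.unusedSectionVars false

namespace Pool.Agent.P.MP_92d394_lc

open Finset

variable {W E : Type} [Fintype W] [DecidableEq W] [Fintype E] [DecidableEq E]
  {a b : E → W} {ε : Fin 5 → E}

theorem Loc.step (k : Loc a b ε) (h : Br a b) {e : E} {ψ : W → ZMod 2}
    (h1 : cut a b ψ = {ε 4, e}) : ∃ a' b' : E → W, Br a' b' ∧
      (∀ φ : W → ZMod 2, φ (a (ε 4)) = φ (b (ε 4)) → cut a' b' φ = cut a b φ) ∧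
      cut a' b' (sg (a (ε 4))) = {ε 0, ε 1} ∧ ∀ f, (∀ i, f ≠ ε i) → a' f = a f ∧ b' f = b f := by
  set a' : E → W := fun f => if f = ε 1 then a (ε 4) else if f = ε 3 then b (ε 4) else a f with ha
  set b' : E → W := fun f => if f = ε 4 then a (ε 4) else b f with hb
  have i := @k.inj
  have c1 : ∀ φ : W → ZMod 2, φ (a (ε 4)) = φ (b (ε 4)) → cut a' b' φ = cut a b φ := fun φ u => by
    ext f
    have := k.a1
    have := k.a3
    simp only [mem_cut, ha, hb]
    grind
  have c2 : cut a' b' (sg (a (ε 4))) = {ε 0, ε 1} := by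
    ext f
    have u := congrArg (f ∈ ·) k.cl
    have := k.a1
    have := k.a3
    have := k.a0
    have := k.nl
    simp only [mem_sg, mem_insert, mem_singleton, ha, hb, eq_iff_iff] at u ⊢
    grind
  refine ⟨a', b', fun φ u => ?_, c1, c2, fun f u => by simp [ha, hb, u]⟩
  by_cases c : φ (a (ε 4)) = φ (b (ε 4))
  · exact h φ (c1 φ c ▸ u)
  have c3 := c1 (φ + sg (a (ε 4))) (by
    simp only [Pi.add_apply, sg, if_true, if_neg k.nl.symm]
    revert c
    generalize φ (a (ε 4)) = p, φ (b (ε 4)) = q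
    revert p q
    decide)
  obtain ⟨x, u⟩ := card_eq_one.1 u
  have c4 : ∀ f, f ∈ cut a b (φ + sg (a (ε 4))) ↔ ¬ (f = x ↔ f = ε 0 ∨ f = ε 1) := fun f => by
    rw [← c3, mem_cut_add, u, c2]
    simp
  by_cases x0 : x = ε 0
  · exact h _ (card_eq_one.2 ⟨ε 1, ext fun f => by rw [c4, mem_singleton]; grind⟩)
  by_cases x1 : x = ε 1
  · exact h _ (card_eq_one.2 ⟨ε 0, ext fun f => by rw [c4, mem_singleton]; grind⟩)
  have := h.nosplit k h1 (φ := φ + sg (a (ε 4))) (Or.inl rfl) (Or.inl rfl)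
    (by rw [c4]; grind) (by rw [c4]; grind)
  have s : cut a b (φ + sg (a (ε 4))) ⊆ {x, ε 0, ε 1} := fun f u => by
    rw [c4] at u
    simp only [mem_insert, mem_singleton]
    tauto
  have := (card_le_card s).trans card_le_three
  omega

theorem G3.back {a' b' : E → W} {J : Finset E} (hJ : G3 a' b' J) (h : Br a b) {ρ e : E}
    {ψ : W → ZMod 2} (h1 : cut a b ψ = {ρ, e}) (n : e ≠ ρ)
    (c : ∀ φ : W → ZMod 2, φ (a ρ) = φ (b ρ) → cut a' b' φ = cut a b φ) :
    G3 a b (if e ∈ J then insert ρ J else J.erase ρ) := fun φ => by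
  set K := if e ∈ J then insert ρ J else J.erase ρ with hK
  have m : ∀ f, f ∈ K ↔ if f = ρ then e ∈ J else f ∈ J := fun f => by
    simp only [hK]; split_ifs <;> simp_all
  by_cases u : ρ ∈ cut a b φ
  swap
  · have := hJ φ
    rw [c φ (not_not.1 (mem_cut.not.1 u))] at this
    rwa [show K ∩ cut a b φ = J ∩ cut a b φ from ext fun f => by
      simp only [mem_inter, m]; grind]
  have v : ρ ∉ cut a b (φ + ψ) := by simp [mem_cut_add, u, h1]
  have w := hJ (φ + ψ)
  have w' := h (φ + ψ)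
  rw [c _ (not_not.1 (mem_cut.not.1 v))] at w
  by_cases x : e ∈ cut a b φ
  · have s : cut a b φ = insert ρ (insert e (cut a b (φ + ψ))) := ext fun f => by
      simp only [mem_insert, mem_cut_add, h1, mem_singleton]; grind
    have y : e ∉ cut a b (φ + ψ) := by simp [mem_cut_add, x, h1]
    have c1 : (cut a b φ).card = (cut a b (φ + ψ)).card + 2 := by
      rw [s, card_insert_of_notMem (by simp [v, n.symm]), card_insert_of_notMem y]
    by_cases z : e ∈ J
    · rw [show K ∩ cut a b φ = insert ρ (insert e (J ∩ cut a b (φ + ψ))) from ext fun f => by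
        simp only [mem_insert, mem_cut_add, h1, mem_singleton, mem_inter, m]; grind,
        card_insert_of_notMem (by simp [v, n.symm]), card_insert_of_notMem (by simp [y])]
      omega
    · rw [show K ∩ cut a b φ = J ∩ cut a b (φ + ψ) from ext fun f => by
        simp only [mem_insert, mem_cut_add, h1, mem_singleton, mem_inter, m]; grind]
      omega
  · have y : e ∈ cut a b (φ + ψ) := by simp [mem_cut_add, x, h1]
    have s : cut a b φ = insert ρ ((cut a b (φ + ψ)).erase e) := ext fun f => by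
      simp only [mem_insert, mem_erase, mem_cut_add, h1, mem_singleton]; grind
    have c1 : (cut a b φ).card = (cut a b (φ + ψ)).card := by
      rw [s, card_insert_of_notMem (by simp [v]), card_erase_add_one y]
    rw [c1]
    by_cases z : e ∈ J
    · rwa [show K ∩ cut a b φ = insert ρ ((J ∩ cut a b (φ + ψ)).erase e) from ext fun f => by
        simp only [mem_insert, mem_erase, mem_cut_add, h1, mem_singleton, mem_inter, m]; grind,
        card_insert_of_notMem (by simp [v]), card_erase_add_one (mem_inter.2 ⟨z, y⟩)]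
    · rwa [show K ∩ cut a b φ = J ∩ cut a b (φ + ψ) from ext fun f => by
        simp only [mem_insert, mem_cut_add, h1, mem_singleton, mem_inter, m]; grind]

theorem exC {S : Type} [DecidableEq S] (ε : S → Fin 5 → E) (r : S → E) (C : Finset S) :
    ∀ (a b : E → W) (g : E → ℝ), Br a b → (∀ Q ∈ C, Loc a b (ε Q)) →
      (∀ Q ∈ C, ∀ P ∈ C, ∀ i j, ε Q i = ε P j → Q = P) →
      (∀ Q ∈ C, ∃ ψ, cut a b ψ = {ε Q 4, r Q}) → (∀ Q ∈ C, ∀ P ∈ C, r Q ≠ ε P 4) →
      (∀ e, 0 ≤ g e) → ∃ J, G3 a b J ∧ (∀ Q ∈ C, (ε Q 0 ∈ J ↔ ε Q 1 ∈ J)) ∧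
        3 * ∑ e ∈ J, g e ≤ ∑ e, g e := by
  induction C using Finset.induction_on with
  | empty =>
    intro a b g h _ _ _ _ hg
    obtain ⟨J, j1, j2⟩ := exJ h g hg
    exact ⟨J, j1, by simp, j2⟩
  | insert Q C nQ ih =>
    intro a b g h h1 h2 h3 h4 hg
    have mQ := mem_insert_self Q C
    have sC : ∀ P ∈ C, P ∈ insert Q C := fun P u => mem_insert_of_mem u
    have k := h1 Q mQ
    obtain ⟨ψ, hψ⟩ := h3 Q mQ
    obtain ⟨a', b', s1, s2, s3, s4⟩ := k.step h hψ
    have ne : ∀ P ∈ C, ∀ j i, ε P j ≠ ε Q i := fun P u j i z => nQ (h2 P (sC P u) Q mQ j i z ▸ u)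
    have n := h4 Q mQ Q mQ
    have nn : ∀ φ : W → ZMod 2, ε Q 4 ∉ cut a b φ → cut a' b' φ = cut a b φ := fun φ u =>
      s2 φ (not_not.1 (mem_cut.not.1 u))
    obtain ⟨J, j1, j2, j3⟩ := ih a' b'
      (fun f => if f = ε Q 4 then 0 else g f + if f = r Q then g (ε Q 4) else 0) s1
      (fun P u => by
        have l := h1 P (sC P u)
        have e1 := fun j => (s4 _ (ne P u j)).1
        have e2 := fun j => (s4 _ (ne P u j)).2
        refine ⟨l.inj, ?_, ?_, ?_, ?_, ?_, ?_⟩ <;> simp only [e1, e2]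
        exacts [l.a0, l.a3, l.a1, l.a2,
          (nn _ (by simp [l.cl, (ne P u _ 4).symm])).trans l.cl,
          (nn _ (by simp [l.cr, (ne P u _ 4).symm])).trans l.cr])
      (fun P u P' v => h2 P (sC P u) P' (sC P' v))
      (fun P u => by
        obtain ⟨χ, v⟩ := h3 P (sC P u)
        exact ⟨χ, (nn _ (by
          simp [v, (ne P u _ 4).symm, (h4 P (sC P u) Q mQ).symm])).trans v⟩)
      (fun P u P' v => h4 P (sC P u) P' (sC P' v))
      (fun f => by have := hg f; have := hg (ε Q 4); split_ifs <;> linarith)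
    have m : ∀ f, f ≠ ε Q 4 →
        (f ∈ (if r Q ∈ J then insert (ε Q 4) J else J.erase (ε Q 4)) ↔ f ∈ J) := fun f u => by
      split_ifs <;> simp [u]
    refine ⟨_, j1.back h hψ n s2, fun P u => ?_, ?_⟩
    · rcases mem_insert.1 u with rfl | u
      · rw [m _ (by simp [k.inj.eq_iff]), m _ (by simp [k.inj.eq_iff])]
        have q : eqv a' b' (ε P 0) (ε P 1) := Or.inr ⟨_, s3⟩
        exact ⟨fun z => j1.cld _ z _ q, fun z => j1.cld _ z _ q.symm⟩
      · rw [m _ (ne P u _ _), m _ (ne P u _ _)]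
        exact j2 P u
    · have t : ∀ X : Finset E, ∑ f ∈ X, (if f = ε Q 4 then 0 else g f +
          if f = r Q then g (ε Q 4) else 0) =
          ∑ f ∈ X.erase (ε Q 4), g f + if r Q ∈ X then g (ε Q 4) else 0 := fun X => by
        rw [← sum_erase (a := ε Q 4) X (by simp), sum_congr rfl fun f u =>
          if_neg (mem_erase.1 u).1, sum_add_distrib, sum_ite_eq']
        simp [n]
      rw [t, t, if_pos (mem_univ _), sum_erase_add _ _ (mem_univ _)] at j3
      refine le_trans (le_of_eq ?_) j3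
      split_ifs
      · rw [← sum_erase_add _ _ (mem_insert_self _ _), erase_insert_eq_erase]
      · simp

end Pool.Agent.P.MP_92d394_lc
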