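import Pool.Agent.P.MP_92d394_lc.Q2

/-! Counting in networks with squares. -/

set_option linter.unusedSectionVars false

namespace Pool.Agent.P.MP_92d394_lc

open Finset

variable {W E S : Type} [Fintype W] [DecidableEq W] [Fintype E] [DecidableEq E] [DecidableEq S]

/-- A bridgeless network with split squares. -/
structure SN (a b : E → W) (T R : Finset W) (C : Finset S) (ε : S → Fin 5 → E) : Prop where
  br : Br a b
  cn : ∀ φ, cut a b φ = ∅ → ∀ u ∈ T ∪ R, ∀ v ∈ T ∪ R, φ u = φ v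
  mem : ∀ e, a e ≠ b e → (a e ∈ T ∨ a e ∈ R) ∧ (b e ∈ R ∨ a e ∈ T ∧ b e ∈ T)
  dj : Disjoint T R
  dT : ∀ t ∈ T, (cut a b (sg t)).card = 3
  dR : ∀ v ∈ R, (cut a b (sg v)).card = 2
  inj : ∀ e f, a e ∈ T → a f ∈ T → b e ∈ R → b e = b f → e = f
  loc : ∀ Q ∈ C, Loc a b (ε Q)
  einj : ∀ Q ∈ C, ∀ P ∈ C, ∀ i j, ε Q i = ε P j → Q = P
  sT : ∀ Q ∈ C, a (ε Q 4) ∈ T ∧ b (ε Q 4) ∈ T
  sR : ∀ Q ∈ C, ∀ i, i ≠ 4 → b (ε Q i) ∈ R

/-- The edges that are not loops. -/
def nlp (a b : E → W) : Finset E := univ.filter fun e => a e ≠ b e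

variable {a b : E → W} {T R : Finset W} {C : Finset S} {ε : S → Fin 5 → E}

theorem mem_nlp {e : E} : e ∈ nlp a b ↔ a e ≠ b e := by simp [nlp]

theorem cut_nl {φ : W → ZMod 2} {e : E} (h : e ∈ cut a b φ) : a e ≠ b e := fun z =>
  mem_cut.1 h (by rw [z])

theorem nlp_cld : Cld a b (nlp a b) := fun e he f q => by
  rcases q with rfl | ⟨φ, q⟩
  · exact he
  · exact mem_nlp.2 (cut_nl (φ := φ) (by simp [q]))

theorem eqv_cut {e f : E} (h : eqv a b e f) (n : e ≠ f) (r : W) :
    ∃ φ, cut a b φ = {e, f} ∧ φ r = 0 := by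
  obtain ⟨φ, q⟩ := h.resolve_left n
  exact ⟨fun w => φ w + φ r, (cut_add_const φ _).trans q, (by decide : ∀ s : ZMod 2, s + s = 0) _⟩

theorem eqv_two {v : W} {e f : E} (h : (cut a b (sg v)).card = 2) (he : e ∈ cut a b (sg v))
    (hf : f ∈ cut a b (sg v)) : eqv a b e f := by
  by_cases k : e = f
  · exact Or.inl k
  · exact Or.inr ⟨sg v, (eq_of_subset_of_card_le
      (insert_subset he (singleton_subset_iff.2 hf)) (by rw [h, card_pair k])).symm⟩

theorem sum_inv {X : Finset E} (h : Cld a b X) :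
    ∑ e ∈ X, (1 : ℝ) / (cls a b e).card = (X.image (cls a b)).card := by
  rw [← sum_fiberwise_of_maps_to (g := cls a b) fun e he => mem_image_of_mem _ he,
    card_eq_sum_ones, Nat.cast_sum]
  refine sum_congr rfl fun Y hY => ?_
  obtain ⟨e, he, rfl⟩ := mem_image.1 hY
  rw [sum_congr rfl fun f hf => by rw [(mem_filter.1 hf).2],
    show X.filter (fun f => cls a b f = cls a b e) = cls a b e from ext fun f => by
      rw [mem_filter]
      exact ⟨fun u => u.2 ▸ self_cls f, fun u =>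
        ⟨h e he f (mem_cls.1 u), (cls_eq (mem_cls.1 u)).symm⟩⟩, sum_const, nsmul_eq_mul]
  have : (0 : ℝ) < (cls a b e).card := by exact_mod_cast card_pos.2 ⟨e, self_cls e⟩
  push_cast
  field_simp

theorem three_ncl {X : Finset E} (h : Cld a b X) (h3 : ∀ e ∈ X, 3 ≤ (cls a b e).card) :
    3 * (X.image (cls a b)).card ≤ X.card := by
  have t : ∑ e ∈ X, (1 : ℝ) / (cls a b e).card ≤ ∑ e ∈ X, 1 / 3 := sum_le_sum fun e he =>
    one_div_le_one_div_of_le (by norm_num) (by exact_mod_cast h3 e he)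
  rw [sum_inv h, sum_const, nsmul_eq_mul] at t
  exact_mod_cast (by linarith : (3 : ℝ) * (X.image (cls a b)).card ≤ X.card)

theorem ncl_le (X : Finset E) (e : E) :
    (X.image (cls a b)).card ≤ ((X \ cls a b e).image (cls a b)).card + 1 := by
  refine le_trans (card_le_card fun Y hY => ?_) (card_insert_le (cls a b e) _)
  obtain ⟨f, hf, rfl⟩ := mem_image.1 hY
  by_cases k : f ∈ cls a b e
  · exact mem_insert.2 (Or.inl (cls_eq (mem_cls.1 k)).symm)
  · exact mem_insert_of_mem (mem_image_of_mem _ (mem_sdiff.2 ⟨hf, k⟩))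

theorem SN.ma (h : SN a b T R C ε) {e : E} (n : a e ≠ b e) : a e ∈ T ∪ R :=
  mem_union.2 (h.mem e n).1

theorem SN.mb (h : SN a b T R C ε) {e : E} (n : a e ≠ b e) : b e ∈ T ∪ R :=
  mem_union.2 ((h.mem e n).2.symm.imp_left And.right)

theorem SN.card (h : SN a b T R C ε) : 2 * (nlp a b).card = 2 * R.card + 3 * T.card := by
  have := deg_sum a b (nlp a b) (T ∪ R)
  have s : ∀ v, nlp a b ∩ cut a b (sg v) = cut a b (sg v) := fun v =>
    inter_eq_right.2 fun e he => mem_nlp.2 (cut_nl he)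
  rw [sum_union h.dj, sum_congr rfl fun t ht => by rw [s, h.dT t ht],
    sum_congr (s₁ := R) rfl fun t ht => by rw [s, h.dR t ht],
    sum_congr (s₁ := nlp a b) (g := fun _ => 2) rfl fun e he => ?_] at this
  · simp only [sum_const, smul_eq_mul] at this
    omega
  · have h1 := mem_nlp.1 he
    rw [← card_pair h1]
    congr 1
    ext v
    have h2 := h.ma h1
    have h3 := h.mb h1
    simp only [mem_filter, mem_sg, mem_insert, mem_singleton]
    grind

theorem SN.low (h : SN a b T R C ε) {X : Finset E} (hX : Cld a b X) :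
    3 * (X.filter fun e => a e ∈ T ∧ b e ∈ R).card ≤ 2 * X.card := by
  set P := X.filter fun e => a e ∈ T ∧ b e ∈ R with hP
  have nl : ∀ e ∈ P, a e ≠ b e := fun e he z =>
    disjoint_left.1 h.dj (mem_filter.1 he).2.1 (z ▸ (mem_filter.1 he).2.2)
  have sO : P.image b ⊆ R := fun v hv => by
    obtain ⟨e, he, rfl⟩ := mem_image.1 hv
    exact (mem_filter.1 he).2.2
  have cO : (P.image b).card = P.card := card_image_of_injOn fun e he f hf q =>
    h.inj e f (mem_filter.1 he).2.1 (mem_filter.1 hf).2.1 (mem_filter.1 he).2.2 q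
  have := deg_sum a b X (T ∪ P.image b)
  rw [sum_union (h.dj.mono_right sO),
    sum_congr (s₁ := P.image b) (g := fun _ => 2) rfl fun v hv => ?_] at this
  · have k : ∑ e ∈ X, ((T ∪ P.image b).filter fun v => e ∈ cut a b (sg v)).card ≤ ∑ e ∈ X, 2 :=
      sum_le_sum fun e _ =>
        (card_le_card ((ends_sub a b _ e).trans inter_subset_right)).trans card_le_two
    have k' : P.card ≤ ∑ v ∈ T, (X ∩ cut a b (sg v)).card := by
      rw [deg_sum, card_eq_sum_ones]
      refine (sum_le_sum fun e he => ?_).trans (sum_le_sum_of_subset (filter_subset _ _))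
      refine card_pos.2 ⟨a e, ?_⟩
      rw [mem_filter, mem_sg]
      exact ⟨(mem_filter.1 he).2.1, Or.inl ⟨rfl, (nl e he).symm⟩⟩
    simp only [sum_const, smul_eq_mul] at this k
    omega
  · obtain ⟨e, he, rfl⟩ := mem_image.1 hv
    have d := h.dR _ (mem_filter.1 he).2.2
    rw [inter_eq_right.2 fun f hf => hX e (mem_filter.1 he).1 f
      (eqv_two d (mem_sg.2 (Or.inr ⟨rfl, nl e he⟩)) hf), d]

theorem SN.three (h : SN a b T R C ε) (h3 : 3 ≤ R.card) {e : E} (n : a e ≠ b e) (he : b e ∈ R) :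
    3 ≤ (cls a b e).card := by
  have ot : ∀ v ∈ R, ∀ e ∈ cut a b (sg v), ∃ f, f ≠ e ∧ cut a b (sg v) = {e, f} :=
    fun v hv e he => by
      obtain ⟨f, f1, f2⟩ := h.br.two he
      exact ⟨f, f2, (eq_of_subset_of_card_le (insert_subset he (singleton_subset_iff.2 f1))
        (by rw [h.dR v hv, card_pair f2.symm])).symm⟩
  have rr : ∀ e, a e ≠ b e → a e ∈ R → b e ∈ R → 3 ≤ (cls a b e).card := fun e n u v => by
    obtain ⟨f, f1, f2⟩ := ot _ u e (mem_sg.2 (Or.inl ⟨rfl, n.symm⟩))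
    obtain ⟨g, g1, g2⟩ := ot _ v e (mem_sg.2 (Or.inr ⟨rfl, n⟩))
    refine two_lt_card.2 ⟨e, self_cls e, f, mem_cls.2 (Or.inr ⟨_, f2⟩), g,
      mem_cls.2 (Or.inr ⟨_, g2⟩), f1.symm, g1.symm, fun z => ?_⟩
    obtain ⟨w, w1, w2⟩ := exists_mem_notMem_of_card_lt_card
      (card_le_two.trans_lt h3 : ({a e, b e} : Finset W).card < R.card)
    have := h.cn (sg (a e) + sg (b e)) (eq_empty_of_forall_notMem fun x => by
      rw [mem_cut_add, f2, g2, z]; simp) _ (mem_union_right _ u) _ (mem_union_right _ w1)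
    simp only [mem_insert, mem_singleton, not_or] at w2
    simp [sg, n, w2] at this
  rcases (h.mem e n).1 with u | u
  swap
  · exact rr e n u he
  obtain ⟨f, f1, f2⟩ := ot _ he e (mem_sg.2 (Or.inr ⟨rfl, n⟩))
  have m : f ∈ cut a b (sg (b e)) := by simp [f2]
  have := h.mem f (cut_nl m)
  have d := disjoint_left.1 h.dj
  have i := h.inj e f u
  rw [cls_eq (Or.inr ⟨_, f2⟩)]
  rcases mem_sg.1 m with k | k
  · exact rr f (cut_nl m) (k.1 ▸ he) (by grind)
  · exact rr f (cut_nl m) (by grind) (k.1 ▸ he)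

theorem SN.inter (h : SN a b T R C ε) {φ ψ : W → ZMod 2} (h1 : (cut a b φ).card ≤ 2)
    (h2 : (cut a b ψ).card ≤ 2) {r v : W} (hr : r ∈ T ∪ R) (hv : v ∈ T ∪ R) (r1 : φ r = 0)
    (r2 : ψ r = 0) (v1 : φ v = 1) (v2 : ψ v = 1) {e f : E} (he : e ∈ cut a b (φ * ψ))
    (hf : f ∈ cut a b (φ * ψ)) : eqv a b e f := by
  have s := submod (a := a) (b := b) φ ψ
  have t := h.br (φ + ψ + φ * ψ)
  have u : (cut a b (φ + ψ + φ * ψ)).card ≠ 0 := fun z => by
    have := h.cn _ (card_eq_zero.1 z) r hr v hv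
    simp only [Pi.add_apply, Pi.mul_apply, r1, r2, v1, v2] at this
    exact absurd this (by decide)
  by_cases k : e = f
  · exact Or.inl k
  · exact Or.inr ⟨_, (eq_of_subset_of_card_le
      (insert_subset he (singleton_subset_iff.2 hf)) (by rw [card_pair k]; omega)).symm⟩

theorem mem_mul {φ ψ : W → ZMod 2} {e : E} {v : W} (h : a e = v ∨ b e = v) (v1 : φ v = 1)
    (v2 : ψ v = 1) (k : e ∈ cut a b φ ∨ e ∈ cut a b ψ) : e ∈ cut a b (φ * ψ) := by
  simp only [mem_cut, Pi.mul_apply] at k ⊢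
  rcases h with rfl | rfl <;> rw [v1, v2] at k ⊢ <;> revert k
  · generalize φ (b e) = p, ψ (b e) = q
    revert p q
    decide
  · generalize φ (a e) = p, ψ (a e) = q
    revert p q
    decide

theorem sg_end {v : W} {e : E} (h : e ∈ cut a b (sg v)) : a e = v ∨ b e = v :=
  (mem_sg.1 h).imp And.left And.left

theorem SN.ncl (h : SN a b T R C ε) (hT : T.Nonempty) :
    T.card + 1 ≤ ((nlp a b).image (cls a b)).card := by
  classical
  obtain ⟨r, hr⟩ := hT
  set N : W → Finset E := fun v => (cut a b (sg v)).filter fun e =>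
    ∀ φ, (cut a b φ).card = 2 → e ∈ cut a b φ → φ r = 0 → φ v = 0 with hN
  have c1 : ∀ v ∈ T, 2 + (if v = r then 1 else 0) ≤ (N v).card := fun v hv => by
    have t := card_filter_add_card_filter_not (s := cut a b (sg v)) fun e =>
      ∀ φ, (cut a b φ).card = 2 → e ∈ cut a b φ → φ r = 0 → φ v = 0
    rw [h.dT v hv] at t
    split_ifs with k
    · rw [hN]
      simp only []
      rw [filter_true_of_mem fun e _ φ _ _ z => k ▸ z, h.dT v hv]
    · have : ((cut a b (sg v)).filter fun e => ¬ ∀ φ, (cut a b φ).card = 2 → e ∈ cut a b φ →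
          φ r = 0 → φ v = 0).card ≤ 1 := card_le_one.2 fun e he f hf => by
        simp only [mem_filter, not_forall] at he hf
        obtain ⟨e1, φ, e2, e3, e4, e5⟩ := he
        obtain ⟨f1, ψ, f2, f3, f4, f5⟩ := hf
        have e6 := (z2 _).resolve_left e5
        have f6 := (z2 _).resolve_left f5
        exact h.br.node (h.dT v hv) e1 f1 (h.inter e2.le f2.le (mem_union_left _ hr)
          (mem_union_left _ hv) e4 f4 e6 f6 (mem_mul (sg_end e1) e6 f6 (Or.inl e3))
          (mem_mul (sg_end f1) e6 f6 (Or.inr f3)))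
      simp only [hN]
      omega
  have c2 := sum_le_sum c1
  rw [sum_add_distrib, sum_const, sum_ite_eq', if_pos hr, ← card_sigma] at c2
  have c3 : (T.sigma N).card ≤ 2 * ((nlp a b).image (cls a b)).card := by
    have mN : ∀ p ∈ T.sigma N, p.2 ∈ cut a b (sg p.1) ∧
        ∀ φ, (cut a b φ).card = 2 → p.2 ∈ cut a b φ → φ r = 0 → φ p.1 = 0 := fun p u => by
      have := (mem_sigma.1 u).2
      simp only [hN, mem_filter] at this
      exact this
    refine card_le_mul_card_image_of_maps_to (f := fun p => cls a b p.2) (fun p u =>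
      mem_image_of_mem _ (mem_nlp.2 (cut_nl (mN p u).1))) 2 fun Y _ => ?_
    have nz : ∀ p ∈ T.sigma N, ∀ f φ, p.2 ≠ f → cut a b φ = {p.2, f} → φ r = 0 → φ p.1 = 0 :=
      fun p u f φ n q => (mN p u).2 φ (by rw [q, card_pair n]) (by simp [q])
    have en : ∀ p ∈ T.sigma N, a p.2 = p.1 ∨ b p.2 = p.1 := fun p u => sg_end (mN p u).1
    have same : ∀ p ∈ T.sigma N, ∀ q ∈ T.sigma N, ∀ f, p.2 = q.2 → p.2 ≠ f → eqv a b p.2 f →
        p = q := fun p u q v f z n w => by
      obtain ⟨φ, w1, w2⟩ := eqv_cut w n r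
      have p1 := nz p u f φ n w1 w2
      have q1 := nz q v f φ (z ▸ n) (z ▸ w1) w2
      have m := mem_cut.1 (show p.2 ∈ cut a b φ by simp [w1])
      have p2 := en p u
      have q2 := en q v
      exact Sigma.ext (by grind) (heq_of_eq z)
    by_contra k
    obtain ⟨p, p0, q, q0, s, s0, n1, n2, n3⟩ := two_lt_card.1 (not_le.1 k)
    rw [mem_filter] at p0 q0 s0
    have e1 : eqv a b p.2 q.2 := mem_cls.1 ((p0.2.trans q0.2.symm) ▸ self_cls _)
    have e2 : eqv a b p.2 s.2 := mem_cls.1 ((p0.2.trans s0.2.symm) ▸ self_cls _)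
    have e3 := e1.symm.trans e2
    by_cases z1 : p.2 = q.2
    · by_cases z4 : p.2 = s.2
      · have := en p p0.1
        have := en q q0.1
        have := en s s0.1
        have : p.1 ≠ q.1 := fun z => n1 (Sigma.ext z (heq_of_eq z1))
        have : p.1 ≠ s.1 := fun z => n2 (Sigma.ext z (heq_of_eq z4))
        have : q.1 ≠ s.1 := fun z => n3 (Sigma.ext z (heq_of_eq (z1 ▸ z4)))
        grind
      · exact n1 (same p p0.1 q q0.1 _ z1 z4 e2)
    by_cases z4 : p.2 = s.2
    · exact n2 (same p p0.1 s s0.1 _ z4 z1 e1)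
    by_cases z3 : q.2 = s.2
    · exact n3 (same q q0.1 s s0.1 _ z3 (Ne.symm z1) e1.symm)
    obtain ⟨φ, u1, u2⟩ := eqv_cut e1 z1 r
    obtain ⟨ψ, v1, v2⟩ := eqv_cut e2 z4 r
    have w1 : cut a b (φ + ψ) = {q.2, s.2} := ext fun x => by
      rw [mem_cut_add, u1, v1]
      simp only [mem_insert, mem_singleton]
      grind
    have w2 : (φ + ψ) r = 0 := by simp [u2, v2]
    have t1 := nz p p0.1 _ φ z1 u1 u2
    have t2 := nz p p0.1 _ ψ z4 v1 v2
    have t3 := nz q q0.1 _ φ (Ne.symm z1) (u1.trans (pair_comm _ _)) u2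
    have t4 := nz q q0.1 _ _ z3 w1 w2
    have t5 := nz s s0.1 _ ψ (Ne.symm z4) (v1.trans (pair_comm _ _)) v2
    have t6 := nz s s0.1 _ _ (Ne.symm z3) (w1.trans (pair_comm _ _)) w2
    simp only [Pi.add_apply, t3, t5, zero_add, add_zero] at t4 t6
    refine h.br (φ * ψ) (card_eq_one.2 ⟨p.2, ext fun x => ?_⟩)
    have m1 : x ∈ cut a b φ ↔ x = p.2 ∨ x = q.2 := by simp [u1]
    have m2 : x ∈ cut a b ψ ↔ x = p.2 ∨ x = s.2 := by simp [v1]
    have := en p p0.1
    have := en q q0.1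
    have := en s s0.1
    simp only [mem_cut, Pi.mul_apply, mem_singleton] at m1 m2 ⊢
    rcases z2 (φ (a x)) with k1 | k1 <;> rcases z2 (φ (b x)) with k2 | k2 <;>
      rcases z2 (ψ (a x)) with k3 | k3 <;> rcases z2 (ψ (b x)) with k4 | k4 <;>
      simp only [k1, k2, k3, k4] at m1 m2 ⊢ <;> grind
  simp only [smul_eq_mul] at c2
  omega

end Pool.Agent.P.MP_92d394_lc
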