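import Pool.Agent.P.MP_92d394_lc.Q3

/-! Dropping one spoke at each diagonal square. -/

set_option linter.unusedSectionVars false

namespace Pool.Agent.P.MP_92d394_lc

open Finset

variable {W E S : Type} [Fintype W] [DecidableEq W] [Fintype E] [DecidableEq E] [DecidableEq S]

/-- The left spoke in the join. -/
def lft (ε : S → Fin 5 → E) (J : Finset E) (Q : S) : E := if ε Q 0 ∈ J then ε Q 0 else ε Q 3

/-- The right spoke in the join. -/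
def rgt (ε : S → Fin 5 → E) (J : Finset E) (Q : S) : E := if ε Q 1 ∈ J then ε Q 1 else ε Q 2

/-- Diagonal squares. -/
def Dg (C : Finset S) (ε : S → Fin 5 → E) (J : Finset E) : Finset S :=
  C.filter fun Q => ε Q 4 ∉ J ∧ (ε Q 0 ∈ J ↔ ε Q 2 ∈ J)

/-- Adjacent squares. -/
def Ag (C : Finset S) (ε : S → Fin 5 → E) (J : Finset E) : Finset S :=
  C.filter fun Q => ε Q 4 ∉ J ∧ ¬ (ε Q 0 ∈ J ↔ ε Q 2 ∈ J)

/-- The penalty at a square. -/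
def pen (ε : S → Fin 5 → E) (δ : S → ℝ) (J F : Finset E) (Q : S) : ℝ :=
  if ε Q 4 ∉ J ∧ ((ε Q 0 ∈ J ↔ ε Q 2 ∈ J) ↔ (lft ε J Q ∈ F ↔ rgt ε J Q ∈ F)) then 2 * δ Q else 0

/-- Sets containing no nonempty cut. -/
def CF (a b : E → W) (F : Finset E) : Prop := ∀ φ, cut a b φ ⊆ F → cut a b φ = ∅

variable {a b : E → W} {T R : Finset W} {C : Finset S} {ε : S → Fin 5 → E} {J : Finset E}

theorem Loc.one {ε : Fin 5 → E} (k : Loc a b ε) (hJ : G3 a b J) :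
    (ε 4 ∈ J ∧ ε 0 ∉ J ∧ ε 1 ∉ J ∧ ε 2 ∉ J ∧ ε 3 ∉ J) ∨
      (ε 4 ∉ J ∧ ¬ (ε 0 ∈ J ↔ ε 3 ∈ J) ∧ ¬ (ε 1 ∈ J ↔ ε 2 ∈ J)) := by
  have c1 := (hJ _).2 k.l3
  have c2 := (hJ _).2 k.r3
  rw [k.cl, inter_comm, ← filter_mem_eq_inter, card_filter,
    sum_insert (by simp [k.inj.eq_iff]), sum_pair (by simp [k.inj.eq_iff])] at c1
  rw [k.cr, inter_comm, ← filter_mem_eq_inter, card_filter,
    sum_insert (by simp [k.inj.eq_iff]), sum_pair (by simp [k.inj.eq_iff])] at c2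
  grind

theorem lft_eq (Q : S) : ∃ i, i ≠ 4 ∧ lft ε J Q = ε Q i := by
  unfold lft; split_ifs
  exacts [⟨0, by decide, rfl⟩, ⟨3, by decide, rfl⟩]

theorem rgt_eq (Q : S) : ∃ i, i ≠ 4 ∧ rgt ε J Q = ε Q i := by
  unfold rgt; split_ifs
  exacts [⟨1, by decide, rfl⟩, ⟨2, by decide, rfl⟩]

theorem SN.odd (h : SN a b T R C ε) (hJ : G3 a b J) {Q : S} (hQ : Q ∈ C) (o : ε Q 4 ∉ J) :
    lft ε J Q ∈ J ∧ rgt ε J Q ∈ J ∧ a (lft ε J Q) = a (ε Q 4) ∧ a (rgt ε J Q) = b (ε Q 4) ∧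
      lft ε J Q ≠ rgt ε J Q := by
  have k := h.loc Q hQ
  have := k.one hJ
  have := k.a0
  have := k.a1
  have := k.a2
  have := k.a3
  have := k.nl
  unfold lft rgt
  grind

theorem SN.own (h : SN a b T R C ε) {Q P : S} (hQ : Q ∈ C) (hP : P ∈ C) {e : E}
    (h1 : e = lft ε J Q ∨ e = rgt ε J Q) (h2 : e = lft ε J P ∨ e = rgt ε J P) : Q = P := by
  obtain ⟨i, -, p⟩ := lft_eq (ε := ε) (J := J) Q
  obtain ⟨j, -, q⟩ := rgt_eq (ε := ε) (J := J) Q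
  obtain ⟨k, -, r⟩ := lft_eq (ε := ε) (J := J) P
  obtain ⟨l, -, s⟩ := rgt_eq (ε := ε) (J := J) P
  have := h.einj Q hQ P hP
  grind

theorem SN.sp (h : SN a b T R C ε) (hJ : G3 a b J) {Q : S} (hQ : Q ∈ C) (o : ε Q 4 ∉ J) {e : E}
    (h1 : e = lft ε J Q ∨ e = rgt ε J Q) : e ∈ J ∧ a e ∈ T ∧ b e ∈ R := by
  obtain ⟨i, n, p⟩ := lft_eq (ε := ε) (J := J) Q
  obtain ⟨j, m, q⟩ := rgt_eq (ε := ε) (J := J) Q
  have := h.odd hJ hQ o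
  have := h.sT Q hQ
  have := h.sR Q hQ i n
  have := h.sR Q hQ j m
  grind

theorem G3.side (hJ : G3 a b J) (h : Br a b) {ψ : W → ZMod 2} {l l' e f : E}
    (h1 : cut a b ψ = {l, l'}) (h2 : l ∉ J) (he : e ∈ J) (q : eqv a b e f) :
    ψ (a e) = ψ (a f) := by
  by_cases k : e = f
  · rw [k]
  obtain ⟨φ, u⟩ := q.resolve_left k
  obtain ⟨χ, v⟩ := hJ.loc (φ := φ) h1 h2
    (fun z => h2 (hJ.cld _ z _ (eqv.symm (Or.inr ⟨ψ, h1⟩))))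
    (u ▸ insert_subset he (singleton_subset_iff.2 (hJ.cld _ he _ q))) (ψ (a e))
  by_contra r
  refine h χ (card_eq_one.2 ⟨e, ext fun x => ?_⟩)
  simp only [v, u, mem_filter, mem_insert, mem_singleton]
  grind

theorem ex_other {ρ r : E} (h : 3 ≤ (cls a b ρ).card) (w : W) :
    ∃ l ψ, l ≠ ρ ∧ l ≠ r ∧ cut a b ψ = {ρ, l} ∧ ψ w = 0 := by
  obtain ⟨l, l1, l2⟩ := exists_mem_notMem_of_card_lt_card
    (card_le_two.trans_lt h : ({ρ, r} : Finset E).card < (cls a b ρ).card)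
  simp only [mem_insert, mem_singleton, not_or] at l2
  obtain ⟨ψ, u⟩ := eqv_cut (mem_cls.1 l1) (Ne.symm l2.1) w
  exact ⟨l, ψ, l2.1, l2.2, u⟩

theorem SN.exY (h : SN a b T R C ε) (h3 : ∀ e, a e ≠ b e → 3 ≤ (cls a b e).card)
    (hJ : G3 a b J) (hD : ∀ Q ∈ Dg C ε J, ∀ P ∈ Dg C ε J, eqv a b (ε Q 4) (ε P 4) → Q = P)
    {r : E} (hr : a r ≠ b r) (hr' : ∀ Q ∈ Dg C ε J, r ≠ ε Q 4) : ∃ x : S → E,
      (∀ Q ∈ Dg C ε J, x Q = lft ε J Q ∨ x Q = rgt ε J Q) ∧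
      (∀ Q ∈ Dg C ε J, ∀ g ∈ J, a g = a r ∨ a g = b r → ¬ eqv a b g (x Q)) ∧
      ∀ G ⊆ J, G.card ≤ 2 → (∀ g ∈ G, ∀ g' ∈ G, eqv a b g g' → g = g') → ∀ Y ⊆ Dg C ε J,
        (∀ Q ∈ Y, ∀ g ∈ G, eqv a b g (x Q) → g = x Q) → CF a b (G ∪ Y.image x) := by
  have ex : ∀ Q, ∃ (x l : E) (ψ : W → ZMod 2), Q ∈ Dg C ε J →
      (x = lft ε J Q ∨ x = rgt ε J Q) ∧ cut a b ψ = {ε Q 4, l} ∧ ψ (a r) = 0 ∧ ψ (b r) = 0 ∧
      ψ (a x) = 1 ∧ (a (ε Q 4) = a x ∨ b (ε Q 4) = a x) := fun Q => by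
    by_cases hQ : Q ∈ Dg C ε J
    swap
    · exact ⟨r, r, 0, fun z => absurd z hQ⟩
    have u := mem_filter.1 hQ
    obtain ⟨l, ψ, l1, l2, l3, l4⟩ := ex_other (r := r) (h3 _ (h.loc Q u.1).nl) (a r)
    obtain ⟨-, -, o1, o2, -⟩ := h.odd hJ u.1 u.2.1
    have m := mem_cut.1 (show ε Q 4 ∈ cut a b ψ by simp [l3])
    have m' := mem_cut.not.1 (show r ∉ cut a b ψ by simp [l3, l2.symm, hr' Q hQ])
    rw [not_not, l4] at m'
    rcases z2 (ψ (a (ε Q 4))) with k | k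
    · exact ⟨rgt ε J Q, l, ψ, fun _ => ⟨Or.inr rfl, l3, l4, m'.symm,
        o2 ▸ (z2 _).resolve_left fun z => m (k.trans z.symm), Or.inr o2.symm⟩⟩
    · exact ⟨lft ε J Q, l, ψ, fun _ => ⟨Or.inl rfl, l3, l4, m'.symm, o1 ▸ k, Or.inl o1.symm⟩⟩
  choose x l ψ hx using ex
  have xJ : ∀ Q ∈ Dg C ε J, x Q ∈ J ∧ a (x Q) ∈ T := fun Q hQ =>
    (h.sp hJ (mem_filter.1 hQ).1 (mem_filter.1 hQ).2.1 (hx Q hQ).1).imp_right And.left
  have nJ : ∀ Q ∈ Dg C ε J, ε Q 4 ∉ J := fun Q hQ => (mem_filter.1 hQ).2.1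
  have lJ : ∀ Q ∈ Dg C ε J, l Q ∉ J := fun Q hQ z =>
    nJ Q hQ (hJ.cld _ z _ (eqv.symm (Or.inr ⟨_, (hx Q hQ).2.1⟩)))
  have two : ∀ Q ∈ Dg C ε J, ∀ P ∈ Dg C ε J, ψ Q (a (x P)) = 1 → ψ P (a (x Q)) = 1 → Q = P :=
    fun Q hQ P hP u v => by
      obtain ⟨-, q1, q2, -, q3, q4⟩ := hx Q hQ
      obtain ⟨-, p1, p2, -, p3, p4⟩ := hx P hP
      exact hD Q hQ P hP (h.inter (q1 ▸ card_le_two) (p1 ▸ card_le_two) (h.ma hr)
        (mem_union_left _ (xJ Q hQ).2) q2 p2 q3 v (mem_mul q4 q3 v (Or.inl (by simp [q1])))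
        (mem_mul p4 u p3 (Or.inr (by simp [p1]))))
  refine ⟨x, fun Q hQ => (hx Q hQ).1, fun Q hQ g hg u v => ?_, fun G g1 g2 g3 Y y1 y2 φ => ?_⟩
  · obtain ⟨-, q1, q2, q3, q4, -⟩ := hx Q hQ
    have := hJ.side h.br q1 (nJ Q hQ) hg v
    rcases u with u | u <;> rw [u, q4] at this <;> simp_all
  have FJ : G ∪ Y.image x ⊆ J := union_subset g1 fun e he => by
    obtain ⟨Q, hQ, rfl⟩ := mem_image.1 he
    exact (xJ Q (y1 hQ)).1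
  induction hn : (cut a b φ).card using Nat.strong_induction_on generalizing φ with
  | _ n ih =>
  intro s
  have sm : ∀ Q ∈ Y, ∀ P ∈ Y, x Q ∈ cut a b φ → x P ∈ cut a b φ → ψ Q (a (x P)) = 1 :=
    fun Q hQ P hP u v => by
      obtain ⟨χ, w⟩ := hJ.loc (φ := φ) (hx Q (y1 hQ)).2.1 (nJ Q (y1 hQ)) (lJ Q (y1 hQ))
        (s.trans FJ) 1
      by_contra z
      have := ih _ (hn ▸ w ▸ card_lt_card (filter_ssubset.2 ⟨_, v, z⟩)) χ rfl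
        (w ▸ (filter_subset _ _).trans s)
      exact notMem_empty (x Q) (this ▸ w ▸ mem_filter.2 ⟨u, (hx Q (y1 hQ)).2.2.2.2.1⟩)
  have un : ∀ e ∈ cut a b φ \ G, ∀ f ∈ cut a b φ \ G, e = f := fun e he f hf => by
    rw [mem_sdiff] at he hf
    obtain ⟨Q, hQ, rfl⟩ := mem_image.1 ((mem_union.1 (s he.1)).resolve_left he.2)
    obtain ⟨P, hP, rfl⟩ := mem_image.1 ((mem_union.1 (s hf.1)).resolve_left hf.2)
    rw [two Q (y1 hQ) P (y1 hP) (sm Q hQ P hP he.1 hf.1) (sm P hP Q hQ hf.1 he.1)]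
  have c1 := card_le_one.2 un
  have c2 := le_card_sdiff G (cut a b φ)
  have c3 := h.br φ
  have c4 := (hJ φ).2
  rw [inter_eq_right.2 (s.trans FJ)] at c4
  by_contra w
  have w' := card_pos.2 (nonempty_iff_ne_empty.2 w)
  obtain ⟨e, f, n, z⟩ := card_eq_two.1 (show (cut a b φ).card = 2 by omega)
  have q : eqv a b e f := Or.inr ⟨φ, z⟩
  have me : e ∈ cut a b φ := by simp [z]
  have mf : f ∈ cut a b φ := by simp [z]
  have key : ∀ e f, e ∈ G → f ∉ G → f ∈ cut a b φ → ¬ eqv a b e f := fun e f u v t q => by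
    obtain ⟨Q, hQ, rfl⟩ := mem_image.1 ((mem_union.1 (s t)).resolve_left v)
    exact v (y2 Q hQ e u q ▸ u)
  by_cases e1 : e ∈ G <;> by_cases f1 : f ∈ G
  · exact n (g3 e e1 f f1 q)
  · exact key e f e1 f1 mf q
  · exact key f e f1 e1 me q.symm
  · exact n (un e (mem_sdiff.2 ⟨me, e1⟩) f (mem_sdiff.2 ⟨mf, f1⟩))

theorem SN.exI (h : SN a b T R C ε) (hJ : G3 a b J) (L : E → ℝ) (δ : S → ℝ) (hL : ∀ e, 0 ≤ L e)
    (hp : ∀ Q ∈ C, ∀ i, i ≠ 4 → δ Q ≤ L (ε Q i))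
    (hz : ∀ Q ∈ C, (L (ε Q 0) = δ Q ∨ L (ε Q 2) = δ Q) ∧ (L (ε Q 1) = δ Q ∨ L (ε Q 3) = δ Q)) :
    ∃ I : E → ℝ, (∀ e, 0 ≤ I e) ∧ (∀ Q ∈ Dg C ε J, I (lft ε J Q) = 0 ∨ I (rgt ε J Q) = 0) ∧
      ∑ e ∈ J, L e = ∑ e ∈ J, I e + 2 * ∑ Q ∈ Dg C ε J, δ Q ∧
      ∀ F, (∀ Q ∈ Ag C ε J, (lft ε J Q ∈ F ↔ rgt ε J Q ∈ F)) →
        ∑ e ∈ J, L e - 2 * ∑ e ∈ F, L e + ∑ Q ∈ C, pen ε δ J F Q =
          ∑ e ∈ J, I e - 2 * ∑ e ∈ F, I e +
            4 * ∑ Q ∈ (Dg C ε J).filter fun Q => lft ε J Q ∉ F ∧ rgt ε J Q ∉ F, δ Q := by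
  set I : E → ℝ := fun e => L e - ∑ Q ∈ Dg C ε J,
    ((if e = lft ε J Q then δ Q else 0) + if e = rgt ε J Q then δ Q else 0) with hI
  have od := fun Q (hQ : Q ∈ Dg C ε J) => h.odd hJ (mem_filter.1 hQ).1 (mem_filter.1 hQ).2.1
  have i1 : ∀ Q ∈ Dg C ε J, ∀ e, e = lft ε J Q ∨ e = rgt ε J Q → I e = L e - δ Q :=
    fun Q hQ e u => by
      simp only [hI]
      rw [sum_eq_single_of_mem Q hQ fun P hP n => ?_]
      · have := (od Q hQ).2.2.2.2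
        rcases u with u | u <;> simp [u, this, this.symm]
      · have := fun z => n (h.own (J := J) (mem_filter.1 hP).1 (mem_filter.1 hQ).1 z u)
        rw [if_neg fun z => this (Or.inl z), if_neg fun z => this (Or.inr z), add_zero]
  have i2 : ∀ X : Finset E, ∑ e ∈ X, L e = ∑ e ∈ X, I e + ∑ Q ∈ Dg C ε J,
      ((if lft ε J Q ∈ X then δ Q else 0) + if rgt ε J Q ∈ X then δ Q else 0) := fun X => by
    simp only [hI, sum_sub_distrib]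
    rw [sum_comm]
    simp [sum_add_distrib]
  have i3 : ∑ e ∈ J, L e = ∑ e ∈ J, I e + 2 * ∑ Q ∈ Dg C ε J, δ Q := by
    rw [i2, mul_sum]
    exact congrArg _ (sum_congr rfl fun Q hQ => by
      rw [if_pos (od Q hQ).1, if_pos (od Q hQ).2.1, two_mul])
  refine ⟨I, fun e => ?_, fun Q hQ => ?_, i3, fun F hF => ?_⟩
  · by_cases k : ∃ Q ∈ Dg C ε J, e = lft ε J Q ∨ e = rgt ε J Q
    · obtain ⟨Q, hQ, u⟩ := k
      obtain ⟨i, n, p⟩ := lft_eq (ε := ε) (J := J) Q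
      obtain ⟨j, m, q⟩ := rgt_eq (ε := ε) (J := J) Q
      have := hp Q (mem_filter.1 hQ).1 i n
      have := hp Q (mem_filter.1 hQ).1 j m
      rw [i1 Q hQ e u]
      rcases u with u | u <;> simp only [u, p, q] <;> linarith
    · push Not at k
      simp only [hI]
      rw [sum_eq_zero fun Q hQ => by simp [k Q hQ], sub_zero]
      exact hL e
  · rw [i1 Q hQ _ (Or.inl rfl), i1 Q hQ _ (Or.inr rfl)]
    have u := mem_filter.1 hQ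
    have := (h.loc Q u.1).one hJ
    have := hz Q u.1
    unfold lft rgt
    grind
  · have t : ∑ Q ∈ C, pen ε δ J F Q = ∑ Q ∈ Dg C ε J,
        if (lft ε J Q ∈ F ↔ rgt ε J Q ∈ F) then 2 * δ Q else 0 := by
      rw [Dg, sum_filter]
      refine sum_congr rfl fun Q hQ => ?_
      have := hF Q
      simp only [Ag, mem_filter] at this
      unfold pen
      grind
    rw [t, i3, i2 F, sum_filter]
    have : ∑ Q ∈ Dg C ε J, (2 * δ Q - 2 * ((if lft ε J Q ∈ F then δ Q else 0) +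
        if rgt ε J Q ∈ F then δ Q else 0) + (if (lft ε J Q ∈ F ↔ rgt ε J Q ∈ F) then 2 * δ Q else 0)
        - 4 * if lft ε J Q ∉ F ∧ rgt ε J Q ∉ F then δ Q else 0) = 0 :=
      sum_eq_zero fun Q _ => by
        by_cases u : lft ε J Q ∈ F <;> by_cases v : rgt ε J Q ∈ F <;> simp [u, v] <;> ring
    simp only [sum_sub_distrib, sum_add_distrib, ← mul_sum] at this ⊢
    linarith

end Pool.Agent.P.MP_92d394_lc
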