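import Pool.Agent.P.MP_92d394_lc.Q4

/-! Selection of the gaps. -/

set_option linter.unusedSectionVars false

namespace Pool.Agent.P.MP_92d394_lc

open Finset

variable {W E S : Type} [Fintype W] [DecidableEq W] [Fintype E] [DecidableEq E] [DecidableEq S]
  {a b : E → W} {T R : Finset W} {C : Finset S} {ε : S → Fin 5 → E} {J : Finset E}

theorem layer (N X Y : Finset E) (p q r : ℝ) :
    ∑ e ∈ N, (r + (if e ∈ Y then q else 0) + if e ∈ X then p else 0) =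
      N.card * r + (N ∩ Y).card * q + (N ∩ X).card * p := by
  simp only [sum_add_distrib, ← sum_filter, filter_mem_eq_inter, sum_const, nsmul_eq_mul]

theorem pair_ne {e f : E} (n : ¬ eqv a b e f) :
    ∀ g ∈ ({e, f} : Finset E), ∀ g' ∈ ({e, f} : Finset E), eqv a b g g' → g = g' := by
  intro g u g' v w
  simp only [mem_insert, mem_singleton] at u v
  have := w.symm
  grind

theorem SN.sel (h : SN a b T R C ε) (h3 : ∀ e, a e ≠ b e → 3 ≤ (cls a b e).card)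
    (hJ : G3 a b J) (hn : J ⊆ nlp a b) (h0 : J.Nonempty)
    (hD : ∀ Q ∈ Dg C ε J, ∀ P ∈ Dg C ε J, eqv a b (ε Q 4) (ε P 4) → Q = P)
    (L : E → ℝ) (δ : S → ℝ) (hL : ∀ e, 0 ≤ L e) (hδ : ∀ Q, 0 ≤ δ Q)
    (hp : ∀ Q ∈ C, ∀ i, i ≠ 4 → δ Q ≤ L (ε Q i))
    (hz : ∀ Q ∈ C, (L (ε Q 0) = δ Q ∨ L (ε Q 2) = δ Q) ∧ (L (ε Q 1) = δ Q ∨ L (ε Q 3) = δ Q))
    (M : ℕ) (m1 : 2 * J.card + 2 ≤ 2 * M + 3 * (J.image (cls a b)).card) (m2 : 2 ≤ M) :
    ∃ F ⊆ J, CF a b F ∧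
      M * (∑ e ∈ J, L e - 2 * ∑ e ∈ F, L e + ∑ Q ∈ C, pen ε δ J F Q) ≤ (M - 2) * ∑ e ∈ J, L e := by
  classical
  obtain ⟨I, i0, iz, iL, ic⟩ := h.exI hJ L δ hL hp hz
  have cJ := hJ.cld
  set D := Dg C ε J with hDD
  set G := Ag C ε J with hG
  set A := G.image (lft ε J) ∪ G.image (rgt ε J) with hA
  set N := J \ A with hN
  set P := univ.filter fun e => a e ∈ T ∧ b e ∈ R with hP
  have mA : ∀ e, e ∈ A ↔ ∃ Q ∈ G, e = lft ε J Q ∨ e = rgt ε J Q := fun e => by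
    simp only [hA, mem_union, mem_image]; grind
  have gC : ∀ Q ∈ G, Q ∈ C ∧ ε Q 4 ∉ J ∧ Q ∉ D := fun Q u => by
    simp only [hG, hDD, Ag, Dg, mem_filter] at u ⊢; tauto
  have dC : ∀ Q ∈ D, Q ∈ C ∧ ε Q 4 ∉ J := fun Q u => (mem_filter.1 u).imp_right And.left
  have sA : A ⊆ J ∩ P := fun e u => by
    obtain ⟨Q, u, v⟩ := (mA e).1 u
    simpa [hP] using h.sp hJ (gC Q u).1 (gC Q u).2.1 v
  have sA' : A ⊆ J := sA.trans inter_subset_left
  have dN : ∀ Q ∈ D, ∀ e, e = lft ε J Q ∨ e = rgt ε J Q → e ∈ N ∧ e ∈ P := fun Q u e v => by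
    have := h.sp hJ (dC Q u).1 (dC Q u).2 v
    refine ⟨mem_sdiff.2 ⟨this.1, fun w => ?_⟩, by simpa [hP] using this.2⟩
    obtain ⟨Q', w1, w2⟩ := (mA e).1 w
    exact (gC Q' w1).2.2 (h.own (dC Q u).1 (gC Q' w1).1 v w2 ▸ u)
  have smA : ∀ f : E → ℝ, ∑ e ∈ A, f e = ∑ Q ∈ G, (f (lft ε J Q) + f (rgt ε J Q)) := fun f => by
    rw [hA, sum_union, sum_image, sum_image, sum_add_distrib]
    · exact fun Q u Q' v w => h.own (gC Q u).1 (gC Q' v).1 (Or.inr rfl) (Or.inr w)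
    · exact fun Q u Q' v w => h.own (gC Q u).1 (gC Q' v).1 (Or.inl rfl) (Or.inl w)
    · refine disjoint_left.2 fun e u v => ?_
      obtain ⟨Q, u', rfl⟩ := mem_image.1 u
      obtain ⟨Q', v', w⟩ := mem_image.1 v
      obtain rfl := h.own (gC Q u').1 (gC Q' v').1 (Or.inl rfl) (Or.inr w.symm)
      exact (h.odd hJ (gC Q u').1 (gC Q u').2.1).2.2.2.2 w.symm
  have cA : A.card = 2 * G.card := by
    have := smA fun _ => 1
    simp only [sum_const, nsmul_eq_mul, mul_one] at this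
    exact_mod_cast (by linarith : (A.card : ℝ) = 2 * G.card)
  have cN : N.card + A.card = J.card := card_sdiff_add_card_eq_card sA'
  have low : ∀ X, Cld a b X → 3 * (X ∩ P).card ≤ 2 * X.card := fun X u => by
    have := h.low u
    rwa [show X.filter (fun e => a e ∈ T ∧ b e ∈ R) = X ∩ P from ext fun e => by simp [hP]] at this
  have c3 : ∀ X ⊆ J, Cld a b X → 3 * (X.image (cls a b)).card ≤ X.card := fun X u v =>
    three_ncl v fun e he => h3 e (mem_nlp.1 (hn (u he)))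
  have sb : ∀ e ∈ J, cls a b e ⊆ J := fun e u f v => cJ e u f (mem_cls.1 v)
  obtain ⟨e₁, n1, x1⟩ := exists_max_image N I (card_pos.1 (by
    have := card_le_card sA
    have := low J cJ
    have := card_pos.2 h0
    omega))
  have j1 := (mem_sdiff.1 n1).1
  set X := cls a b e₁ with hX
  have k1 : (N ∩ X).card + G.card ≤ M := by
    have t1 := card_sdiff_add_card_eq_card (sb e₁ j1)
    have t2 := ncl_le (a := a) (b := b) J e₁
    have t3 := c3 _ sdiff_subset (cJ.sdiff (cls_cld e₁))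
    have t4 := low _ (cJ.sdiff (cls_cld e₁))
    have t5 := card_sdiff_add_card_inter A X
    have t6 : (A \ X).card ≤ ((J \ X) ∩ P).card := card_le_card fun e u => by
      have := @sA e; simp only [mem_sdiff, mem_inter] at *; tauto
    have t7 : (N ∩ X).card + (A ∩ X).card ≤ X.card := by
      rw [← card_union_of_disjoint (disjoint_sdiff.symm.mono inter_subset_left inter_subset_left)]
      exact card_le_card (union_subset inter_subset_right inter_subset_right)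
    rw [← hX] at t1 t2 t3 t4
    omega
  have k3 : N.card + 2 * G.card ≤ 2 * M := by
    have := c3 J subset_rfl cJ
    omega
  have k2 : ∀ e ∈ N \ X, 2 * ((N ∩ (X ∪ cls a b e ∪ P)).card + 2 * G.card) ≤ 3 * M := fun e u => by
    have j2 := (mem_sdiff.1 (mem_sdiff.1 u).1).1
    have dj : Disjoint X (cls a b e) := cls_disj fun z => (mem_sdiff.1 u).2 (mem_cls.2 z)
    have cl := (cJ.sdiff (cls_cld e₁)).sdiff (cls_cld e)
    have t1 := card_sdiff_add_card_eq_card (sb e₁ j1)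
    have t1' := card_sdiff_add_card_eq_card (subset_sdiff.2 ⟨sb e j2, dj.symm⟩)
    have t2 := ncl_le (a := a) (b := b) J e₁
    have t2' := ncl_le (a := a) (b := b) (J \ X) e
    have t3 := c3 _ (sdiff_subset.trans sdiff_subset) cl
    have t4 := low _ cl
    have t5 := h3 e₁ (mem_nlp.1 (hn j1))
    have t6 := h3 e (mem_nlp.1 (hn j2))
    have t7 : (N ∩ (X ∪ cls a b e ∪ P)).card + A.card ≤
        X.card + (cls a b e).card + (((J \ X) \ cls a b e) ∩ P).card := by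
      rw [← card_union_of_disjoint (disjoint_sdiff.symm.mono_left inter_subset_left)]
      refine le_trans (card_le_card fun f v => ?_)
        ((card_union_le _ _).trans (Nat.add_le_add_right (card_union_le _ _) _))
      have := @sA f
      simp only [hN, mem_sdiff, mem_inter, mem_union] at *
      tauto
    rw [← hX] at t1 t2 t3 t4 t5
    omega
  have sJ : ∑ e ∈ J, I e = ∑ e ∈ N, I e + ∑ Q ∈ G, (I (lft ε J Q) + I (rgt ε J Q)) := by
    rw [← smA, hN, sum_sdiff sA']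
  have d0 : 0 ≤ ∑ Q ∈ D, δ Q := sum_nonneg fun Q _ => hδ Q
  have fin : ∀ u w c : ℝ, u ≤ ∑ e ∈ J, L e → 2 * u ≤ M * w → c ≤ u - w →
      M * c ≤ (M - 2) * ∑ e ∈ J, L e := fun u w c p q r => by
    have : (2 : ℝ) ≤ M := by exact_mod_cast m2
    nlinarith
  have r1 : ((N ∩ X).card : ℝ) + G.card ≤ M := by exact_mod_cast k1
  have r3 : (N.card : ℝ) + 2 * G.card ≤ 2 * M := by exact_mod_cast k3
  obtain ⟨x, y1, y2, y3⟩ := h.exY h3 hJ hD (mem_nlp.1 (hn j1)) fun Q u z => (dC Q u).2 (z ▸ j1)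
  have nA : ∀ F ⊆ N, ∀ Q ∈ G, (lft ε J Q ∈ F ↔ rgt ε J Q ∈ F) := fun F u Q v => iff_of_false
    (fun z => (mem_sdiff.1 (u z)).2 ((mA _).2 ⟨Q, v, Or.inl rfl⟩))
    (fun z => (mem_sdiff.1 (u z)).2 ((mA _).2 ⟨Q, v, Or.inr rfl⟩))
  have mk : ∀ (x : S → E) (H F : Finset E) (B : Finset S), F = H ∪ (D \ B).image x →
      (∀ Q ∈ D, x Q = lft ε J Q ∨ x Q = rgt ε J Q) → (∀ Q ∈ G, (lft ε J Q ∈ F ↔ rgt ε J Q ∈ F)) →
      ∑ e ∈ J, L e - 2 * ∑ e ∈ F, L e + ∑ Q ∈ C, pen ε δ J F Q ≤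
        ∑ e ∈ J, I e - 2 * ∑ e ∈ H, I e + 4 * ∑ Q ∈ B, δ Q := fun x H F B u v w => by
    rw [ic F w]
    have t1 : ∑ e ∈ H, I e ≤ ∑ e ∈ F, I e :=
      sum_le_sum_of_subset_of_nonneg (u ▸ subset_union_left) fun e _ _ => i0 e
    have t2 : ∑ Q ∈ D.filter fun Q => lft ε J Q ∉ F ∧ rgt ε J Q ∉ F, δ Q ≤ ∑ Q ∈ B, δ Q :=
      sum_le_sum_of_subset_of_nonneg (fun Q q => by
        rw [mem_filter] at q
        by_contra z
        have : x Q ∈ F := u ▸ mem_union_right _ (mem_image_of_mem _ (mem_sdiff.2 ⟨q.1, z⟩))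
        rcases v Q q.1 with t | t <;> rw [t] at this <;> tauto) fun Q _ _ => hδ Q
    linarith
  have pick : ∀ Z, Cld a b Z → X ⊆ Z → ∃ (v s : ℝ) (Y F : Finset E) (B : Finset S), 0 ≤ v ∧
      (∀ e ∈ N \ Z, I e ≤ v) ∧ (v = 0 ∨ ∃ e ∈ N \ Z, Y = cls a b e ∧ v = I e) ∧ Cld a b Y ∧
      B ⊆ D ∧ (∀ Q ∈ B, x Q ∈ Y ∧ x Q ∉ Z) ∧ s ≤ 2 * ∑ Q ∈ B, δ Q ∧ s ≤ B.card * v ∧ F ⊆ J ∧
      CF a b F ∧ ∑ e ∈ J, L e - 2 * ∑ e ∈ F, L e + ∑ Q ∈ C, pen ε δ J F Q ≤
        ∑ e ∈ J, I e - 2 * I e₁ - 2 * v + 2 * s := fun Z z1 z2 => by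
    have xN : ∀ B : Finset S, (D \ B).image x ⊆ N := fun B e u => by
      obtain ⟨Q, u', rfl⟩ := mem_image.1 u
      exact (dN Q (mem_sdiff.1 u').1 _ (y1 Q (mem_sdiff.1 u').1)).1
    have f1 : {e₁} ∪ (D \ ∅).image x ⊆ N := union_subset (singleton_subset_iff.2 n1) (xN _)
    have f2 := y3 {e₁} (singleton_subset_iff.2 j1) (by simp) (by simp) (D \ ∅) sdiff_subset
      fun Q u g v w => absurd w (y2 Q (mem_sdiff.1 u).1 g (mem_singleton.1 v ▸ j1)
        (Or.inl (by rw [mem_singleton.1 v])))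
    have f3 := mk x _ _ ∅ rfl y1 (nA _ f1)
    simp only [sum_singleton, sum_empty] at f3
    rcases (N \ Z).eq_empty_or_nonempty with k | k
    · exact ⟨0, 0, ∅, _, ∅, le_rfl, by simp [k], Or.inl rfl, by simp [Cld], by simp, by simp,
        by simp, by simp, f1.trans sdiff_subset, f2, by linarith⟩
    obtain ⟨e, n2, x2⟩ := exists_max_image _ I k
    have n3 := mem_sdiff.1 n2
    have ne : ¬ eqv a b e₁ e := fun z => n3.2 (z2 (mem_cls.2 z))
    have ne' : e₁ ≠ e := fun z => ne (Or.inl z)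
    set B := D.filter fun Q => eqv a b e (x Q) ∧ e ≠ x Q with hB
    have b1 : ∀ Q ∈ B, x Q ∈ cls a b e ∧ x Q ∉ Z := fun Q u =>
      ⟨mem_cls.2 (mem_filter.1 u).2.1, fun z => n3.2 (z1 _ z _ (mem_filter.1 u).2.1.symm)⟩
    by_cases c : 2 * ∑ Q ∈ B, δ Q ≤ I e
    · have g0 : ({e₁, e} : Finset E) ⊆ N := insert_subset n1 (singleton_subset_iff.2 n3.1)
      have g1 : {e₁, e} ∪ (D \ B).image x ⊆ N := union_subset g0 (xN _)
      have g2 := y3 {e₁, e} (g0.trans sdiff_subset) card_le_two (pair_ne ne) (D \ B) sdiff_subset fun Q u g v w => by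
        rw [mem_sdiff] at u
        rcases mem_insert.1 v with rfl | v
        · exact absurd w (y2 Q u.1 _ j1 (Or.inl rfl))
        · rw [mem_singleton.1 v] at w ⊢
          by_contra z
          exact u.2 (mem_filter.2 ⟨u.1, w, z⟩)
      have g3 := mk x _ _ B rfl y1 (nA _ g1)
      rw [sum_pair ne'] at g3
      refine ⟨I e, 2 * ∑ Q ∈ B, δ Q, _, _, B, i0 e, x2, Or.inr ⟨e, n2, rfl, rfl⟩, cls_cld e,
        filter_subset _ _, b1, le_rfl, ?_, g1.trans sdiff_subset, g2, by linarith⟩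
      rcases B.eq_empty_or_nonempty with z | z
      · simp [z]
      · have : (1 : ℝ) ≤ B.card := by exact_mod_cast card_pos.2 z
        nlinarith [i0 e]
    · refine ⟨I e, I e, _, _, B, i0 e, x2, Or.inr ⟨e, n2, rfl, rfl⟩, cls_cld e,
        filter_subset _ _, b1, by linarith, ?_, f1.trans sdiff_subset, f2, by linarith⟩
      rcases B.eq_empty_or_nonempty with z | z
      · simp [z, i0 e] at c
      · have : (1 : ℝ) ≤ B.card := by exact_mod_cast card_pos.2 z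
        nlinarith [i0 e]
  obtain ⟨v₂, s₂, Y₂, F₂, B₂, p0, p1, p2, p3, p4, p5, p6, p7, p8, p9, p10⟩ :=
    pick X (cls_cld e₁) subset_rfl
  have v21 : v₂ ≤ I e₁ := by
    rcases p2 with z | ⟨e, u, -, z⟩
    · exact z ▸ i0 e₁
    · exact z ▸ x1 e (mem_sdiff.1 u).1
  by_cases cm : ∃ Q ∈ G, I e₁ + v₂ ≤ I (lft ε J Q) + I (rgt ε J Q)
  · obtain ⟨Q₀, u0, v0⟩ := cm
    obtain ⟨Q, u, mx⟩ := exists_max_image G (fun Q => I (lft ε J Q) + I (rgt ε J Q)) ⟨Q₀, u0⟩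
    obtain ⟨u1, u2, u3⟩ := gC Q u
    obtain ⟨o1, o2, o3, o4, o5⟩ := h.odd hJ u1 u2
    obtain ⟨x', w1, w2, w3⟩ := h.exY h3 hJ hD (h.loc Q u1).nl fun Q' z t =>
      u3 (h.einj Q u1 Q' (dC Q' z).1 4 4 t ▸ z)
    have g0 : ({lft ε J Q, rgt ε J Q} : Finset E) ⊆ J := insert_subset o1 (singleton_subset_iff.2 o2)
    have xN : (D \ ∅).image x' ⊆ N := fun e u => by
      obtain ⟨Q, u', rfl⟩ := mem_image.1 u
      exact (dN Q (mem_sdiff.1 u').1 _ (w1 Q (mem_sdiff.1 u').1)).1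
    have ne : ¬ eqv a b (lft ε J Q) (rgt ε J Q) := fun z => by
      obtain ⟨l, ψ, -, -, l3, -⟩ := ex_other (r := e₁) (h3 _ (h.loc Q u1).nl) (a e₁)
      have := hJ.side h.br l3 u2 o1 z
      rw [o3, o4] at this
      exact mem_cut.1 (show ε Q 4 ∈ cut a b ψ by simp [l3]) this
    refine ⟨_, union_subset g0 (xN.trans sdiff_subset), w3 _ g0 card_le_two (pair_ne ne)
      (D \ ∅) sdiff_subset fun Q' t g v w => absurd w (w2 Q' (mem_sdiff.1 t).1 g (g0 v)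
        ((mem_insert.1 v).imp (fun z => by rw [z, o3]) fun z => by
          rw [mem_singleton.1 z, o4])), ?_⟩
    have g3 := mk x' {lft ε J Q, rgt ε J Q} _ ∅ rfl w1 fun Q' t => by
      by_cases k : Q' = Q
      · simp [k]
      have t1 := nA _ xN Q' t
      have t2 := fun e z z' => k (h.own (J := J) (e := e) (gC Q' t).1 u1 z z')
      simp only [mem_union, mem_insert, mem_singleton, t1]
      exact or_congr_left (iff_of_false (t2 _ (Or.inl rfl)) (t2 _ (Or.inr rfl)))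
    rw [sum_pair o5, sum_empty] at g3
    have t1 : ∑ e ∈ N, I e ≤ _ := (sum_le_sum fun e he => ?_).trans_eq
      (layer N X ∅ (I e₁ - v₂) 0 v₂)
    · have t2 := sum_le_card_nsmul G _ _ mx
      have t3 := v0.trans (mx Q₀ u0)
      rw [nsmul_eq_mul] at t2
      refine fin (∑ e ∈ J, I e) (2 * (I (lft ε J Q) + I (rgt ε J Q))) _ (by linarith) ?_
        (by linarith)
      have : (0 : ℝ) ≤ (N ∩ X).card := Nat.cast_nonneg _
      nlinarith [mul_le_mul_of_nonneg_right r1 (sub_nonneg.2 v21), mul_le_mul_of_nonneg_right r3 p0,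
        mul_le_mul_of_nonneg_left t3 (show (0 : ℝ) ≤ M - G.card by linarith)]
    · rw [if_neg (notMem_empty e)]
      split_ifs with k
      · linarith [x1 e he]
      · linarith [p1 e (mem_sdiff.2 ⟨he, k⟩)]
  push Not at cm
  obtain ⟨v₃, s₃, Y₃, F₃, B₃, q0, q1, q2, -, q4, q5, q6, q7, q8, q9, q10⟩ :=
    pick (X ∪ Y₂) ((cls_cld e₁).union p3) subset_union_left
  have v32 : v₃ ≤ v₂ := by
    rcases q2 with z | ⟨e, u, -, z⟩
    · exact z ▸ p0
    · exact z ▸ p1 e (sdiff_subset_sdiff subset_rfl subset_union_left u)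
  have dB : Disjoint B₂ B₃ := disjoint_left.2 fun Q u v =>
    (q5 Q v).2 (mem_union_right _ (p5 Q u).1)
  have sB : B₂ ∪ B₃ ⊆ D := union_subset p4 q4
  have t0 : ∑ Q ∈ B₂, δ Q + ∑ Q ∈ B₃, δ Q ≤ ∑ Q ∈ D, δ Q :=
    sum_union (f := δ) dB ▸ sum_le_sum_of_subset_of_nonneg sB fun Q _ _ => hδ Q
  obtain ⟨z, z1⟩ : ∃ z : S → E, ∀ Q ∈ D, (z Q = lft ε J Q ∨ z Q = rgt ε J Q) ∧ I (z Q) = 0 :=
    ⟨fun Q => if I (lft ε J Q) = 0 then lft ε J Q else rgt ε J Q, fun Q u => by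
      beta_reduce
      split_ifs with k
      exacts [⟨Or.inl rfl, k⟩, ⟨Or.inr rfl, (iz Q u).resolve_left k⟩]⟩
  have t1 : ∑ e ∈ N, (I e + if e ∈ (B₂ ∪ B₃).image z then v₂ else 0) ≤ _ :=
    (sum_le_sum fun e he => ?_).trans_eq (layer N X (X ∪ Y₂ ∪ P) (I e₁ - v₂) (v₂ - v₃) v₃)
  swap
  · have a1 := x1 e he
    have a2 := fun k => p1 e (mem_sdiff.2 ⟨he, k⟩)
    have a3 := fun k => q1 e (mem_sdiff.2 ⟨he, k⟩)
    have a4 : e ∈ (B₂ ∪ B₃).image z → e ∈ P ∧ I e = 0 := fun u => by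
      obtain ⟨Q, u', rfl⟩ := mem_image.1 u
      exact ⟨(dN Q (sB u') _ (z1 Q (sB u')).1).2, (z1 Q (sB u')).2⟩
    simp only [mem_union (s := X ∪ Y₂), mem_union (s := X)] at a3 ⊢
    by_cases b1 : e ∈ (B₂ ∪ B₃).image z
    · rw [if_pos b1, (a4 b1).2, if_pos (Or.inr (a4 b1).1)]
      split_ifs <;> linarith
    rw [if_neg b1]
    by_cases b2 : e ∈ X
    · rw [if_pos b2, if_pos (Or.inl (Or.inl b2))]
      linarith
    rw [if_neg b2]
    split_ifs with b3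
    · linarith [a2 b2]
    · linarith [a3 fun k => b3 (Or.inl k)]
  rw [sum_add_distrib, ← sum_filter, filter_mem_eq_inter, inter_eq_right.2 fun e u => by
    obtain ⟨Q, u', rfl⟩ := mem_image.1 u
    exact (dN Q (sB u') _ (z1 Q (sB u')).1).1, sum_const, card_image_of_injOn fun Q u Q' v w =>
      h.own (dC Q (sB u)).1 (dC Q' (sB v)).1 (z1 Q (sB u)).1
        (by rw [show z Q = z Q' from w]; exact (z1 Q' (sB v)).1),
    card_union_of_disjoint dB, nsmul_eq_mul] at t1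
  have t2 := sum_le_card_nsmul G _ _ fun Q u => (cm Q u).le
  rw [nsmul_eq_mul] at t2
  have t3 : (((N ∩ (X ∪ Y₂ ∪ P)).card : ℝ) + 2 * G.card) * (v₂ - v₃) ≤ 3 * M / 2 * (v₂ - v₃) := by
    rcases p2 with w | ⟨e, u, rfl, -⟩
    · rw [show v₂ - v₃ = 0 by linarith, mul_zero, mul_zero]
    · have : 2 * (((N ∩ (X ∪ cls a b e ∪ P)).card : ℝ) + 2 * G.card) ≤ 3 * M := by
        exact_mod_cast k2 e u
      exact mul_le_mul_of_nonneg_right (by linarith) (by linarith)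
  have t4 := fin (∑ e ∈ J, I e + s₂ + s₃) (2 * I e₁ + v₂ + v₃)
  have t5 : 2 * (∑ e ∈ J, I e + s₂ + s₃) ≤ M * (2 * I e₁ + v₂ + v₃) := by
    push_cast at t1
    nlinarith [mul_le_mul_of_nonneg_right r1 (sub_nonneg.2 v21), mul_le_mul_of_nonneg_right r3 q0,
      mul_le_mul_of_nonneg_left v32 (Nat.cast_nonneg B₃.card)]
  by_cases c : s₂ - v₂ ≤ s₃ - v₃
  · exact ⟨F₂, p8, p9, t4 _ (by linarith) t5 (by linarith)⟩
  · exact ⟨F₃, q8, q9, t4 _ (by linarith) t5 (by linarith)⟩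

theorem chord {M k : ℕ} (hM : 3 ≤ M) (hk : 3 ≤ k) :
    (k : ℝ) / (k - 2) - (k / (k - 2) - (k + 1) / (k + 1 - 2)) * (M - k) ≤ M / (M - 2) := by
  have p : (3 : ℝ) ≤ M := by exact_mod_cast hM
  have q : (3 : ℝ) ≤ k := by exact_mod_cast hk
  have r : (0 : ℝ) ≤ (k - M) * (k + 1 - M) := by
    rcases le_or_gt M k with z | z
    · have : (M : ℝ) ≤ k := by exact_mod_cast z
      exact mul_nonneg (by linarith) (by linarith)
    · have : (k : ℝ) + 1 ≤ M := by exact_mod_cast z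
      exact mul_nonneg_of_nonpos_of_nonpos (by linarith) (by linarith)
  have e : (M : ℝ) / (M - 2) - (k / (k - 2) - (k / (k - 2) - (k + 1) / (k + 1 - 2)) * (M - k)) =
      2 * ((k - M) * (k + 1 - M)) / ((M - 2) * (k - 2) * (k - 1)) := by
    have : (M : ℝ) - 2 ≠ 0 := by linarith
    have : (k : ℝ) - 2 ≠ 0 := by linarith
    have : (k : ℝ) - 1 ≠ 0 := by linarith
    rw [show (k : ℝ) + 1 - 2 = k - 1 by ring]
    field_simp
    ring
  have : 0 ≤ 2 * (((k : ℝ) - M) * (k + 1 - M)) / ((M - 2) * (k - 2) * (k - 1)) :=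
    div_nonneg (by linarith) (mul_nonneg (mul_nonneg (by linarith) (by linarith)) (by linarith))
  linarith

theorem SN.main (h : SN a b T R C ε) (h3 : ∀ e, a e ≠ b e → 3 ≤ (cls a b e).card)
    (hT : T.Nonempty) (h6 : 6 ≤ R.card)
    (L : E → ℝ) (δ : S → ℝ) (hL : ∀ e, 0 ≤ L e) (hδ : ∀ Q, 0 ≤ δ Q)
    (hp : ∀ Q ∈ C, ∀ i, i ≠ 4 → δ Q ≤ L (ε Q i))
    (hz : ∀ Q ∈ C, (L (ε Q 0) = δ Q ∨ L (ε Q 2) = δ Q) ∧ (L (ε Q 1) = δ Q ∨ L (ε Q 3) = δ Q))
    (Φ : ℝ) (hΦ : ∀ k₁ k₂ k₃ : ℕ, 3 ≤ k₁ → 3 ≤ k₂ → 3 ≤ k₃ → k₁ + k₂ + k₃ ≤ R.card + 3 →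
      Φ ≤ k₁ / (k₁ - 2) + k₂ / (k₂ - 2) + k₃ / (k₃ - 2)) (p0 : 0 < Φ) :
    ∃ J F, F ⊆ J ∧ G3 a b J ∧ CF a b F ∧
      Φ * (∑ e ∈ J, L e - 2 * ∑ e ∈ F, L e + ∑ Q ∈ C, pen ε δ J F Q) ≤ ∑ e, L e := by
  classical
  set k := (R.card + 3) / 3 with hk
  have k3 : 3 ≤ k := by omega
  set κ : ℝ := k / (k - 2) - (k + 1) / (k + 1 - 2) with hκ
  have kr : (3 : ℝ) ≤ k := by exact_mod_cast k3
  have κ0 : 0 ≤ κ := by
    rw [hκ, sub_nonneg, div_le_div_iff₀ (by linarith) (by linarith)]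
    nlinarith
  have hΦ' : Φ ≤ 3 * (k / (k - 2)) - κ * (R.card + 3 - 3 * k) := by
    rcases (show R.card + 3 = 3 * k ∨ R.card + 3 = 3 * k + 1 ∨ R.card + 3 = 3 * k + 2 by omega)
      with z | z | z <;> have z' := congrArg (Nat.cast : ℕ → ℝ) z <;> push_cast at z' <;> rw [z', hκ]
    · linarith [hΦ k k k k3 k3 k3 (by omega)]
    · have := hΦ k k (k + 1) k3 k3 (by omega) (by omega)
      push_cast at this
      linarith
    · have := hΦ k (k + 1) (k + 1) k3 (by omega) (by omega) (by omega)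
      push_cast at this
      linarith
  set S₀ := ∑ e, L e with hS
  set τ := S₀ / Φ with hτ
  have τ0 : 0 ≤ τ := div_nonneg (sum_nonneg fun e _ => hL e) p0.le
  obtain ⟨rep, r1, r2⟩ : ∃ rep : E → E, (∀ e, eqv a b e (rep e)) ∧
      ∀ e f, eqv a b e f → rep e = rep f :=
    ⟨fun e => Exists.choose (⟨e, self_cls e⟩ : (cls a b e).Nonempty),
      fun e => mem_cls.1 (Exists.choose_spec (⟨e, self_cls e⟩ : (cls a b e).Nonempty)),
      fun e f q => by simp only [cls_eq q]⟩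
  set w : E → ℝ := fun e => if e ∈ nlp a b then 1 - 3 / 2 * (1 / (cls a b e).card) else 0 with hw
  have w0 : ∀ e, 0 ≤ w e := fun e => by
    simp only [hw]
    split_ifs with u
    · have : (1 : ℝ) / (cls a b e).card ≤ 1 / 3 :=
        one_div_le_one_div_of_le (by norm_num) (by exact_mod_cast h3 e (mem_nlp.1 u))
      linarith
    · rfl
  have w1 : ∀ X ⊆ nlp a b, Cld a b X →
      ∑ e ∈ X, w e = X.card - 3 / 2 * (X.image (cls a b)).card := fun X u v => by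
    rw [← sum_inv v, mul_sum, sum_congr rfl fun e he => if_pos (u he), sum_sub_distrib]
    simp
  obtain ⟨J₀, j1, j2, j3⟩ := exC ε (fun Q => rep (ε Q 4)) (C.filter fun Q => rep (ε Q 4) ≠ ε Q 4)
    a b (fun e => L e + τ * κ * w e) h.br (fun Q u => h.loc Q (mem_filter.1 u).1)
    (fun Q u P v => h.einj Q (mem_filter.1 u).1 P (mem_filter.1 v).1)
    (fun Q u => (r1 _).resolve_left (mem_filter.1 u).2.symm)
    (fun Q u P v z => (mem_filter.1 v).2 ((r2 _ _ (z ▸ r1 (ε Q 4))).symm.trans z))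
    fun e => add_nonneg (hL e) (mul_nonneg (mul_nonneg τ0 κ0) (w0 e))
  set J := J₀ ∩ nlp a b with hJ
  have cJ : ∀ φ, J ∩ cut a b φ = J₀ ∩ cut a b φ := fun φ => by
    rw [hJ, inter_assoc, inter_eq_right.2 fun e u => mem_nlp.2 (cut_nl u)]
  have g3 : G3 a b J := fun φ => cJ φ ▸ j1 φ
  have sn : J ⊆ nlp a b := inter_subset_right
  obtain ⟨t, ht⟩ := id hT
  have h0 : J.Nonempty := (card_pos.1 (by rw [(g3 _).2 (h.dT t ht)]; omega)).mono
    (inter_subset_left (s₂ := cut a b (sg t)))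
  have hD : ∀ Q ∈ Dg C ε J, rep (ε Q 4) = ε Q 4 := fun Q u => by
    by_contra z
    rw [Dg, mem_filter] at u
    have l := h.loc Q u.1
    have t1 := j2 Q (mem_filter.2 ⟨u.1, z⟩)
    have t2 := l.one g3
    have t3 : ε Q 0 ∈ nlp a b := mem_nlp.2 (cut_nl (φ := sg (a (ε Q 4))) (by simp [l.cl]))
    have t4 : ε Q 1 ∈ nlp a b := mem_nlp.2 (cut_nl (φ := sg (b (ε Q 4))) (by simp [l.cr]))
    have t5 : ε Q 0 ∈ J ↔ ε Q 1 ∈ J := by simp only [hJ, mem_inter, t3, t4, t1]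
    tauto
  have n3 := three_ncl g3.cld fun e he => h3 e (mem_nlp.1 (sn he))
  have n1 := card_pos.2 (h0.image (cls a b))
  set ν := (J.image (cls a b)).card with hν
  obtain ⟨M, m1, m2, m3⟩ : ∃ M, 2 * J.card + 2 ≤ 2 * M + 3 * ν ∧ 2 * M + 3 * ν ≤ 2 * J.card + 3 ∧
    3 ≤ M := ⟨(2 * J.card + 3 - 3 * ν) / 2, by omega⟩
  obtain ⟨F, f1, f2, f3⟩ := h.sel h3 g3 sn h0 (fun Q u P v q => h.einj Q (mem_filter.1 u).1 P
    (mem_filter.1 v).1 4 4 ((hD Q u).symm.trans ((r2 _ _ q).trans (hD P v)))) L δ hL hδ hp hz M m1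
    (by omega)
  refine ⟨J, F, f1, g3, f2, ?_⟩
  have s1 : ∑ e ∈ J, (L e + τ * κ * w e) ≤ ∑ e ∈ J₀, (L e + τ * κ * w e) :=
    sum_le_sum_of_subset_of_nonneg inter_subset_left fun e _ _ =>
      add_nonneg (hL e) (mul_nonneg (mul_nonneg τ0 κ0) (w0 e))
  have s2 : ∑ e, w e = ∑ e ∈ nlp a b, w e :=
    (sum_subset (subset_univ _) fun e _ u => if_neg u).symm
  have s3 := h.card
  have s4 := h.ncl hT
  have s5 : ∑ e, w e ≤ R.card - 3 / 2 := by
    rw [s2, w1 _ subset_rfl nlp_cld]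
    have a1 : (2 : ℝ) * (nlp a b).card = 2 * R.card + 3 * T.card := by exact_mod_cast s3
    have a2 : (T.card : ℝ) + 1 ≤ ((nlp a b).image (cls a b)).card := by exact_mod_cast s4
    linarith
  have s6 : (M : ℝ) - 3 / 2 ≤ ∑ e ∈ J, w e := by
    rw [w1 _ sn g3.cld]
    have : (2 : ℝ) * M + 3 * ν ≤ 2 * J.card + 3 := by exact_mod_cast m2
    linarith
  simp only [sum_add_distrib, ← mul_sum] at s1 j3
  have t2 : S₀ = τ * Φ := by rw [hτ]; field_simp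
  have mr : (3 : ℝ) ≤ M := by exact_mod_cast m3
  have t3 : ∑ e ∈ J, L e ≤ τ * (M / (M - 2)) := by
    have := mul_le_mul_of_nonneg_left (chord m3 k3) τ0
    rw [← hκ] at this
    nlinarith [mul_le_mul_of_nonneg_left hΦ' τ0, mul_le_mul_of_nonneg_left s5 (mul_nonneg τ0 κ0),
      mul_le_mul_of_nonneg_left s6 (mul_nonneg τ0 κ0)]
  rw [← mul_div_assoc, le_div_iff₀ (by linarith)] at t3
  rw [t2, mul_comm τ]
  exact mul_le_mul_of_nonneg_left (le_of_mul_le_mul_left (a := (M : ℝ)) (by linarith)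
    (by linarith)) p0.le

end Pool.Agent.P.MP_92d394_lc
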