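import Pool.Agent.P.MP_92d394_lc.Spl

/-! From edge multiplicities to tours, with a choice of transitions at squares. -/

set_option linter.unusedSectionVars false

namespace Pool.Agent.P.MP_92d394_lc

open Finset

variable {V K S : Type} [Fintype V] [DecidableEq V] [Fintype K] [Fintype S] [DecidableEq S]

theorem tour_of {c : V → V → ℝ} (hc : IsMetric c) (hn : 3 ≤ Fintype.card V) (p q : K → V)
    (n : K → ℕ) (ev : ∀ φ : V → ZMod 2, ∑ k, (n k : ZMod 2) * (φ (p k) + φ (q k)) = 0)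
    (cn : ∀ φ : V → ZMod 2, (∀ k, n k ≠ 0 → φ (p k) = φ (q k)) → ∀ u v, φ u = φ v) :
    ∃ x, (x ∈ SubP V ∧ ∀ u v, ∃ k : ℤ, x u v = k) ∧ dot c x ≤ ∑ k, n k * c (p k) (q k) := by
  have d : ∀ c : V → V → ℝ, (∀ u v, c u v = c v u) → (∀ u, c u u = 0) →
      dot c (∑ k, (n k : ℝ) • ed (p k) (q k)) = ∑ k, n k * c (p k) (q k) := fun c h1 h2 => by
    simp only [dot_sum, dot_smul, dot_ed h1 h2]
  have eu : Eul (∑ k, (n k : ℝ) • ed (p k) (q k)) := by
    refine ⟨fun s t => ?_, fun s => ?_, fun s t => ?_, fun A => ?_, fun A u v => ?_⟩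
    · simp only [Finset.sum_apply, Pi.smul_apply, ed_symm _ _ s t]
    · simp [Finset.sum_apply, ed_self]
    · refine ⟨∑ k, n k * if p k = q k then 0 else
        (if s = p k ∧ t = q k then 1 else 0) + if s = q k ∧ t = p k then 1 else 0, ?_⟩
      simp only [Finset.sum_apply, Pi.smul_apply, ed, smul_eq_mul]
      push_cast
      rfl
    · have e := ev fun w => if w ∈ A then 1 else 0
      have t : ((∑ k, n k * if p k ∈ A ↔ q k ∈ A then 0 else 1 : ℕ) : ZMod 2) = 0 := by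
        rw [← e]
        push_cast
        refine sum_congr rfl fun k _ => congrArg _ ?_
        by_cases a : p k ∈ A <;> by_cases b : q k ∈ A <;> simp [a, b]
        decide
      obtain ⟨j, hj⟩ := (ZMod.natCast_eq_zero_iff _ _).1 t
      refine ⟨j, ?_⟩
      have := congrArg (Nat.cast : ℕ → ℝ) hj
      rw [d _ (cutm_symm A) (cutm_self A)]
      simpa [cutm] using this
    · rw [d _ (cutm_symm A) (cutm_self A)]
      by_contra z
      have t := (sum_eq_zero_iff_of_nonneg fun k _ =>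
        mul_nonneg (Nat.cast_nonneg (n k)) (cutm_nonneg A (p k) (q k))).1 (le_antisymm (not_lt.1 z)
          (sum_nonneg fun k _ => mul_nonneg (Nat.cast_nonneg (n k)) (cutm_nonneg A (p k) (q k))))
      obtain ⟨u, u1⟩ := u
      obtain ⟨v, v1⟩ := v
      have := cn (fun w => if w ∈ A then 1 else 0) (fun k nk => by
        have := (mul_eq_zero.1 (t k (mem_univ k))).resolve_left (by exact_mod_cast nk)
        by_cases a : p k ∈ A <;> by_cases b : q k ∈ A <;> simp_all [cutm]) u v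
      simp [u1, mem_compl.1 v1] at this
  obtain ⟨x, x1, x2⟩ := eu.tour hc hn
  exact ⟨x, x1, x2.trans_eq (d c hc.1 hc.2.1)⟩

/-- The two transitions. -/
def pat (s : Bool) (j : Fin 4) : ℕ := if (j = 0 ∨ j = 2) = s then 1 else 0

theorem tour_sq {c : V → V → ℝ} (hc : IsMetric c) (hn : 3 ≤ Fintype.card V) (p q : K → V)
    (n : K → ℕ) (w : S → Fin 4 → V) (m : S → Fin 4 → ℕ) (I : Finset S) (B : S → ℝ)
    (ev : ∀ φ : V → ZMod 2, ∑ k, (n k : ZMod 2) * (φ (p k) + φ (q k)) + ∑ Q, (if Q ∈ I then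
      ∑ j, φ (w Q j) else ∑ j, (m Q j : ZMod 2) * (φ (w Q j) + φ (w Q (j + 1)))) = 0)
    (cn : ∀ φ : V → ZMod 2, (∀ k, n k ≠ 0 → φ (p k) = φ (q k)) →
      (∀ Q ∉ I, ∀ j, m Q j ≠ 0 → φ (w Q j) = φ (w Q (j + 1))) →
      (∀ Q ∈ I, ∀ j, φ (w Q j) = φ (w Q 0)) → ∀ u v, φ u = φ v)
    (b1 : ∀ Q ∈ I, c (w Q 0) (w Q 1) + c (w Q 2) (w Q 3) ≤ B Q ∧
      c (w Q 1) (w Q 2) + c (w Q 3) (w Q 0) ≤ B Q)
    (b2 : ∀ Q ∉ I, ∑ j, m Q j * c (w Q j) (w Q (j + 1)) ≤ B Q) :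
    ∃ x, (x ∈ SubP V ∧ ∀ u v, ∃ k : ℤ, x u v = k) ∧
      dot c x ≤ ∑ k, n k * c (p k) (q k) + ∑ Q, B Q := by
  classical
  set μ : (S → Bool) → S → Fin 4 → ℕ := fun σ Q => if Q ∈ I then pat (σ Q) else m Q with hμ
  have e1 : ∀ σ (φ : V → ZMod 2), ∑ k, (n k : ZMod 2) * (φ (p k) + φ (q k)) +
      ∑ Q, ∑ j, (μ σ Q j : ZMod 2) * (φ (w Q j) + φ (w Q (j + 1))) = 0 := fun σ φ => by
    rw [← ev φ]
    refine congrArg _ (sum_congr rfl fun Q _ => ?_)
    simp only [hμ]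
    split_ifs
    · exact (by decide : ∀ (s : Bool) (ω : Fin 4 → ZMod 2),
        ∑ j, (pat s j : ZMod 2) * (ω j + ω (j + 1)) = ∑ j, ω j) (σ Q) fun j => φ (w Q j)
    · rfl
  set cl : (S → Bool) → Finset (V → ZMod 2) := fun σ => univ.filter fun φ =>
    (∀ k, n k ≠ 0 → φ (p k) = φ (q k)) ∧ ∀ Q j, μ σ Q j ≠ 0 → φ (w Q j) = φ (w Q (j + 1)) with hcl
  have mc : ∀ σ φ, φ ∈ cl σ ↔ (∀ k, n k ≠ 0 → φ (p k) = φ (q k)) ∧
    ∀ Q j, μ σ Q j ≠ 0 → φ (w Q j) = φ (w Q (j + 1)) := fun σ φ => by simp [hcl]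
  obtain ⟨σ, -, mn⟩ := exists_min_image univ (fun σ => (cl σ).card) univ_nonempty
  have key : ∀ φ ∈ cl σ, ∀ Q ∈ I, ∀ j, φ (w Q j) = φ (w Q 0) := fun φ hφ Q hQ => by
    by_contra z
    rw [mc] at hφ
    set σ' := Function.update σ Q (!σ Q) with hσ
    have m1 : μ σ Q = pat (σ Q) := if_pos hQ
    have m2 : μ σ' Q = pat (!σ Q) := by simp [hμ, hQ, hσ]
    have m3 : ∀ P, P ≠ Q → μ σ' P = μ σ P := fun P u => by simp [hμ, hσ, u]
    have a1 := hφ.2 Q
    rw [m1] at a1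
    refine (mn σ' (mem_univ _)).not_gt (card_lt_card ⟨fun ψ hψ => ?_, fun u => ?_⟩)
    · rw [mc] at hψ ⊢
      refine ⟨hψ.1, fun P => ?_⟩
      by_cases u : P = Q
      swap
      · exact m3 P u ▸ hψ.2 P
      have a2 := hψ.2 Q
      have a3 := e1 σ (φ * ψ)
      rw [sum_eq_zero fun k _ => ?_, zero_add, sum_eq_single Q (fun P _ u => sum_eq_zero
        fun j _ => ?_) (by simp), m1] at a3
      · rw [m2] at a2
        rw [u, m1]
        exact (by decide : ∀ (s : Bool) (α β : Fin 4 → ZMod 2), (¬ ∀ j, α j = α 0) →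
          (∀ j, pat s j ≠ 0 → α j = α (j + 1)) → (∀ j, pat (!s) j ≠ 0 → β j = β (j + 1)) →
          ∑ j, (pat s j : ZMod 2) * (α j * β j + α (j + 1) * β (j + 1)) = 0 →
          ∀ j, pat s j ≠ 0 → β j = β (j + 1)) (σ Q) (fun j => φ (w Q j)) (fun j => ψ (w Q j))
          z a1 a2 a3
      · by_cases t : μ σ P j = 0
        · simp [t]
        · rw [Pi.mul_apply, Pi.mul_apply, hφ.2 P j t, hψ.2 P j (m3 P u ▸ t),
            CharTwo.add_self_eq_zero, mul_zero]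
      · by_cases t : n k = 0
        · simp [t]
        · rw [Pi.mul_apply, Pi.mul_apply, hφ.1 k t, hψ.1 k t, CharTwo.add_self_eq_zero, mul_zero]
    · have a2 := ((mc _ _).1 (u ((mc _ _).2 hφ))).2 Q
      rw [m2] at a2
      exact z ((by decide : ∀ (s : Bool) (α : Fin 4 → ZMod 2),
        (∀ j, pat s j ≠ 0 → α j = α (j + 1)) → (∀ j, pat (!s) j ≠ 0 → α j = α (j + 1)) →
          ∀ j, α j = α 0) (σ Q) (fun j => φ (w Q j)) a1 a2)
  obtain ⟨x, x1, x2⟩ := tour_of hc hn (K := K ⊕ S × Fin 4)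
    (Sum.elim p fun t => w t.1 t.2) (Sum.elim q fun t => w t.1 (t.2 + 1))
    (Sum.elim n fun t => μ σ t.1 t.2) (fun φ => by
      simpa only [Fintype.sum_sum_type, Fintype.sum_prod_type, Sum.elim_inl, Sum.elim_inr]
        using e1 σ φ) fun φ u => by
      have t : φ ∈ cl σ := (mc _ _).2 ⟨fun k => u (.inl k), fun Q j => u (.inr (Q, j))⟩
      refine cn φ ((mc _ _).1 t).1 (fun Q v j z => ((mc _ _).1 t).2 Q j ?_) (key φ t)
      simpa [hμ, v] using z
  refine ⟨x, x1, x2.trans ?_⟩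
  simp only [Fintype.sum_sum_type, Fintype.sum_prod_type, Sum.elim_inl, Sum.elim_inr]
  refine add_le_add_right (sum_le_sum fun Q _ => ?_) _
  simp only [hμ]
  split_ifs with u
  · have := b1 Q u
    cases σ Q <;> simp [pat, Fin.sum_univ_four] <;> tauto
  · exact b2 Q u

end Pool.Agent.P.MP_92d394_lc
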