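import Pool.Agent.P.MP_92d394_lc.Q5
import Pool.Agent.P.MP_92d394_lc.Q6

/-! The network of a configuration of edges, triangles and squares. -/

set_option linter.unusedSectionVars false

namespace Pool.Agent.P.MP_92d394_lc

open Finset

section
variable {W E S : Type} [Fintype W] [DecidableEq W] [Fintype E] [DecidableEq E] [DecidableEq S]
  {a b : E → W} {T R : Finset W} {C : Finset S} {ε : S → Fin 5 → E}

theorem SN.main' (h : SN a b T R C ε) (h3 : ∀ e, a e ≠ b e → 3 ≤ (cls a b e).card)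
    (h6 : 6 ≤ R.card) (L : E → ℝ) (δ : S → ℝ) (hL : ∀ e, 0 ≤ L e) (hδ : ∀ Q, 0 ≤ δ Q)
    (hp : ∀ Q ∈ C, ∀ i, i ≠ 4 → δ Q ≤ L (ε Q i))
    (hz : ∀ Q ∈ C, (L (ε Q 0) = δ Q ∨ L (ε Q 2) = δ Q) ∧ (L (ε Q 1) = δ Q ∨ L (ε Q 3) = δ Q))
    (Φ : ℝ) (hΦ : ∀ k₁ k₂ k₃ : ℕ, 3 ≤ k₁ → 3 ≤ k₂ → 3 ≤ k₃ → k₁ + k₂ + k₃ ≤ R.card + 3 →
      Φ ≤ k₁ / (k₁ - 2) + k₂ / (k₂ - 2) + k₃ / (k₃ - 2)) (p0 : 0 < Φ) :
    ∃ J F, F ⊆ J ∧ G3 a b J ∧ CF a b F ∧
      Φ * (∑ e ∈ J, L e - 2 * ∑ e ∈ F, L e + ∑ Q ∈ C, pen ε δ J F Q) ≤ ∑ e, L e := by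
  rcases T.eq_empty_or_nonempty with rfl | hT
  swap
  · exact h.main h3 hT h6 L δ hL hδ hp hz Φ hΦ p0
  have c : C = ∅ := eq_empty_of_forall_notMem fun Q u => notMem_empty _ (h.sT Q u).1
  refine ⟨∅, ∅, subset_rfl, fun φ => ?_, fun φ u => subset_empty.1 u, by
    simpa [c] using sum_nonneg fun e _ => hL e⟩
  have e1 : ∑ e, (φ (a e) + φ (b e)) = ∑ v, φ v * ∑ e, (sg v (a e) + sg v (b e)) := by
    simp only [mul_sum, mul_add, sg]
    rw [sum_comm]
    simp [sum_add_distrib]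
  simp only [sum_card, univ_inter] at e1
  rw [sum_eq_zero fun v _ => ?_, ZMod.natCast_eq_zero_iff] at e1
  · simp only [empty_inter, card_empty]
    omega
  · by_cases k : v ∈ R
    · rw [h.dR v k]; exact mul_zero _
    · rw [show cut a b (sg v) = ∅ from eq_empty_of_forall_notMem fun e he => ?_]
      · simp
      · have := h.ma (cut_nl he)
        have := h.mb (cut_nl he)
        rcases sg_end he with p | p <;> simp_all
end

variable {V U Tr S : Type} [Fintype V] [DecidableEq V] [Fintype U] [DecidableEq U] [Fintype Tr]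
  [DecidableEq Tr] [Fintype S] [DecidableEq S]

/-- A configuration. -/
structure Cfg (V U Tr S : Type) where
  o₁ : U → V
  o₂ : U → V
  tv : Tr → Fin 3 → V
  w : S → Fin 4 → V

/-- First ends. -/
def tA : Fin 3 → Fin 5 → Fin 6 := ![![4, 5, 5, 4, 4], ![0, 1, 0, 0, 0], ![0, 0, 2, 0, 0]]

/-- Second ends. -/
def tB : Fin 3 → Fin 5 → Fin 6 := ![![0, 1, 2, 3, 5], ![3, 2, 0, 0, 0], ![1, 0, 3, 0, 0]]

namespace Cfg

variable (D : Cfg V U Tr S) (st : S → Fin 3)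

/-- The six nodes of a square. -/
def nd (Q : S) : Fin 6 → V ⊕ Tr ⊕ S × Bool :=
  ![.inl (D.w Q 0), .inl (D.w Q 1), .inl (D.w Q 2), .inl (D.w Q 3), .inr (.inr (Q, false)),
    .inr (.inr (Q, true))]

/-- First ends. -/
def ga : U ⊕ Tr × Fin 3 ⊕ S × Fin 5 → V ⊕ Tr ⊕ S × Bool
  | .inl e => .inl (D.o₁ e)
  | .inr (.inl t) => .inr (.inl t.1)
  | .inr (.inr t) => D.nd t.1 (tA (st t.1) t.2)

/-- Second ends. -/
def gb : U ⊕ Tr × Fin 3 ⊕ S × Fin 5 → V ⊕ Tr ⊕ S × Bool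
  | .inl e => .inl (D.o₂ e)
  | .inr (.inl t) => .inl (D.tv t.1 t.2)
  | .inr (.inr t) => D.nd t.1 (tB (st t.1) t.2)

/-- The triangles and squares are disjoint. -/
def Inj : Prop := Function.Injective
  (Sum.elim (fun t : Tr × Fin 3 => D.tv t.1 t.2) fun t : S × Fin 4 => D.w t.1 t.2)

/-- Degree two. -/
def Deg : Prop := ∀ v, (cut (D.ga st) (D.gb st) (sg (.inl v))).card = 2

/-- Cuts have two edges. -/
def Two : Prop := ∀ φ, (cut (D.ga st) (D.gb st) φ).card ≤ 1 → ∀ u v, φ (.inl u) = φ (.inl v)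

/-- Costs of the sides of a square. -/
def cs (c : V → V → ℝ) (Q : S) (j : Fin 4) : ℝ := c (D.w Q j) (D.w Q (j + 1))

/-- The cost of a configuration. -/
noncomputable def cost (c : V → V → ℝ) : ℝ :=
  ∑ e, c (D.o₁ e) (D.o₂ e) + (∑ t, (∑ i, c (D.tv t i) (D.tv t (i + 1))) / 2 +
    ∑ Q, ![(D.cs c Q 0 + D.cs c Q 1 + D.cs c Q 2 + D.cs c Q 3) / 2, D.cs c Q 1 + D.cs c Q 3,
      D.cs c Q 0 + D.cs c Q 2] (st Q))

end Cfg

open Classical in
/-- Steiner nodes. -/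
noncomputable def TT (st : S → Fin 3) : Finset (V ⊕ Tr ⊕ S × Bool) :=
  univ.filter (Sum.elim (fun _ => False) (Sum.elim (fun _ => True) fun t => st t.1 = 0))

namespace Cfg

variable {D : Cfg V U Tr S} {st : S → Fin 3}

theorem ct (t : Tr) : cut (D.ga st) (D.gb st) (sg (.inr (.inl t))) =
    univ.image fun i => .inr (.inl (t, i)) := by
  ext (e | ⟨u, i⟩ | ⟨P, i⟩)
  · simp [mem_sg, ga, gb]
  · simp [mem_sg, ga, gb, eq_comm]
  · have : ∀ j, D.nd P j ≠ .inr (.inl t) := fun j => by fin_cases j <;> simp [nd]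
    simp [mem_sg, ga, gb, this]

theorem sn (h1 : D.Inj) (h2 : D.Deg st) (h3 : D.Two st) :
    SN (D.ga st) (D.gb st) (TT st) (univ.image .inl) (univ.filter fun Q => st Q = 0)
      fun Q i => .inr (.inr (Q, i)) := by
  have mem : ∀ e, D.ga st e ≠ D.gb st e → (D.ga st e ∈ TT st ∨ D.ga st e ∈ univ.image .inl) ∧
      (D.gb st e ∈ univ.image .inl ∨ D.ga st e ∈ TT st ∧ D.gb st e ∈ TT st) := by
    rintro (e | ⟨t, i⟩ | ⟨Q, i⟩) -
    · simp [ga, gb]
    · simp [ga, gb, TT]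
    · simp only [ga, gb]
      generalize hs : st Q = s
      fin_cases s <;> fin_cases i <;> simp_all [nd, tA, tB, TT]
  have cl : ∀ Q, st Q = 0 → ∀ s, cut (D.ga st) (D.gb st) (sg (.inr (.inr (Q, s)))) =
      (if s then {1, 2, 4} else {0, 3, 4} : Finset (Fin 5)).image fun i => .inr (.inr (Q, i)) := by
    intro Q hQ s
    ext (e | ⟨t, i⟩ | ⟨P, i⟩)
    · simp [mem_sg, ga, gb]
    · simp [mem_sg, ga, gb]
    · simp only [mem_sg, ga, gb]
      by_cases k : P = Q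
      · subst k
        rw [hQ]
        cases s <;> fin_cases i <;> simp [nd, tA, tB]
      · have : ∀ j, D.nd P j ≠ .inr (.inr (Q, s)) := fun j => by fin_cases j <;> simp [nd, k]
        simp [this, Ne.symm k]
  have key : ∀ φ, (cut (D.ga st) (D.gb st) φ).card ≤ 1 → ∀ u ∈ TT st ∪ univ.image .inl,
      ∃ x, ∀ v, φ u = φ (.inl x) ∧ φ u = φ (.inl v) := by
    intro φ hφ u hu
    have k := h3 φ hφ
    have o := card_le_one.1 hφ
    simp only [mem_cut] at o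
    rcases u with u | t | ⟨Q, s⟩
    · exact ⟨u, fun v => ⟨rfl, k u v⟩⟩
    · have := o (.inr (.inl (t, 0)))
      have z : φ (.inr (.inl t)) = φ (.inl (D.tv t 0)) := by
        by_contra z
        simpa using this z (.inr (.inl (t, 1))) (by simpa [ga, gb, k _ (D.tv t 0)] using z)
      exact ⟨_, fun v => ⟨z, z.trans (k _ _)⟩⟩
    · have hQ : st Q = 0 := by simpa [TT] using hu
      have z : φ (.inr (.inr (Q, s))) = φ (.inl (D.w Q 0)) := by
        by_contra z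
        cases s
        · simpa using o (.inr (.inr (Q, 0))) (by simpa [ga, gb, hQ, nd, tA, tB] using z)
            (.inr (.inr (Q, 3))) (by simpa [ga, gb, hQ, nd, tA, tB, k _ (D.w Q 0)] using z)
        · simpa using o (.inr (.inr (Q, 1)))
            (by simpa [ga, gb, hQ, nd, tA, tB, k _ (D.w Q 0)] using z)
            (.inr (.inr (Q, 2))) (by simpa [ga, gb, hQ, nd, tA, tB, k _ (D.w Q 0)] using z)
      exact ⟨_, fun v => ⟨z, z.trans (k _ _)⟩⟩
  have key' : ∀ φ, (cut (D.ga st) (D.gb st) φ).card ≤ 1 → ∀ u ∈ TT st ∪ univ.image .inl,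
      ∀ v ∈ TT st ∪ univ.image .inl, φ u = φ v := fun φ hφ u hu v hv => by
    obtain ⟨x, p⟩ := key φ hφ u hu
    obtain ⟨y, q⟩ := key φ hφ v hv
    exact (p x).1.trans (q x).2.symm
  refine ⟨fun φ k => ?_, fun φ k => key' φ (by simp [k]), mem, by simp [disjoint_left, TT], ?_, ?_,
    ?_, fun Q u => ?_, by simp +contextual, fun Q u => ?_, fun Q u i n => ?_⟩
  · obtain ⟨e, he⟩ := card_pos.1 (k.ge : 0 < _)
    have := mem e (cut_nl he)
    exact mem_cut.1 he (key' φ k.le _ (mem_union.2 this.1) _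
      (mem_union.2 (this.2.symm.imp_left And.right)))
  · rintro (u | t | ⟨Q, s⟩) hu
    · simp [TT] at hu
    · rw [ct, card_image_of_injective _ fun i j => by simp]; simp
    · rw [cl Q (by simpa [TT] using hu), card_image_of_injective _ fun i j => by simp]
      cases s <;> rfl
  · intro v hv
    obtain ⟨v, -, rfl⟩ := mem_image.1 hv
    exact h2 v
  · have t : ∀ e, D.ga st e ∈ TT st → D.gb st e ∈ univ.image Sum.inl →
        ∃ x : Tr × Fin 3 ⊕ S × Fin 4, e = .inr (x.map id fun y => (y.1, y.2.castSucc)) ∧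
          D.gb st e = .inl (Sum.elim (fun t : Tr × Fin 3 => D.tv t.1 t.2)
            (fun t : S × Fin 4 => D.w t.1 t.2) x) := by
      rintro (e | t | ⟨Q, i⟩) u v
      · simp [ga, TT] at u
      · exact ⟨.inl t, rfl, rfl⟩
      · simp only [ga, gb] at u v ⊢
        generalize hs : st Q = s at u v
        fin_cases s <;> fin_cases i <;> simp [nd, tA, tB, TT] at u v
        exacts [⟨.inr (Q, 0), rfl, rfl⟩, ⟨.inr (Q, 1), rfl, rfl⟩, ⟨.inr (Q, 2), rfl, rfl⟩,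
          ⟨.inr (Q, 3), rfl, rfl⟩]
    intro e f u v x y
    obtain ⟨p, p1, p2⟩ := t e u x
    obtain ⟨q, q1, q2⟩ := t f v (y ▸ x)
    rw [p1, q1, h1 (Sum.inl_injective (p2.symm.trans (y.trans q2)))]
  · have hQ := (mem_filter.1 u).2
    refine ⟨fun i j => by simp, ?_, ?_, ?_, ?_, ?_, ?_⟩
    iterate 4 simp [ga, gb, hQ, tA, tB]
    · simpa [ga, hQ, tA, nd] using cl Q hQ false
    · simpa [gb, hQ, tB, nd] using cl Q hQ true
  · simp [ga, gb, (mem_filter.1 u).2, tA, tB, nd, TT]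
  · fin_cases i <;> simp_all [gb, tB, nd]

end Cfg

end Pool.Agent.P.MP_92d394_lc
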