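import Pool.Agent.P.MP_92d394_lc.Q7

/-! Realisation of a join with gaps as a tour. -/

set_option linter.unusedSectionVars false
set_option synthInstance.maxSize 2000

namespace Pool.Agent.P.MP_92d394_lc

open Finset

/-- Colours of the six nodes. -/
def om (ω : Fin 4 → ZMod 2) (l r : ZMod 2) : Fin 6 → ZMod 2 := ![ω 0, ω 1, ω 2, ω 3, l, r]

/-- Parity sum of the five edges. -/
def sm (s : Fin 3) (z : Fin 5 → Fin 3) (ω : Fin 4 → ZMod 2) : ZMod 2 :=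
  ∑ i, ((z i : ℕ) : ZMod 2) * (om ω 0 0 (tA s i) + om ω 0 0 (tB s i))

/-- A colouring extends so that only dropped edges are cut. -/
abbrev Ex (s : Fin 3) (z : Fin 5 → Fin 3) (ω : Fin 4 → ZMod 2) : Prop :=
  ∃ l r, ∀ i, om ω l r (tA s i) ≠ om ω l r (tB s i) → z i = 0

/-- Local parity and connectivity. -/
abbrev LP (s : Fin 3) (z : Fin 5 → Fin 3) (m : Fin 4 → Fin 3) : Prop :=
  ∀ ω : Fin 4 → ZMod 2, ∑ j, ((m j : ℕ) : ZMod 2) * (ω j + ω (j + 1)) = sm s z ω ∧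
    ((∀ j, (m j : ℕ) ≠ 0 → ω j = ω (j + 1)) → Ex s z ω)

/-- The penalised patterns. -/
abbrev PP (z : Fin 5 → Fin 3) : Prop :=
  z 4 = 1 ∧ ((z 0 ≠ 1 ↔ z 2 ≠ 1) ↔ ((z 0 = 0 ∨ z 3 = 0) ↔ (z 1 = 0 ∨ z 2 = 0)))

/-- The patterns at a live square. -/
abbrev Pt (z : Fin 5 → Fin 3) : Prop :=
  (z 4 ≠ 1 ∧ z 0 = 1 ∧ z 1 = 1 ∧ z 2 = 1 ∧ z 3 = 1) ∨
    (z 4 = 1 ∧ ¬ (z 0 ≠ 1 ↔ z 3 ≠ 1) ∧ ¬ (z 1 ≠ 1 ↔ z 2 ≠ 1))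

theorem locT : ∀ z : Fin 3 → Fin 3, (univ.filter fun i => z i ≠ 1).card = 1 →
    ∃ m : Fin 3 → Fin 2, (∀ i, (m i : ℕ) + m (i + 2) = z i) ∧ ∀ ω : Fin 3 → ZMod 2,
      ∑ i, ((m i : ℕ) : ZMod 2) * (ω i + ω (i + 1)) = ∑ i, ((z i : ℕ) : ZMod 2) * ω i ∧
      ((∀ i, (m i : ℕ) ≠ 0 → ω i = ω (i + 1)) → ∃ l, ∀ i, l ≠ ω i → z i = 0) := by
  decide +kernel

theorem locA : ∀ z : Fin 5 → Fin 3, LP 1 z ![0, z 1, 0, z 0] ∧ LP 2 z ![z 0, 0, z 2, 0] := by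
  decide +kernel

theorem locI : ∀ z : Fin 5 → Fin 3, Pt z → z 4 = 2 → z = ![1, 1, 1, 1, 2] ∧
    ∀ ω : Fin 4 → ZMod 2, ∑ j, ω j = sm 0 z ω ∧ ((∀ j, ω j = ω 0) → Ex 0 z ω) := by
  decide +kernel

theorem locS : ∀ z : Fin 5 → Fin 3, Pt z → z 4 ≠ 2 → ∀ s t : Fin 4, s = 0 ∨ s = 2 → t = 1 ∨ t = 3 →
    ∃ m : Fin 4 → Fin 3, (∀ i, i ≠ s → i ≠ t → (m i : ℕ) + m (i + 3) ≤ z i.castSucc) ∧
      (m 0 : ℕ) + m 2 ≤ z 4 ∧ 2 * (m 0 + m 1 + m 2 + m 3 : ℕ) ≤ z 0 + z 1 + z 2 + z 3 +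
        (if PP z then 2 else 0) ∧ LP 0 z m := by
  decide +kernel

theorem exLam (c : Fin 4 → ℝ) (h0 : ∀ j, 0 ≤ c j) (h1 : c 0 ≤ c 1 + c 2 + c 3)
    (h2 : c 2 ≤ c 0 + c 1 + c 3) (h3 : c 1 + c 3 ≤ c 0 + c 2) : ∃ (Λ : Fin 5 → ℝ) (δ : ℝ),
    0 ≤ δ ∧ 0 ≤ Λ 4 ∧ (∀ i, i ≠ 4 → δ ≤ Λ i) ∧ (Λ 0 = δ ∨ Λ 2 = δ) ∧ (Λ 1 = δ ∨ Λ 3 = δ) ∧
      c 0 = Λ 0 + Λ 1 + Λ 4 ∧ c 1 = Λ 1 + Λ 2 ∧ c 2 = Λ 2 + Λ 3 + Λ 4 ∧ c 3 = Λ 3 + Λ 0 := by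
  have t : ∀ α : ℝ, ∃ p q, 0 ≤ p ∧ 0 ≤ q ∧ p - q = α ∧ (p = 0 ∨ q = 0) := fun α => by
    rcases le_total 0 α with k | k
    exacts [⟨α, 0, k, le_rfl, sub_zero _, Or.inr rfl⟩, ⟨0, -α, le_rfl, by linarith, by ring,
      Or.inl rfl⟩]
  obtain ⟨p0, p2, a1, a2, a3, a4⟩ := t ((c 0 - c 2 + c 3 - c 1) / 2)
  obtain ⟨p1, p3, b1, b2, b3, b4⟩ := t ((c 0 - c 2 - c 3 + c 1) / 2)
  obtain ⟨δ, e⟩ : ∃ δ, 4 * δ = c 1 + c 3 - p0 - p1 - p2 - p3 := ⟨_ / 4, mul_div_cancel₀ _ four_ne_zero⟩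
  have := h0 1
  have := h0 3
  refine ⟨![p0 + δ, p1 + δ, p2 + δ, p3 + δ, (c 0 + c 2 - c 1 - c 3) / 2], δ, ?_, ?_, fun i => ?_,
    by simpa using a4, by simpa using b4, ?_, ?_, ?_, ?_⟩
  · rcases a4 with a4 | a4 <;> rcases b4 with b4 | b4 <;> linarith
  · simp; linarith
  · fin_cases i <;> simp [a1, a2, b1, b2]
  all_goals simp; linarith

theorem locQ (c : Fin 4 → ℝ) (s : Fin 3) (h0 : ∀ j, 0 ≤ c j) (h1 : c 0 ≤ c 1 + c 2 + c 3)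
    (h2 : c 2 ≤ c 0 + c 1 + c 3) (h3 : c 1 + c 3 ≤ c 0 + c 2) : ∃ (Λ : Fin 5 → ℝ) (δ : ℝ),
    (∀ i, 0 ≤ Λ i) ∧ 0 ≤ δ ∧ ∑ i, Λ i = ![(c 0 + c 1 + c 2 + c 3) / 2, c 1 + c 3, c 0 + c 2] s ∧
    (s = 0 → (∀ i, i ≠ 4 → δ ≤ Λ i) ∧ (Λ 0 = δ ∨ Λ 2 = δ) ∧ (Λ 1 = δ ∨ Λ 3 = δ)) ∧
    ∀ z : Fin 5 → Fin 3, (s = 0 → Pt z) → ∃ m : Fin 4 → Fin 3, ∀ B,
      B = ∑ i, (z i : ℕ) * Λ i + (if s = 0 ∧ PP z then 2 * δ else 0) →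
      (s = 0 ∧ z 4 = 2 → (c 0 + c 2 ≤ B ∧ c 1 + c 3 ≤ B) ∧ ∀ ω : Fin 4 → ZMod 2,
        ∑ j, ω j = sm s z ω ∧ ((∀ j, ω j = ω 0) → Ex s z ω)) ∧
      (¬ (s = 0 ∧ z 4 = 2) → ∑ j, (m j : ℕ) * c j ≤ B ∧ LP s z m) := by
  fin_cases s
  · obtain ⟨Λ, δ, a1, a2, a3, a4, a5, e0, e1, e2, e3⟩ := exLam c h0 h1 h2 h3
    refine ⟨Λ, δ, fun i => ?_, a1, ?_, fun _ => ⟨a3, a4, a5⟩, fun z hz => ?_⟩
    · by_cases k : i = 4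
      exacts [k ▸ a2, a1.trans (a3 i k)]
    · simp [Fin.sum_univ_five]; linarith
    by_cases k : z 4 = 2
    · obtain ⟨rfl, q⟩ := locI z (hz rfl) k
      refine ⟨0, fun B e => ⟨fun _ => ⟨?_, q⟩, fun u => absurd ⟨rfl, k⟩ u⟩⟩
      simp [Fin.sum_univ_five, PP] at e
      constructor <;> linarith
    obtain ⟨s, s1, s2⟩ : ∃ s : Fin 4, (s = 0 ∨ s = 2) ∧ Λ s.castSucc = δ :=
      a4.elim (fun u => ⟨0, Or.inl rfl, u⟩) fun u => ⟨2, Or.inr rfl, u⟩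
    obtain ⟨t, t1, t2⟩ : ∃ s : Fin 4, (s = 1 ∨ s = 3) ∧ Λ s.castSucc = δ :=
      a5.elim (fun u => ⟨1, Or.inl rfl, u⟩) fun u => ⟨3, Or.inr rfl, u⟩
    obtain ⟨m, m1, m2, m3, m4⟩ := locS z (hz rfl) k s t s1 t1
    refine ⟨m, fun B e => ⟨fun u => absurd u.2 k, fun _ => ⟨?_, m4⟩⟩⟩
    have q : ∀ i : Fin 4, (((m i : ℕ) : ℝ) + (m (i + 3) : ℕ)) * (Λ i.castSucc - δ) ≤
        (z i.castSucc : ℕ) * (Λ i.castSucc - δ) := fun i => by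
      by_cases u : i = s
      · simp [u, s2]
      by_cases v : i = t
      · simp [v, t2]
      exact mul_le_mul_of_nonneg_right (by exact_mod_cast m1 i u v)
        (sub_nonneg.2 (a3 _ (Fin.castSucc_ne_last i)))
    have q0 : (((m 0 : ℕ) : ℝ) + (m 3 : ℕ)) * (Λ 0 - δ) ≤ (z 0 : ℕ) * (Λ 0 - δ) := q 0
    have q1 : (((m 1 : ℕ) : ℝ) + (m 0 : ℕ)) * (Λ 1 - δ) ≤ (z 1 : ℕ) * (Λ 1 - δ) := q 1
    have q2 : (((m 2 : ℕ) : ℝ) + (m 1 : ℕ)) * (Λ 2 - δ) ≤ (z 2 : ℕ) * (Λ 2 - δ) := q 2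
    have q3 : (((m 3 : ℕ) : ℝ) + (m 2 : ℕ)) * (Λ 3 - δ) ≤ (z 3 : ℕ) * (Λ 3 - δ) := q 3
    have q4 := mul_le_mul_of_nonneg_right (Nat.cast_le (α := ℝ).2 m2) a2
    have q5 := mul_le_mul_of_nonneg_right (Nat.cast_le (α := ℝ).2 m3) a1
    rw [Fin.sum_univ_four, e, Fin.sum_univ_five, e0, e1, e2, e3]
    by_cases u : PP z
    · rw [if_pos u] at q5
      rw [if_pos ⟨rfl, u⟩]
      push_cast at q4 q5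
      linarith
    · rw [if_neg u] at q5
      rw [if_neg fun v => u v.2]
      push_cast at q4 q5
      linarith
  · refine ⟨![c 3, c 1, 0, 0, 0], 0, fun i => ?_, le_rfl, ?_, by simp, fun z _ =>
      ⟨_, fun B e => ⟨by simp, fun _ => ⟨?_, (locA z).1⟩⟩⟩⟩
    · fin_cases i <;> simp [h0]
    · simp [Fin.sum_univ_five, add_comm]
    · simp [Fin.sum_univ_five, Fin.sum_univ_four, e, add_comm]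
  · refine ⟨![c 0, 0, c 2, 0, 0], 0, fun i => ?_, le_rfl, ?_, by simp, fun z _ =>
      ⟨_, fun B e => ⟨by simp, fun _ => ⟨?_, (locA z).2⟩⟩⟩⟩
    · fin_cases i <;> simp [h0]
    · simp [Fin.sum_univ_five]
    · simp [Fin.sum_univ_five, Fin.sum_univ_four, e]

end Pool.Agent.P.MP_92d394_lc
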