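import Pool.Agent.P.MP_92d394_lc.Q8

/-! The bound for irreducible configurations. -/

set_option linter.unusedSectionVars false
set_option synthInstance.maxSize 2000

namespace Pool.Agent.P.MP_92d394_lc

open Finset

section
variable {W E : Type} [Fintype W] [DecidableEq W] [Fintype E] [DecidableEq E] {a b : E → W}
  {J F : Finset E}

/-- Multiplicities. -/
def zz (J F : Finset E) (e : E) : Fin 3 := if e ∈ F then 0 else if e ∈ J then 2 else 1

theorem zz_zero {e : E} : zz J F e = 0 ↔ e ∈ F := by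
  unfold zz; split_ifs <;> simp [*]

theorem zz_one (h : F ⊆ J) {e : E} : zz J F e = 1 ↔ e ∉ J := by
  have := @h e
  unfold zz; split_ifs <;> simp_all

theorem zz_par (h : F ⊆ J) (g : G3 a b J) (φ : W → ZMod 2) :
    ∑ e, ((zz J F e : ℕ) : ZMod 2) * (φ (a e) + φ (b e)) = 0 := by
  have t : ∀ e, ((zz J F e : ℕ) : ZMod 2) * (φ (a e) + φ (b e)) =
      (φ (a e) + φ (b e)) + if e ∈ J then φ (a e) + φ (b e) else 0 := fun e => by
    have := @h e
    unfold zz
    generalize φ (a e) + φ (b e) = s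
    split_ifs <;> simp_all <;> revert s <;> decide
  simp only [t]
  rw [sum_add_distrib, ← sum_filter, filter_mem_eq_inter, univ_inter, sum_card, sum_card,
    univ_inter, (ZMod.natCast_eq_natCast_iff' _ _ _).2 (g φ).1, CharTwo.add_self_eq_zero]

theorem zz_sum (h : F ⊆ J) (L : E → ℝ) :
    ∑ e, (zz J F e : ℕ) * L e = ∑ e, L e + (∑ e ∈ J, L e - 2 * ∑ e ∈ F, L e) := by
  have t : ∀ X : Finset E, ∑ e ∈ X, L e = ∑ e, if e ∈ X then L e else 0 := fun X => by simp
  rw [t J, t F, mul_sum, ← sum_sub_distrib, ← sum_add_distrib]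
  refine sum_congr rfl fun e _ => ?_
  have := @h e
  unfold zz
  split_ifs <;> simp_all <;> ring
end

variable {V U Tr S : Type} [Fintype V] [DecidableEq V] [Fintype U] [DecidableEq U] [Fintype Tr]
  [DecidableEq Tr] [Fintype S] [DecidableEq S]

namespace Cfg

variable {D : Cfg V U Tr S} {st : S → Fin 3}

theorem nd_om (φ : V → ZMod 2) (τ : Tr → ZMod 2) (l r : S → ZMod 2) (Q : S) (k : Fin 6) :
    Sum.elim φ (Sum.elim τ fun t : S × Bool => if t.2 then r t.1 else l t.1) (D.nd Q k) =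
      om (fun j => φ (D.w Q j)) (l Q) (r Q) k := by
  fin_cases k <;> rfl

theorem three (h1 : D.Inj) (h2 : D.Deg st) (h3 : D.Two st) (h6 : 6 ≤ Fintype.card V)
    {e : U ⊕ Tr × Fin 3 ⊕ S × Fin 5} (n : D.ga st e ≠ D.gb st e) :
    3 ≤ (cls (D.ga st) (D.gb st) e).card ∨ ∃ Q, st Q = 0 ∧ e = .inr (.inr (Q, 4)) := by
  by_cases k : D.gb st e ∈ univ.image .inl
  · exact Or.inl ((sn h1 h2 h3).three (by
      rw [card_image_of_injective _ Sum.inl_injective, card_univ]; omega) n k)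
  rcases e with e | t | ⟨Q, i⟩
  · simp [gb] at k
  · simp [gb] at k
  · refine Or.inr ⟨Q, ?_⟩
    simp only [gb] at k
    generalize st Q = s at k
    fin_cases s <;> fin_cases i <;> simp [nd, tB] at k ⊢

theorem irr (h1 : D.Inj) (h2 : D.Deg st) (h3 : D.Two st) (h6 : 6 ≤ Fintype.card V)
    (h4 : ∀ Q, st Q = 0 → 3 ≤ (cls (D.ga st) (D.gb st) (.inr (.inr (Q, 4)))).card)
    {c : V → V → ℝ} (hc : IsMetric c) (hd : ∀ Q, D.cs c Q 1 + D.cs c Q 3 ≤ D.cs c Q 0 + D.cs c Q 2)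
    (Φ : ℝ) (hΦ : ∀ k₁ k₂ k₃ : ℕ, 3 ≤ k₁ → 3 ≤ k₂ → 3 ≤ k₃ → k₁ + k₂ + k₃ ≤ Fintype.card V + 3 →
      Φ ≤ k₁ / (k₁ - 2) + k₂ / (k₂ - 2) + k₃ / (k₃ - 2)) (p0 : 0 < Φ) :
    ∃ x, (x ∈ SubP V ∧ ∀ u v, ∃ k : ℤ, x u v = k) ∧ Φ * dot c x ≤ (Φ + 1) * D.cost st c := by
  have N := sn h1 h2 h3
  have tr : ∀ p q r s, c p q ≤ c q r + c r s + c s p := fun p q r s => by
    linarith [hc.2.2.2 q p r, hc.2.2.2 r p s, hc.1 p q]
  choose Λ δ a1 a2 a3 a4 a5 using fun Q => locQ (D.cs c Q) (st Q) (fun j => hc.2.2.1 _ _)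
    (tr _ _ _ _) (by
      have : D.cs c Q 2 ≤ D.cs c Q 3 + D.cs c Q 0 + D.cs c Q 1 := tr _ _ _ _
      linarith) (hd Q)
  set κ : Tr → Fin 3 → ℝ := fun t i => c (D.tv t i) (D.tv t (i + 1)) with hκ
  set L : U ⊕ Tr × Fin 3 ⊕ S × Fin 5 → ℝ := Sum.elim (fun e => c (D.o₁ e) (D.o₂ e))
    (Sum.elim (fun t => (κ t.1 t.2 + κ t.1 (t.2 + 2) - κ t.1 (t.2 + 1)) / 2) fun t => Λ t.1 t.2)
    with hL
  have cR : (univ.image (Sum.inl : V → V ⊕ Tr ⊕ S × Bool)).card = Fintype.card V := by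
    rw [card_image_of_injective _ Sum.inl_injective, card_univ]
  obtain ⟨J, F, f1, g3, f2, f3⟩ := N.main'
    (fun e n => (three h1 h2 h3 h6 n).elim id fun ⟨Q, u, v⟩ => v ▸ h4 Q u) (cR ▸ h6) L δ (by
      rintro (e | ⟨t, i⟩ | t)
      · exact hc.2.2.1 _ _
      · have := hc.2.2.2 (D.tv t (i + 1)) (D.tv t (i + 2)) (D.tv t i)
        simp only [hL, hκ, Sum.elim_inl, Sum.elim_inr, add_assoc,
          show (2 : Fin 3) + 1 = 0 from rfl, show (1 : Fin 3) + 1 = 2 from rfl, add_zero]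
        linarith [hc.1 (D.tv t i) (D.tv t (i + 1)), hc.1 (D.tv t i) (D.tv t (i + 2))]
      · exact a1 _ _) a2 (fun Q u => (a4 Q (mem_filter.1 u).2).1)
    (fun Q u => (a4 Q (mem_filter.1 u).2).2) Φ (cR ▸ hΦ) p0
  have on := fun Q (u : st Q = 0) => (N.loc Q (mem_filter.2 ⟨mem_univ _, u⟩)).one g3
  choose μ m1 m2 using fun t => locT (fun i => zz J F (.inr (.inl (t, i)))) (by
    have := (g3 _).2 (N.dT (.inr (.inl t)) (by simp [TT]))
    rw [ct, inter_comm, ← filter_mem_eq_inter, filter_image,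
      card_image_of_injective _ fun i j => by simp] at this
    simpa only [ne_eq, zz_one f1, not_not] using this)
  choose m hm using fun Q => a5 Q (fun i => zz J F (.inr (.inr (Q, i)))) fun u => by
    simpa only [Pt, ne_eq, zz_one f1, not_not] using on Q u
  replace hm := fun Q => hm Q _ rfl
  refine (tour_sq hc (by omega) (K := U ⊕ Tr × Fin 3)
    (Sum.elim D.o₁ fun t => D.tv t.1 t.2) (Sum.elim D.o₂ fun t => D.tv t.1 (t.2 + 1))
    (Sum.elim (fun e => zz J F (.inl e)) fun t => μ t.1 t.2) D.w (fun Q j => m Q j)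
    (univ.filter fun Q => st Q = 0 ∧ zz J F (.inr (.inr (Q, 4))) = 2) _ (fun φ => ?_)
    (fun φ u1 u2 u3 => ?_) (fun Q u => ((hm Q).1 (mem_filter.1 u).2).1)
    fun Q u => ((hm Q).2 fun v => u (mem_filter.2 ⟨mem_univ _, v⟩)).1).elim fun x ⟨x1, x2⟩ => ?_
  rotate_left 2
  · refine ⟨x, x1, (mul_le_mul_of_nonneg_left x2 p0.le).trans ?_⟩
    have e1 : ∑ e, L e = D.cost st c := by
      simp only [cost, Fintype.sum_sum_type, Fintype.sum_prod_type, hL, Sum.elim_inl,
        Sum.elim_inr, a3]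
      congr 2
      refine sum_congr rfl fun t _ => ?_
      change _ = (∑ i, κ t i) / 2
      simp [Fin.sum_univ_three]
      ring
    have e2 : ∑ Q ∈ univ.filter fun Q => st Q = 0, pen (fun Q i => .inr (.inr (Q, i))) δ J F Q =
        ∑ Q, if st Q = 0 ∧ PP fun i => zz J F (.inr (.inr (Q, i))) then 2 * δ Q else 0 := by
      rw [sum_filter]
      refine sum_congr rfl fun Q _ => ?_
      by_cases u : st Q = 0
      · have := on Q u
        have := fun i => @f1 (.inr (.inr (Q, i)))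
        simp only [u, if_true, true_and, pen, PP, ne_eq, zz_one f1, zz_zero, not_not, lft, rgt]
        refine if_congr ?_ rfl rfl
        grind
      · simp [u]
    have e3 := zz_sum f1 L
    have e4 : ∀ t, ∑ i, (μ t i : ℕ) * κ t i = ∑ i, (zz J F (.inr (.inl (t, i))) : ℕ) *
        ((κ t i + κ t (i + 2) - κ t (i + 1)) / 2) := fun t => by
      simp only [← m1]
      simp [Fin.sum_univ_three]
      ring
    rw [e1] at e3 f3
    rw [e2] at f3
    simp only [Fintype.sum_sum_type, Fintype.sum_prod_type, hL, Sum.elim_inl, Sum.elim_inr,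
      ← e4] at e3
    simp only [Fintype.sum_sum_type, Fintype.sum_prod_type, Sum.elim_inl, Sum.elim_inr,
      sum_add_distrib]
    nlinarith
  · rw [← zz_par f1 g3 (Sum.elim φ (Sum.elim 0 fun t : S × Bool =>
      if t.2 then (0 : S → ZMod 2) t.1 else (0 : S → ZMod 2) t.1))]
    simp only [Fintype.sum_sum_type, Fintype.sum_prod_type, Sum.elim_inl, Sum.elim_inr, ga, gb,
      nd_om, add_assoc]
    congr 2
    · simpa using sum_congr rfl fun t _ => (m2 t fun i => φ (D.tv t i)).1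
    · refine sum_congr rfl fun Q _ => ?_
      split_ifs with u
      · exact (((hm Q).1 (mem_filter.1 u).2).2 fun j => φ (D.w Q j)).1
      · exact (((hm Q).2 fun v => u (mem_filter.2 ⟨mem_univ _, v⟩)).2 fun j => φ (D.w Q j)).1
  · choose τ hτ using fun t => (m2 t fun i => φ (D.tv t i)).2 fun i => u1 (.inr (t, i))
    have : ∀ Q, Ex (st Q) (fun i => zz J F (.inr (.inr (Q, i)))) fun j => φ (D.w Q j) := fun Q => by
      by_cases u : st Q = 0 ∧ zz J F (.inr (.inr (Q, 4))) = 2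
      · exact (((hm Q).1 u).2 _).2 (u3 Q (mem_filter.2 ⟨mem_univ _, u⟩))
      · exact (((hm Q).2 u).2 _).2 (u2 Q fun v => u (mem_filter.1 v).2)
    choose l r hl using this
    refine h3 (Sum.elim φ (Sum.elim τ fun t : S × Bool => if t.2 then r t.1 else l t.1)) ?_
    rw [f2 _ ?_]
    · simp
    rintro (e | ⟨t, i⟩ | ⟨Q, i⟩) he <;> rw [mem_cut] at he <;> rw [← zz_zero (J := J)]
    · by_contra z
      exact he (u1 (.inl e) fun v => z (Fin.ext v))
    · exact hτ t i he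
    · exact hl Q i (by simpa only [ga, gb, nd_om] using he)

end Cfg

end Pool.Agent.P.MP_92d394_lc
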