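import Pool.Agent.P.MP_92d394_lc.TJ2

/-! Series classes in a bridgeless network with Steiner vertices of degree three. -/

set_option linter.unusedSectionVars false

namespace Pool.Agent.P.MP_92d394_lc

open Finset

variable {W E : Type} [Fintype W] [DecidableEq W] [Fintype E] [DecidableEq E]

/-- A bridgeless network: vertices of `T` have degree three, those of `R` degree two, and each
vertex of `R` has at most one edge to `T`. -/
structure Net (a b : E → W) (T R : Finset W) : Prop where
  nl : ∀ e, a e ≠ b e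
  bR : ∀ e, b e ∈ R
  aTR : ∀ e, a e ∈ T ∨ a e ∈ R
  dj : Disjoint T R
  dT : ∀ t ∈ T, (cut a b (sg t)).card = 3
  dR : ∀ v ∈ R, (cut a b (sg v)).card = 2
  inj : ∀ e f, a e ∈ T → a f ∈ T → b e = b f → e = f
  br : ∀ φ, (cut a b φ).card ≠ 1

/-- Series equivalence. -/
def eqv (a b : E → W) (e f : E) : Prop := e = f ∨ ∃ φ, cut a b φ = {e, f}

open Classical in
/-- Series classes. -/
noncomputable def cls (a b : E → W) (e : E) : Finset E := univ.filter (eqv a b e)

/-- Closed edge sets. -/
def Cld (a b : E → W) (X : Finset E) : Prop := ∀ e ∈ X, ∀ f, eqv a b e f → f ∈ X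

/-- Number of spokes. -/
def spk (a : E → W) (T : Finset W) (X : Finset E) : ℕ := (X.filter fun e => a e ∈ T).card

/-- Joins meeting every three element cut once. -/
def Tight (a b : E → W) (T : Finset W) (J : Finset E) : Prop :=
  Join a b (Subtype.val : T → W) J ∧ ∀ φ, (cut a b φ).card = 3 → (J ∩ cut a b φ).card = 1

variable {a b : E → W} {T R : Finset W}

theorem mem_cls {e f : E} : f ∈ cls a b e ↔ eqv a b e f := by simp [cls]

theorem mem_cut_add {φ ψ : W → ZMod 2} {e : E} :
    e ∈ cut a b (φ + ψ) ↔ ¬ (e ∈ cut a b φ ↔ e ∈ cut a b ψ) := by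
  simp only [mem_cut, Pi.add_apply]
  generalize φ (a e) = p, φ (b e) = q, ψ (a e) = r, ψ (b e) = s
  revert p q r s
  decide

theorem eqv.symm {e f : E} (h : eqv a b e f) : eqv a b f e :=
  h.imp Eq.symm fun ⟨φ, k⟩ => ⟨φ, k.trans (pair_comm _ _)⟩

theorem eqv.trans {e f g : E} (h : eqv a b e f) (k : eqv a b f g) : eqv a b e g := by
  by_cases h1 : e = f
  · exact h1 ▸ k
  by_cases h2 : f = g
  · exact h2 ▸ h
  by_cases h3 : e = g
  · exact Or.inl h3
  obtain ⟨φ, h⟩ := h.resolve_left h1
  obtain ⟨ψ, k⟩ := k.resolve_left h2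
  refine Or.inr ⟨φ + ψ, ext fun x => ?_⟩
  rw [mem_cut_add, h, k]
  simp only [mem_insert, mem_singleton]
  grind

theorem cls_cld (e : E) : Cld a b (cls a b e) := fun _ h _ k =>
  mem_cls.2 ((mem_cls.1 h).trans k)

theorem self_cls (e : E) : e ∈ cls a b e := mem_cls.2 (Or.inl rfl)

theorem cls_eq {e f : E} (h : eqv a b e f) : cls a b e = cls a b f :=
  ext fun _ => by rw [mem_cls, mem_cls]; exact ⟨h.symm.trans, h.trans⟩

theorem cls_disj {e f : E} (h : ¬ eqv a b e f) : Disjoint (cls a b e) (cls a b f) :=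
  disjoint_left.2 fun _ p q => h ((mem_cls.1 p).trans (mem_cls.1 q).symm)

theorem Cld.sdiff {X Y : Finset E} (h : Cld a b X) (k : Cld a b Y) : Cld a b (X \ Y) :=
  fun e he f q => mem_sdiff.2 ⟨h e (mem_sdiff.1 he).1 f q,
    fun r => (mem_sdiff.1 he).2 (k f r e q.symm)⟩

theorem Cld.union {X Y : Finset E} (h : Cld a b X) (k : Cld a b Y) : Cld a b (X ∪ Y) :=
  fun e he f q => mem_union.2 ((mem_union.1 he).imp (h e · f q) (k e · f q))

theorem Cld.cases {X : Finset E} (h : Cld a b X) (e : E) :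
    cls a b e ⊆ X ∨ Disjoint X (cls a b e) := by
  by_cases k : e ∈ X
  · exact Or.inl fun f q => h e k f (mem_cls.1 q)
  · exact Or.inr (disjoint_left.2 fun f p q => k (h f p e (mem_cls.1 q).symm))

theorem Net.join (h : Net a b T R) : Join a b (Subtype.val : T → W) univ := fun φ => by
  have e1 : ∑ e, (φ (a e) + φ (b e)) = ∑ v, φ v * ∑ e, (sg v (a e) + sg v (b e)) := by
    simp only [mul_sum, mul_add, sg]
    rw [sum_comm]
    simp [sum_add_distrib]
  rw [e1, par, sum_coe_sort T φ]
  simp only [sum_card, univ_inter]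
  rw [← sum_subset (subset_univ T) fun v _ hv => ?_]
  · exact sum_congr rfl fun t ht => by rw [h.dT t ht]; exact mul_one _
  · by_cases k : v ∈ R
    · rw [h.dR v k]; exact mul_zero _
    · rw [show cut a b (sg v) = ∅ from eq_empty_of_forall_notMem fun e he => ?_]
      · simp
      · rcases mem_sg.1 he with ⟨p, -⟩ | ⟨p, -⟩
        · exact (h.aTR e).elim (fun q => hv (p ▸ q)) fun q => k (p ▸ q)
        · exact k (p ▸ h.bR e)

theorem Net.par (h : Net a b T R) (φ : W → ZMod 2) :
    par (Subtype.val : T → W) φ = ((cut a b φ).card : ZMod 2) := by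
  rw [← h.join φ, sum_card, univ_inter]

theorem Net.ex_tight (h : Net a b T R) (g : E → ℝ) (hg : ∀ e, 0 ≤ g e) :
    ∃ J, Tight a b T J ∧ 3 * ∑ e ∈ J, g e ≤ ∑ e, g e := by
  have fe : Feas a b (Subtype.val : T → W) fun _ => 1 / 3 := ⟨fun _ => by norm_num, fun φ p => by
    rw [h.par] at p
    have p1 := (ZMod.natCast_eq_one_iff_odd).1 p
    have p2 := h.br φ
    have p3 : (3 : ℝ) ≤ (cut a b φ).card := by
      obtain ⟨r, p1⟩ := p1
      exact_mod_cast (show 3 ≤ (cut a b φ).card by omega)
    rw [sum_const, nsmul_eq_mul]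
    linarith⟩
  obtain ⟨J, -, jo, c1, co⟩ := (tj _ _ _ _ fe).once fe.1
    (univ.filter fun φ => (cut a b φ).card = 3) id
    (fun φ p => by rw [id, h.par, (mem_filter.1 p).2]; rfl)
    (fun φ p => by rw [id, sum_const, (mem_filter.1 p).2]; norm_num) g hg
  refine ⟨J, ⟨jo, fun φ p => c1 φ (mem_filter.2 ⟨mem_univ _, p⟩)⟩, ?_⟩
  have := co.trans (sum_le_univ_sum_of_nonneg fun e => mul_nonneg (hg e) (fe.1 e))
  rw [← sum_mul] at this
  linarith

theorem Net.cld (h : Net a b T R) {J : Finset E} (hJ : Join a b (Subtype.val : T → W) J) :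
    Cld a b J := fun e he f q => by
  by_cases k : e = f
  · exact k ▸ he
  obtain ⟨φ, q⟩ := q.resolve_left k
  by_contra r
  have := hJ φ
  rw [h.par, sum_card, q, card_pair k, show J ∩ {e, f} = {e} from ext fun x => by
    simp only [mem_inter, mem_insert, mem_singleton]; grind, card_singleton] at this
  exact absurd this (by decide)

theorem Net.spoke (h : Net a b T R) {t : W} (ht : t ∈ T) {e : E} :
    e ∈ cut a b (sg t) ↔ a e = t := by
  rw [mem_sg]
  have : b e ≠ t := fun q => disjoint_left.1 h.dj ht (q ▸ h.bR e)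
  simp [this]

theorem Net.spk_eq (h : Net a b T R) (X : Finset E) :
    spk a T X = ∑ t ∈ T, (X ∩ cut a b (sg t)).card := by
  rw [deg_sum, spk, card_filter]
  refine sum_congr rfl fun e _ => ?_
  rw [filter_congr (q := fun t => a e = t) fun t ht => h.spoke ht, filter_eq]
  split_ifs <;> rfl

theorem spk_union {X Y : Finset E} (h : Disjoint X Y) :
    spk a T (X ∪ Y) = spk a T X + spk a T Y := by
  unfold spk
  rw [filter_union, card_union_of_disjoint (disjoint_filter_filter h)]

theorem Net.spk_univ (h : Net a b T R) : spk a T univ = 3 * T.card := by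
  rw [h.spk_eq, sum_congr rfl fun t ht => by rw [univ_inter, h.dT t ht]]
  simp [mul_comm]

theorem Net.spk_tight (h : Net a b T R) {J : Finset E} (hJ : Tight a b T J) :
    spk a T J = T.card := by
  rw [h.spk_eq, sum_congr rfl fun t ht => hJ.2 _ (h.dT t ht)]
  simp

theorem Net.card (h : Net a b T R) : 2 * Fintype.card E = 2 * R.card + 3 * T.card := by
  have := deg_sum a b univ (T ∪ R)
  rw [sum_union h.dj, sum_congr rfl fun t ht => by rw [univ_inter, h.dT t ht],
    sum_congr (s₁ := R) rfl fun t ht => by rw [univ_inter, h.dR t ht],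
    sum_congr (s₁ := univ) (g := fun _ => 2) rfl fun e _ => ?_] at this
  · simp only [sum_const, smul_eq_mul, card_univ] at this
    omega
  · rw [← card_pair (h.nl e)]
    congr 1
    ext v
    have h1 := h.nl e
    have h2 := h.bR e
    have h3 := h.aTR e
    simp only [mem_filter, mem_union, mem_sg, mem_insert, mem_singleton]
    grind

theorem Net.low (h : Net a b T R) {X : Finset E} (hX : Cld a b X) :
    3 * spk a T X ≤ 2 * X.card := by
  set O := (X.filter fun e => a e ∈ T).image b with hO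
  have sO : O ⊆ R := fun v hv => by
    obtain ⟨e, -, rfl⟩ := mem_image.1 hv
    exact h.bR e
  have cO : O.card = spk a T X := card_image_of_injOn fun e he f hf q =>
    h.inj e f (mem_filter.1 he).2 (mem_filter.1 hf).2 q
  have := deg_sum a b X (T ∪ O)
  rw [sum_union (h.dj.mono_right sO), ← h.spk_eq,
    sum_congr (s₁ := O) (g := fun _ => 2) rfl fun v hv => ?_] at this
  · have k : ∑ e ∈ X, ((T ∪ O).filter fun v => e ∈ cut a b (sg v)).card ≤ ∑ e ∈ X, 2 :=
      sum_le_sum fun e _ =>
        (card_le_card ((ends_sub a b _ e).trans inter_subset_right)).trans card_le_two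
    simp only [sum_const, smul_eq_mul] at this k
    omega
  · obtain ⟨e, he, rfl⟩ := mem_image.1 hv
    have d := h.dR _ (h.bR e)
    rw [inter_eq_right.2 fun f hf => ?_, d]
    by_cases k : e = f
    · exact k ▸ (mem_filter.1 he).1
    · refine hX e (mem_filter.1 he).1 f (Or.inr ⟨sg (b e), (eq_of_subset_of_card_le
        (insert_subset (mem_sg.2 (Or.inr ⟨rfl, h.nl e⟩)) (singleton_subset_iff.2 hf)) ?_).symm⟩)
      rw [d, card_pair k]

theorem Net.up (h : Net a b T R) {X : Finset E} (hX : Cld a b X) :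
    2 * X.card + 6 * T.card ≤ 2 * R.card + 3 * spk a T X := by
  have h1 := h.low (Cld.sdiff (X := univ) (fun _ _ f _ => mem_univ f) hX)
  have h2 := spk_union (a := a) (T := T) (disjoint_sdiff (s := X) (t := univ))
  rw [union_sdiff_of_subset (subset_univ X), h.spk_univ] at h2
  have h3 := card_sdiff_add_card_eq_card (subset_univ X)
  have h4 := h.card
  rw [card_univ] at h3
  omega

theorem Net.one (h : Net a b T R) (e : E) {t : W} (ht : t ∈ T) :
    (cls a b e ∩ cut a b (sg t)).card ≤ 1 := by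
  refine card_le_one.2 fun f hf g hg => ?_
  by_contra k
  rw [mem_inter, mem_cls] at hf hg
  obtain ⟨φ, q⟩ := (hf.1.symm.trans hg.1).resolve_left k
  refine h.br (φ + sg t) ?_
  have s : cut a b φ ⊆ cut a b (sg t) := q ▸ insert_subset hf.2 (singleton_subset_iff.2 hg.2)
  rw [show cut a b (φ + sg t) = cut a b (sg t) \ cut a b φ from ext fun x => by
    rw [mem_cut_add, mem_sdiff]; have := @s x; tauto, card_sdiff_of_subset s, h.dT t ht, q,
    card_pair k]

theorem Net.spk_cls (h : Net a b T R) (e : E) : spk a T (cls a b e) ≤ T.card := by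
  rw [h.spk_eq, card_eq_sum_ones T]
  exact sum_le_sum fun t ht => h.one e ht

theorem Net.corner (h : Net a b T R) {φ : W → ZMod 2} {α α' β β' : E} (h1 : cut a b φ = {α, α'})
    (h2 : eqv a b β β') (h3 : ¬ eqv a b α β) : φ (a β) = φ (a β') := by
  by_cases k : β = β'
  · rw [k]
  obtain ⟨ψ, q⟩ := h2.resolve_left k
  have e1 : eqv a b α α' := Or.inr ⟨φ, h1⟩
  have n1 : β ≠ α := fun z => h3 (Or.inl z.symm)
  have n2 : β ≠ α' := fun z => h3 (z ▸ e1)
  have n3 : β' ≠ α := fun z => h3 (z ▸ h2.symm)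
  have n4 : β' ≠ α' := fun z => h3 (e1.trans (z ▸ h2.symm))
  have m1 : ∀ x, φ (a x) ≠ φ (b x) ↔ x = α ∨ x = α' := fun x => by
    rw [← mem_cut, h1, mem_insert, mem_singleton]
  have m2 : ∀ x, ψ (a x) ≠ ψ (b x) ↔ x = β ∨ x = β' := fun x => by
    rw [← mem_cut, q, mem_insert, mem_singleton]
  by_contra r
  set χ : W → ZMod 2 := fun w => (φ w + φ (a β')) * (ψ w + ψ (a α')) with hχ
  have c1 : β ∈ cut a b χ := by
    have u := (m1 β).not.2 (by tauto)
    have v := (m2 β).2 (Or.inl rfl)
    simp only [mem_cut, hχ]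
    revert r u v
    generalize φ (a β) = p1, φ (b β) = p2, φ (a β') = p3, ψ (a β) = p4, ψ (b β) = p5,
      ψ (a α') = p6
    revert p1 p2 p3 p4 p5 p6
    decide
  have c2 : cut a b χ ⊆ {β, α} := fun x hx => by
    simp only [mem_cut, hχ] at hx
    rw [mem_insert, mem_singleton]
    by_contra z
    by_cases z1 : x = α'
    · have v := (m2 x).not.2 (by grind)
      rw [not_not, z1] at v
      rw [z1, ← v] at hx
      revert hx
      generalize φ (a α') + φ (a β') = p1, φ (b α') + φ (a β') = p2, ψ (a α') = p3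
      revert p1 p2 p3
      decide
    by_cases z2 : x = β'
    · have v := (m1 x).not.2 (by grind)
      rw [not_not, z2] at v
      rw [z2, ← v] at hx
      revert hx
      generalize ψ (a β') + ψ (a α') = p1, ψ (b β') + ψ (a α') = p2, φ (a β') = p3
      revert p1 p2 p3
      decide
    · have u := (m1 x).not.2 (by grind)
      have v := (m2 x).not.2 (by grind)
      rw [not_not] at u v
      exact hx (by rw [u, v])
  refine h3 (eqv.symm (Or.inr ⟨χ, eq_of_subset_of_card_le c2 ?_⟩))
  have := card_pos.2 ⟨β, c1⟩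
  have := h.br χ
  have := card_le_two (a := β) (b := α)
  omega

theorem Net.two (h : Net a b T R) {e f : E} (hn : ¬ eqv a b e f) :
    spk a T (cls a b e) + spk a T (cls a b f) ≤ T.card + 2 := by
  set D := T.filter fun t => (cls a b e ∩ cut a b (sg t)).Nonempty ∧
    (cls a b f ∩ cut a b (sg t)).Nonempty with hD
  have d2 : D.card ≤ 2 := by
    by_contra k
    obtain ⟨t₁, h1, t₂, h2, t₃, h3, n1, n2, n3⟩ := two_lt_card.1 (not_le.1 k)
    simp only [hD, mem_filter] at h1 h2 h3
    obtain ⟨k1, ⟨α₁, p1⟩, β₁, q1⟩ := h1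
    obtain ⟨k2, ⟨α₂, p2⟩, β₂, q2⟩ := h2
    obtain ⟨k3, ⟨α₃, p3⟩, β₃, q3⟩ := h3
    rw [mem_inter, mem_cls, h.spoke (by assumption)] at p1 p2 p3 q1 q2 q3
    have m12 : α₁ ≠ α₂ := fun z => n1 (p1.2.symm.trans (z ▸ p2.2))
    have m13 : α₁ ≠ α₃ := fun z => n2 (p1.2.symm.trans (z ▸ p3.2))
    have m23 : α₂ ≠ α₃ := fun z => n3 (p2.2.symm.trans (z ▸ p3.2))
    obtain ⟨φ, c1⟩ := (p1.1.symm.trans p2.1).resolve_left m12
    obtain ⟨ψ, c2⟩ := (p1.1.symm.trans p3.1).resolve_left m13
    have nn : ¬ eqv a b α₁ β₁ := fun z => hn ((p1.1.trans z).trans q1.1.symm)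
    have u2 := h.corner c1 (q1.1.symm.trans q2.1) nn
    have v3 := h.corner c2 (q1.1.symm.trans q3.1) nn
    have u3 := h.corner c1 (q1.1.symm.trans q3.1) nn
    have v2 := h.corner c2 (q1.1.symm.trans q2.1) nn
    rw [q1.2, q2.2] at u2 v2
    rw [q1.2, q3.2] at u3 v3
    have m1 : ∀ x, φ (a x) ≠ φ (b x) ↔ x = α₁ ∨ x = α₂ := fun x => by
      rw [← mem_cut, c1, mem_insert, mem_singleton]
    have m2 : ∀ x, ψ (a x) ≠ ψ (b x) ↔ x = α₁ ∨ x = α₃ := fun x => by
      rw [← mem_cut, c2, mem_insert, mem_singleton]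
    refine h.br (fun w => (φ w + φ t₁) * (ψ w + ψ t₁)) (card_eq_one.2 ⟨α₁, ext fun x => ?_⟩)
    rw [mem_cut, mem_singleton]
    have zz : ∀ s : ZMod 2, s + s = 0 := by decide
    by_cases z1 : x = α₁
    · have u := (m1 x).2 (Or.inl z1)
      have v := (m2 x).2 (Or.inl z1)
      rw [z1, p1.2] at *
      revert u v
      generalize φ t₁ = r1, φ (b α₁) = r2, ψ t₁ = r3, ψ (b α₁) = r4
      revert r1 r2 r3 r4
      simp only [iff_true]
      decide
    by_cases z2 : x = α₂
    · have v := (m2 x).not.2 (by grind)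
      rw [not_not, z2, p2.2] at v
      simp [z2, p2.2, ← v, ← v2, zz, m12.symm]
    by_cases z3 : x = α₃
    · have v := (m1 x).not.2 (by grind)
      rw [not_not, z3, p3.2] at v
      simp [z3, p3.2, ← v, ← u3, zz, m13.symm]
    · have u := (m1 x).not.2 (by grind)
      have v := (m2 x).not.2 (by grind)
      rw [not_not] at u v
      simp [u, v, z1]
  rw [h.spk_eq, h.spk_eq, ← sum_add_distrib]
  calc _ ≤ ∑ t ∈ T, (1 + if (cls a b e ∩ cut a b (sg t)).Nonempty ∧
        (cls a b f ∩ cut a b (sg t)).Nonempty then 1 else 0) := sum_le_sum fun t ht => by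
          have := h.one e ht
          have := h.one f ht
          split_ifs with k
          · omega
          · simp only [← card_pos] at k
            omega
    _ ≤ _ := by
      rw [sum_add_distrib, ← card_filter, ← card_eq_sum_ones, ← hD]
      omega

end Pool.Agent.P.MP_92d394_lc
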