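import Mathlib

/-! Joins in multigraphs: basic notions and the two contraction steps. -/

set_option linter.unusedSectionVars false

namespace Pool.Agent.P.MP_92d394_lc

open Finset

variable {W E Θ : Type} [Fintype W] [DecidableEq W] [Fintype E] [DecidableEq E] [Fintype Θ]

/-- Edges whose two ends get different colours. -/
def cut (a b : E → W) (φ : W → ZMod 2) : Finset E := univ.filter fun e => φ (a e) ≠ φ (b e)

/-- Parity of the tokens. -/
def par (τ : Θ → W) (φ : W → ZMod 2) : ZMod 2 := ∑ θ, φ (τ θ)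

/-- Joins. -/
def Join (a b : E → W) (τ : Θ → W) (J : Finset E) : Prop :=
  ∀ φ : W → ZMod 2, ∑ e ∈ J, (φ (a e) + φ (b e)) = par τ φ

/-- Active edges. -/
noncomputable def act (a b : E → W) (x : E → ℝ) : Finset E :=
  univ.filter fun e => a e ≠ b e ∧ 0 < x e

/-- Feasible weights. -/
def Feas (a b : E → W) (τ : Θ → W) (x : E → ℝ) : Prop :=
  (∀ e, 0 ≤ x e) ∧ ∀ φ, par τ φ = 1 → 1 ≤ ∑ e ∈ cut a b φ, x e

/-- The conclusion. -/
def Good (a b : E → W) (τ : Θ → W) (x : E → ℝ) : Prop :=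
  ∀ g : E → ℝ, (∀ e, 0 ≤ g e) →
    ∃ J ⊆ act a b x, Join a b τ J ∧ ∑ e ∈ J, g e ≤ ∑ e ∈ act a b x, g e * x e

theorem z2 (s : ZMod 2) : s = 0 ∨ s = 1 := by revert s; decide

theorem mem_cut {a b : E → W} {φ : W → ZMod 2} {e : E} : e ∈ cut a b φ ↔ φ (a e) ≠ φ (b e) := by
  simp [cut]

theorem mem_act {a b : E → W} {x : E → ℝ} {e : E} : e ∈ act a b x ↔ a e ≠ b e ∧ 0 < x e := by
  simp [act]

theorem par_add (τ : Θ → W) (φ ψ : W → ZMod 2) : par τ (φ + ψ) = par τ φ + par τ ψ := by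
  simp [par, sum_add_distrib]

theorem sum_card (a b : E → W) (J : Finset E) (φ : W → ZMod 2) :
    ∑ e ∈ J, (φ (a e) + φ (b e)) = ((J ∩ cut a b φ).card : ZMod 2) := by
  rw [← filter_mem_eq_inter, card_filter]
  push_cast
  refine sum_congr rfl fun e _ => ?_
  simp only [mem_cut]
  generalize φ (a e) = s, φ (b e) = t
  revert s t
  decide

theorem Feas.comp {a b : E → W} {τ : Θ → W} {x : E → ℝ} (h : Feas a b τ x) (π : W → W) :
    Feas (π ∘ a) (π ∘ b) (π ∘ τ) x := ⟨h.1, fun φ hφ => h.2 (φ ∘ π) hφ⟩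

theorem act_comp (a b : E → W) (x : E → ℝ) (π : W → W) :
    act (π ∘ a) (π ∘ b) x ⊆ act a b x := fun e he => by
  rw [mem_act] at he ⊢
  exact ⟨fun h => he.1 (congrArg π h), he.2⟩

theorem Feas.par_one {a b : E → W} {τ : Θ → W} {x : E → ℝ} (h : Feas a b τ x) :
    par τ 1 = 0 := by
  rcases z2 (par τ 1) with h0 | h1
  · exact h0
  · have := h.2 1 h1
    have e : cut a b (1 : W → ZMod 2) = ∅ := by simp [cut]
    rw [e, sum_empty] at this
    linarith

theorem cut_add_one (a b : E → W) (φ : W → ZMod 2) : cut a b (φ + 1) = cut a b φ := by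
  ext e
  simp [mem_cut]

/-- Contraction of an edge of weight at least one. -/
theorem stepA {a b : E → W} {τ : Θ → W} {x : E → ℝ} (h : Feas a b τ x) {e : E}
    (he : e ∈ act a b x) (h1 : 1 ≤ x e)
    (ih : ∀ π : W → W, (act (π ∘ a) (π ∘ b) x).card < (act a b x).card →
      Good (π ∘ a) (π ∘ b) (π ∘ τ) x) : Good a b τ x := by
  intro g hg
  have hab := (mem_act.1 he).1
  set π : W → W := fun w => if w = b e then a e else w with hπ
  have hn : e ∉ act (π ∘ a) (π ∘ b) x := by simp [mem_act, hπ]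
  have hs : act (π ∘ a) (π ∘ b) x ⊆ (act a b x).erase e := fun f hf =>
    mem_erase.2 ⟨fun k => hn (k ▸ hf), act_comp a b x π hf⟩
  obtain ⟨J, hJ, jo, co⟩ := ih π ((card_le_card hs).trans_lt (card_erase_lt_of_mem he)) g hg
  have c1 : ∑ f ∈ act (π ∘ a) (π ∘ b) x, g f * x f ≤ ∑ f ∈ (act a b x).erase e, g f * x f :=
    sum_le_sum_of_subset_of_nonneg hs fun f _ _ => mul_nonneg (hg f) (h.1 f)
  have c2 := add_sum_erase (act a b x) (fun f => g f * x f) he
  have c3 : g e ≤ g e * x e := le_mul_of_one_le_right (hg e) h1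
  have k0 : ∀ φ : W → ZMod 2, φ (a e) = φ (b e) →
      ∑ f ∈ J, (φ (a f) + φ (b f)) = par τ φ := fun φ hφ => by
    have : ∀ w, φ (π w) = φ w := fun w => by
      simp only [hπ]; split_ifs with k
      · rw [k, hφ]
      · rfl
    have j := jo φ
    simpa only [par, Function.comp, this] using j
  set s : W → ZMod 2 := Pi.single (a e) 1 with hs'
  have sa : s (a e) = 1 := by simp [hs']
  have sb : s (b e) = 0 := by simp [hs', hab.symm]
  have k1 : ∀ φ : W → ZMod 2, φ (a e) ≠ φ (b e) → ∑ f ∈ J, (φ (a f) + φ (b f)) +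
      ∑ f ∈ J, (s (a f) + s (b f)) = par τ φ + par τ s := fun φ hφ => by
    rw [← par_add, ← k0 (φ + s), ← sum_add_distrib]
    · refine sum_congr rfl fun f _ => ?_
      simp only [Pi.add_apply]; ring
    · simp only [Pi.add_apply, sa, sb]
      revert hφ
      generalize φ (a e) = p, φ (b e) = q
      revert p q
      decide
  have hJ' : J ⊆ act a b x := hJ.trans (act_comp a b x π)
  by_cases k : ∑ f ∈ J, (s (a f) + s (b f)) = par τ s
  · refine ⟨J, hJ', fun φ => ?_, by nlinarith [hg e]⟩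
    by_cases hφ : φ (a e) = φ (b e)
    · exact k0 φ hφ
    · have := k1 φ hφ
      rw [k] at this
      exact add_right_cancel this
  · have heJ : e ∉ J := fun k => hn (hJ k)
    refine ⟨insert e J, insert_subset he hJ', fun φ => ?_, by rw [sum_insert heJ]; linarith⟩
    rw [sum_insert heJ]
    by_cases hφ : φ (a e) = φ (b e)
    · rw [k0 φ hφ, hφ]
      generalize φ (b e) = p, par τ φ = q
      revert p q
      decide
    · have := k1 φ hφ
      revert this k hφ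
      generalize φ (a e) = p, φ (b e) = q, par τ φ = r, par τ s = t,
        ∑ f ∈ J, (φ (a f) + φ (b f)) = u, ∑ f ∈ J, (s (a f) + s (b f)) = v
      revert p q r t u v
      decide

/-- A join meeting a tight odd cut exactly once. -/
theorem Good.once {a b : E → W} {τ : Θ → W} {x : E → ℝ} (h : Good a b τ x) (hx : ∀ e, 0 ≤ x e)
    {ι : Type} (I : Finset ι) (φ : ι → W → ZMod 2) (ho : ∀ i ∈ I, par τ (φ i) = 1)
    (ht : ∀ i ∈ I, ∑ e ∈ cut a b (φ i), x e = 1) (g : E → ℝ) (hg : ∀ e, 0 ≤ g e) :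
    ∃ J ⊆ act a b x, Join a b τ J ∧ (∀ i ∈ I, (J ∩ cut a b (φ i)).card = 1) ∧
      ∑ e ∈ J, g e ≤ ∑ e ∈ act a b x, g e * x e := by
  set B := ∑ e ∈ act a b x, g e * x e with hB
  have B0 : 0 ≤ B := sum_nonneg fun e _ => mul_nonneg (hg e) (hx e)
  obtain ⟨J, hJ, jo, co⟩ := h (fun e => g e + (B + 1) * ∑ i ∈ I, if e ∈ cut a b (φ i) then 1 else 0)
    fun e => add_nonneg (hg e) (mul_nonneg (by linarith) (sum_nonneg fun i _ => by positivity))
  have c1 : ∀ i ∈ I, 1 ≤ (J ∩ cut a b (φ i)).card := fun i hi => by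
    have := (sum_card a b J (φ i)).symm.trans ((jo _).trans (ho i hi))
    by_contra k
    rw [show (J ∩ cut a b (φ i)).card = 0 by omega] at this
    exact absurd this (by decide)
  have c2 : ∑ e ∈ J, ∑ i ∈ I, (if e ∈ cut a b (φ i) then (1 : ℝ) else 0) =
      ∑ i ∈ I, ((J ∩ cut a b (φ i)).card : ℝ) := by
    rw [sum_comm]
    refine sum_congr rfl fun i _ => ?_
    rw [← filter_mem_eq_inter, card_filter]
    push_cast
    rfl
  have c3 : ∑ e ∈ act a b x, (∑ i ∈ I, if e ∈ cut a b (φ i) then (1 : ℝ) else 0) * x e ≤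
      ∑ i ∈ I, (1 : ℝ) := by
    simp only [sum_mul]
    rw [sum_comm]
    refine sum_le_sum fun i hi => ?_
    simp only [ite_mul, one_mul, zero_mul]
    rw [← sum_filter, ← ht i hi]
    exact sum_le_sum_of_subset_of_nonneg (fun e he => (mem_filter.1 he).2) fun e _ _ => hx e
  simp only [add_mul, sum_add_distrib, mul_assoc, ← mul_sum] at co
  rw [c2, ← hB] at co
  have c4 : (B + 1) * ∑ i ∈ I, (((J ∩ cut a b (φ i)).card : ℝ) - 1) + ∑ e ∈ J, g e ≤ B := by
    rw [sum_sub_distrib]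
    have := mul_le_mul_of_nonneg_left c3 (show 0 ≤ B + 1 by linarith)
    linarith
  have c5 : ∀ i ∈ I, (0 : ℝ) ≤ ((J ∩ cut a b (φ i)).card : ℝ) - 1 := fun i hi => by
    have : (1 : ℝ) ≤ (J ∩ cut a b (φ i)).card := by exact_mod_cast c1 i hi
    linarith
  have c6 : 0 ≤ ∑ e ∈ J, g e := sum_nonneg fun e _ => hg e
  refine ⟨J, hJ, jo, fun i hi => ?_, by nlinarith [sum_nonneg c5]⟩
  by_contra k
  have k1 : (2 : ℝ) ≤ (J ∩ cut a b (φ i)).card := by
    have := c1 i hi
    exact_mod_cast (show 2 ≤ (J ∩ cut a b (φ i)).card by omega)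
  have k2 := single_le_sum c5 hi
  nlinarith

/-- The contraction of the side of colour one. -/
def ctr (φ : W → ZMod 2) (r : W) (w : W) : W := if φ w = 1 then r else w

theorem ctr_fix {φ ψ : W → ZMod 2} {r : W} (h : ∀ w, φ w = 1 → ψ w = ψ r)
    (w : W) : ψ (ctr φ r w) = ψ w := by
  unfold ctr
  split_ifs with k
  · rw [h w k]
  · rfl

theorem side {a b : E → W} {τ : Θ → W} {x : E → ℝ} (h : Feas a b τ x) {φ : W → ZMod 2}
    (ho : par τ φ = 1) (ht : ∑ e ∈ cut a b φ, x e = 1) {e₁ : E} (he : e₁ ∈ act a b x)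
    (ha : φ (a e₁) = 1) (hb : φ (b e₁) = 1)
    (ih : ∀ π : W → W, (act (π ∘ a) (π ∘ b) x).card < (act a b x).card →
      Good (π ∘ a) (π ∘ b) (π ∘ τ) x) (g : E → ℝ) (hg : ∀ e, 0 ≤ g e) :
    ∃ J ⊆ (act a b x).filter (fun e => ¬ (φ (a e) = 1 ∧ φ (b e) = 1)),
      (∀ ψ : W → ZMod 2, (∀ w, φ w = 1 → ψ w = 0) → ∑ e ∈ J, (ψ (a e) + ψ (b e)) = par τ ψ) ∧
      (J ∩ cut a b φ).card = 1 ∧
      ∑ e ∈ J, g e ≤ ∑ e ∈ (act a b x).filter (fun e => ¬ (φ (a e) = 1 ∧ φ (b e) = 1)), g e * x e := by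
  set π := ctr φ (a e₁) with hπ
  have hs : act (π ∘ a) (π ∘ b) x ⊆ (act a b x).filter (fun e => ¬ (φ (a e) = 1 ∧ φ (b e) = 1)) :=
    fun f hf => mem_filter.2 ⟨act_comp a b x π hf, fun k => (mem_act.1 hf).1 (by
      simp [hπ, ctr, k.1, k.2])⟩
  have hlt : (act (π ∘ a) (π ∘ b) x).card < (act a b x).card :=
    (card_le_card hs).trans_lt (card_lt_card (filter_ssubset.2 ⟨e₁, he, by simp [ha, hb]⟩))
  have fx : ∀ w, φ (π w) = φ w := ctr_fix fun w k => k.trans ha.symm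
  have ec : cut (π ∘ a) (π ∘ b) φ = cut a b φ := by ext e; simp [mem_cut, fx]
  obtain ⟨J, hJ, jo, c1, co⟩ := (ih π hlt).once h.1 (univ : Finset Unit) (fun _ => φ)
    (fun _ _ => by simpa [par, fx] using ho) (fun _ _ => by rw [ec]; exact ht) g hg
  refine ⟨J, hJ.trans hs, fun ψ hψ => ?_, ec ▸ c1 () (mem_univ _), co.trans
    (sum_le_sum_of_subset_of_nonneg hs fun e _ _ => mul_nonneg (hg e) (h.1 e))⟩
  have fy : ∀ w, ψ (π w) = ψ w := ctr_fix fun w k => (hψ w k).trans (hψ _ ha).symm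
  simpa only [par, Function.comp, fy] using jo ψ

/-- Gluing along a tight odd cut. -/
theorem stepB {a b : E → W} {τ : Θ → W} {x : E → ℝ} (h : Feas a b τ x) {φ : W → ZMod 2}
    (ho : par τ φ = 1) (ht : ∑ e ∈ cut a b φ, x e = 1) {e₁ e₀ : E} (he : e₁ ∈ act a b x)
    (ha : φ (a e₁) = 1) (hb : φ (b e₁) = 1) (he' : e₀ ∈ act a b x)
    (ha' : φ (a e₀) = 0) (hb' : φ (b e₀) = 0)
    (ih : ∀ π : W → W, (act (π ∘ a) (π ∘ b) x).card < (act a b x).card →
      Good (π ∘ a) (π ∘ b) (π ∘ τ) x) : Good a b τ x := by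
  classical
  intro g hg
  set C := cut a b φ with hC
  set A := act a b x with hA
  set B := ∑ e ∈ A, g e * x e + 1 with hB
  have B0 : 0 ≤ B := add_nonneg (sum_nonneg fun e _ => mul_nonneg (hg e) (h.1 e)) zero_le_one
  let P : E → Finset E → Prop := fun e J =>
    J ⊆ A.filter (fun e => ¬ (φ (a e) = 1 ∧ φ (b e) = 1)) ∧
      (∀ ψ : W → ZMod 2, (∀ w, φ w = 1 → ψ w = 0) → ∑ e ∈ J, (ψ (a e) + ψ (b e)) = par τ ψ) ∧
      J ∩ C = {e}
  have ex : ∀ e, ∃ p : ℝ, 0 ≤ p ∧ p ≤ B ∧ (∀ J, P e J → p ≤ ∑ f ∈ J \ C, g f) ∧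
      (p = B ∨ ∃ J, P e J ∧ ∑ f ∈ J \ C, g f = p) := fun e => by
    obtain ⟨p, hp, hm⟩ := exists_min_image
      (insert B ((univ.filter (P e)).image fun J => ∑ f ∈ J \ C, g f)) id (insert_nonempty _ _)
    simp only [mem_insert, mem_image, mem_filter, mem_univ, true_and, id] at hp hm
    refine ⟨p, ?_, hm B (Or.inl rfl), fun J hJ => hm _ (Or.inr ⟨J, hJ, rfl⟩), hp⟩
    rcases hp with rfl | ⟨J, _, rfl⟩
    · exact B0
    · exact sum_nonneg fun f _ => hg f
  choose p p0 pB pm pe using ex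
  have CA : ∑ e ∈ A.filter (· ∈ C), x e = 1 := by
    rw [← ht]
    refine sum_subset (fun e he => (mem_filter.1 he).2) fun e h1 h2 => ?_
    refine le_antisymm (not_lt.1 fun k => h2 (mem_filter.2 ⟨mem_act.2 ⟨fun q => ?_, k⟩, h1⟩)) (h.1 e)
    exact mem_cut.1 h1 (congrArg φ q)
  obtain ⟨J, hJ, jo, c1, co⟩ := side h ho ht he ha hb ih (fun e => if e ∈ C then B - p e else g e)
    fun e => by
      split_ifs
      · linarith [pB e]
      · exact hg e
  obtain ⟨e, c1⟩ := card_eq_one.1 c1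
  have k1 := pm e J ⟨hJ, jo, c1⟩
  rw [sum_ite, filter_mem_eq_inter, c1, sum_singleton, ← sdiff_eq_filter] at co
  have o' : par τ (φ + 1) = 1 := by rw [par_add, ho, h.par_one, add_zero]
  obtain ⟨J', hJ', jo', c1', co'⟩ := side h o' (by rw [cut_add_one]; exact ht) he'
    (by simp [ha']) (by simp [hb']) ih (fun e => if e ∈ C then g e + p e else g e) fun e => by
      split_ifs
      · linarith [p0 e, hg e]
      · exact hg e
  rw [cut_add_one] at c1'
  obtain ⟨e', c1'⟩ := card_eq_one.1 c1'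
  rw [sum_ite, filter_mem_eq_inter, c1', sum_singleton, ← sdiff_eq_filter] at co'
  have tot : ∑ e ∈ A.filter (fun e => ¬ (φ (a e) = 1 ∧ φ (b e) = 1)),
        (if e ∈ C then B - p e else g e) * x e +
      ∑ e ∈ A.filter (fun e => ¬ ((φ + 1) (a e) = 1 ∧ (φ + 1) (b e) = 1)),
        (if e ∈ C then g e + p e else g e) * x e =
      ∑ e ∈ A, g e * x e + B * ∑ e ∈ A.filter (· ∈ C), x e := by
    simp only [sum_filter, mul_sum, ← sum_add_distrib]
    refine sum_congr rfl fun e _ => ?_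
    simp only [hC, mem_cut, Pi.add_apply, Pi.one_apply]
    rcases z2 (φ (a e)) with u | u <;> rcases z2 (φ (b e)) with v | v <;>
      simp [u, v, show (1 : ZMod 2) + 1 = 0 from rfl] <;> ring
  rw [CA] at tot
  have k2 : g e' + p e' + ∑ f ∈ J' \ C, g f ≤ ∑ e ∈ A, g e * x e := by linarith
  have k3 : 0 ≤ ∑ f ∈ J' \ C, g f := sum_nonneg fun f _ => hg f
  rcases pe e' with k | ⟨K, ⟨hK, jK, cK⟩, k⟩
  · linarith [hg e']
  have mK : ∀ f ∈ K \ C, φ (a f) = 0 ∧ φ (b f) = 0 := fun f hf => by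
    have u := (mem_filter.1 (hK (mem_sdiff.1 hf).1)).2
    have v := (mem_sdiff.1 hf).2
    rw [hC, mem_cut] at v
    revert u v
    generalize φ (a f) = s, φ (b f) = t
    revert s t
    decide
  have mJ : ∀ f ∈ J' \ C, φ (a f) = 1 ∧ φ (b f) = 1 := fun f hf => by
    have u := (mem_filter.1 (hJ' (mem_sdiff.1 hf).1)).2
    have v := (mem_sdiff.1 hf).2
    rw [hC, mem_cut] at v
    simp only [Pi.add_apply, Pi.one_apply] at u
    revert u v
    generalize φ (a f) = s, φ (b f) = t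
    revert s t
    decide
  have dj : Disjoint J' (K \ C) := disjoint_left.2 fun f h1 h2 => by
    have := (mJ f (mem_sdiff.2 ⟨h1, (mem_sdiff.1 h2).2⟩)).1
    rw [(mK f h2).1] at this
    exact absurd this (by decide)
  have sp : ∀ (L : Finset E) (u : E → ZMod 2), L ∩ C = {e'} →
      ∑ f ∈ L, u f = u e' + ∑ f ∈ L \ C, u f := fun L u hL => by
    rw [← sum_inter_add_sum_sdiff L C, hL, sum_singleton]
  refine ⟨J' ∪ (K \ C), union_subset (hJ'.trans (filter_subset _ _))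
    (sdiff_subset.trans (hK.trans (filter_subset _ _))), fun ψ => ?_, ?_⟩
  · have q0 := jK (ψ * (φ + 1)) fun w hw => by
      simp [hw, show (1 : ZMod 2) + 1 = 0 from rfl]
    have q1 := jo' (ψ * φ) fun w hw => by
      have : φ w = 0 := by simpa using hw
      simp [this]
    have q2 : ψ = ψ * (φ + 1) + ψ * φ := by
      funext w
      simp only [Pi.add_apply, Pi.mul_apply, Pi.one_apply]
      generalize φ w = s, ψ w = t
      revert s t
      decide
    rw [sp _ _ cK] at q0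
    rw [sp _ _ c1'] at q1
    rw [sum_union dj, sp _ _ c1']
    conv_rhs => rw [q2, par_add, ← q0, ← q1]
    have r0 : ∑ f ∈ K \ C, ((ψ * (φ + 1)) (a f) + (ψ * (φ + 1)) (b f)) =
        ∑ f ∈ K \ C, (ψ (a f) + ψ (b f)) :=
      sum_congr rfl fun f hf => by simp [(mK f hf).1, (mK f hf).2]
    have r1 : ∑ f ∈ J' \ C, ((ψ * φ) (a f) + (ψ * φ) (b f)) = ∑ f ∈ J' \ C, (ψ (a f) + ψ (b f)) :=
      sum_congr rfl fun f hf => by simp [(mJ f hf).1, (mJ f hf).2]
    rw [r0, r1]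
    have r2 := congrFun q2 (a e')
    have r3 := congrFun q2 (b e')
    simp only [Pi.add_apply] at r2 r3
    linear_combination r2 + r3
  · rw [sum_union dj, ← sum_inter_add_sum_sdiff J' C, c1', sum_singleton]
    linarith

end Pool.Agent.P.MP_92d394_lc
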