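import Pool.Agent.P.MP_92d394_lc.TJ

/-! The join theorem: feasible weights dominate a join, in cost form. -/

set_option linter.unusedSectionVars false

namespace Pool.Agent.P.MP_92d394_lc

open Finset

variable {W E Θ : Type} [Fintype W] [DecidableEq W] [Fintype E] [DecidableEq E] [Fintype Θ]

/-- The colouring of a single vertex. -/
def sg (v : W) : W → ZMod 2 := fun w => if w = v then 1 else 0

theorem mem_sg {a b : E → W} {v : W} {e : E} :
    e ∈ cut a b (sg v) ↔ (a e = v ∧ b e ≠ v) ∨ (b e = v ∧ a e ≠ v) := by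
  rw [mem_cut]
  unfold sg
  by_cases h1 : a e = v <;> by_cases h2 : b e = v <;> simp [h1, h2]

theorem ex_odd {τ : Θ → W} {φ : W → ZMod 2} (h : par τ φ = 1) :
    ∃ v, φ v = 1 ∧ par τ (sg v) = 1 := by
  have e : par τ φ = ∑ v, φ v * par τ (sg v) := by
    simp only [par, mul_sum, sg]
    rw [sum_comm]
    simp
  by_contra k
  rw [e, sum_eq_zero] at h
  · exact absurd h (by decide)
  · intro v _
    rcases z2 (φ v) with u | u
    · rw [u, zero_mul]
    · rcases z2 (par τ (sg v)) with w | w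
      · rw [w, mul_zero]
      · exact absurd ⟨v, u, w⟩ k

theorem triv {a b : E → W} {τ : Θ → W} {x : E → ℝ} (h : Feas a b τ x) {φ : W → ZMod 2}
    (ho : par τ φ = 1) (ht : ∑ e ∈ cut a b φ, x e = 1)
    (hn : ∀ e ∈ act a b x, ¬ (φ (a e) = 1 ∧ φ (b e) = 1)) :
    ∃ v, φ v = 1 ∧ par τ (sg v) = 1 ∧ ∑ e ∈ cut a b (sg v), x e = 1 ∧
      ∀ e ∈ act a b x, e ∈ cut a b φ ↔ e ∈ cut a b (sg v) := by
  obtain ⟨v, h1, h2⟩ := ex_odd ho
  have k : ∀ e ∈ cut a b (sg v), 0 < x e → e ∈ cut a b φ := fun e he hx => by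
    rw [mem_cut]
    intro q
    rcases mem_sg.1 he with ⟨u, w⟩ | ⟨u, w⟩
    · exact hn e (mem_act.2 ⟨fun z => w (z ▸ u), hx⟩) ⟨u ▸ h1, q ▸ u ▸ h1⟩
    · exact hn e (mem_act.2 ⟨fun z => w (z ▸ u), hx⟩) ⟨q ▸ u ▸ h1, u ▸ h1⟩
  have s1 : ∑ e ∈ cut a b φ ∩ cut a b (sg v), x e = ∑ e ∈ cut a b (sg v), x e :=
    sum_subset inter_subset_right fun e h3 h4 =>
      le_antisymm (not_lt.1 fun z => h4 (mem_inter.2 ⟨k e h3 z, h3⟩)) (h.1 e)
  have s2 := sum_inter_add_sum_sdiff (cut a b φ) (cut a b (sg v)) x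
  have s3 := h.2 _ h2
  have s4 : 0 ≤ ∑ e ∈ cut a b φ \ cut a b (sg v), x e := sum_nonneg fun e _ => h.1 e
  refine ⟨v, h1, h2, by linarith, fun e he => ⟨fun q => ?_, fun q => k e q (mem_act.1 he).2⟩⟩
  by_contra r
  have := single_le_sum (f := x) (fun e _ => h.1 e) (mem_sdiff.2 ⟨q, r⟩)
  linarith [(mem_act.1 he).2]

theorem ex_dir (a b : E → W) (A : Finset E) (O : Finset W) (h : O.card < A.card) :
    ∃ d : E → ℝ, (∀ e, e ∉ A → d e = 0) ∧ (∃ e, d e ≠ 0) ∧
      ∀ v ∈ O, ∑ e ∈ cut a b (sg v), d e = 0 := by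
  have : ¬ LinearIndependent ℝ
      (fun (e : A) (v : O) => if (e : E) ∈ cut a b (sg (v : W)) then (1 : ℝ) else 0) := fun li => by
    have := li.fintype_card_le_finrank
    simp at this
    omega
  obtain ⟨g, h1, e, h2⟩ := Fintype.not_linearIndependent_iff.1 this
  refine ⟨fun e => if k : e ∈ A then g ⟨e, k⟩ else 0, fun e k => dif_neg k,
    ⟨e, by simpa using h2⟩, fun v hv => ?_⟩
  have := congrFun h1 ⟨v, hv⟩
  simp only [Finset.sum_apply, Pi.smul_apply, smul_eq_mul, mul_ite, mul_one, mul_zero,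
    Pi.zero_apply] at this
  refine Eq.trans ?_ this
  rw [← sum_subset (inter_subset_left (s₂ := A)) fun e h3 h4 =>
    dif_neg fun k => h4 (mem_inter.2 ⟨h3, k⟩), inter_comm, ← filter_mem_eq_inter, sum_filter,
    ← sum_coe_sort A]
  refine sum_congr rfl fun e _ => ?_
  simp

/-- Slack of the constraints. -/
noncomputable def slk (a b : E → W) (τ : Θ → W) (c : ℝ) (x : E → ℝ) : E ⊕ (W → ZMod 2) → ℝ
  | .inl e => x e
  | .inr φ => if par τ φ = 1 then ∑ e ∈ cut a b φ, x e - c else 0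

theorem move {a b : E → W} {τ : Θ → W} {x : E → ℝ} (h : Feas a b τ x) {d : E → ℝ}
    (h1 : ∀ e, e ∉ act a b x → d e = 0) (h2 : ∃ e, d e ≠ 0)
    (h3 : ∀ φ, par τ φ = 1 → ∑ e ∈ cut a b φ, x e = 1 → ∑ e ∈ cut a b φ, d e = 0)
    (ih : ∀ y, Feas a b τ y → act a b y ⊆ act a b x →
      (univ.filter fun i => 0 < slk a b τ 1 y i).card <
        (univ.filter fun i => 0 < slk a b τ 1 x i).card → Good a b τ y) : Good a b τ x := by
  intro g hg
  obtain ⟨d, h1, ⟨e₀, h2⟩, h3, h4⟩ : ∃ d : E → ℝ, (∀ e, e ∉ act a b x → d e = 0) ∧ (∃ e, d e < 0) ∧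
      (∀ φ, par τ φ = 1 → ∑ e ∈ cut a b φ, x e = 1 → ∑ e ∈ cut a b φ, d e = 0) ∧
      ∑ e ∈ act a b x, g e * d e ≤ 0 := by
    have n1 : ∀ e, e ∉ act a b x → -d e = 0 := fun e k => by rw [h1 e k, neg_zero]
    have n3 : ∀ φ, par τ φ = 1 → ∑ e ∈ cut a b φ, x e = 1 → ∑ e ∈ cut a b φ, -d e = 0 :=
      fun φ p q => by rw [sum_neg_distrib, h3 φ p q, neg_zero]
    have n4 : ∑ e ∈ act a b x, g e * -d e = -∑ e ∈ act a b x, g e * d e := by simp
    by_cases k : ∀ e, 0 ≤ d e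
    · obtain ⟨e, he⟩ := h2
      refine ⟨fun e => -d e, n1, ⟨e, neg_lt_zero.2 ((k e).lt_of_ne' he)⟩, n3, ?_⟩
      rw [n4, neg_nonpos]
      exact sum_nonneg fun e _ => mul_nonneg (hg e) (k e)
    · push Not at k
      by_cases k' : ∑ e ∈ act a b x, g e * d e ≤ 0
      · exact ⟨d, h1, k, h3, k'⟩
      · refine ⟨fun e => -d e, n1, ?_, n3, by rw [n4]; linarith⟩
        by_contra q
        push Not at q
        exact k' (sum_nonpos fun e _ => mul_nonpos_of_nonneg_of_nonpos (hg e) (by linarith [q e]))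
  have u0 : ∀ i, 0 ≤ slk a b τ 1 x i := by
    rintro (e | φ)
    · exact h.1 e
    · simp only [slk]
      split_ifs with k
      · linarith [h.2 φ k]
      · rfl
  have uz : ∀ i, slk a b τ 1 x i = 0 → slk a b τ 0 d i = 0 := by
    rintro (e | φ)
    · exact fun k => h1 e fun q => (mem_act.1 q).2.ne' k
    · simp only [slk]
      split_ifs with k
      · intro q
        rw [h3 φ k (by linarith), sub_zero]
      · exact id
  obtain ⟨i, hi, hm⟩ := exists_min_image (univ.filter fun i => slk a b τ 0 d i < 0)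
    (fun i => slk a b τ 1 x i / -slk a b τ 0 d i) ⟨.inl e₀, by simpa [slk] using h2⟩
  simp only [mem_filter, mem_univ, true_and] at hi hm
  set ε := slk a b τ 1 x i / -slk a b τ 0 d i with hε
  have ε0 : 0 ≤ ε := div_nonneg (u0 i) (by linarith)
  have lin : ∀ j, slk a b τ 1 (fun e => x e + ε * d e) j = slk a b τ 1 x j + ε * slk a b τ 0 d j := by
    rintro (e | φ)
    · rfl
    · simp only [slk]
      split_ifs
      · rw [sum_add_distrib, ← mul_sum]; ring
      · ring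
  have v0 : ∀ j, 0 ≤ slk a b τ 1 (fun e => x e + ε * d e) j := fun j => by
    rw [lin]
    rcases lt_or_ge (slk a b τ 0 d j) 0 with k | k
    · have := (le_div_iff₀ (neg_pos.2 k)).1 (hm j k)
      linarith
    · exact add_nonneg (u0 j) (mul_nonneg ε0 k)
  have sb : ∀ j, 0 < slk a b τ 1 (fun e => x e + ε * d e) j → 0 < slk a b τ 1 x j := fun j k => by
    refine (u0 j).lt_of_ne' fun q => ?_
    rw [lin, uz j q, q] at k
    simp at k
  have sa : act a b (fun e => x e + ε * d e) ⊆ act a b x := fun e he =>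
    mem_act.2 ⟨(mem_act.1 he).1, sb (.inl e) (mem_act.1 he).2⟩
  have fe : Feas a b τ fun e => x e + ε * d e := ⟨fun e => v0 (.inl e), fun φ k => by
    have := v0 (.inr φ)
    simp only [slk, if_pos k] at this
    linarith⟩
  obtain ⟨J, hJ, jo, co⟩ := ih _ fe sa (card_lt_card ⟨fun j hj => by
    simpa using sb j (by simpa using hj), fun k => by
      have q : 0 < slk a b τ 1 x i := (u0 i).lt_of_ne' fun q => hi.ne (uz i q)
      have := k (mem_filter.2 ⟨mem_univ i, q⟩)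
      rw [mem_filter, lin, hε, div_neg, neg_mul, div_mul_cancel₀ _ hi.ne] at this
      simp at this⟩) g hg
  refine ⟨J, hJ.trans sa, jo, co.trans ((sum_le_sum_of_subset_of_nonneg sa fun e _ _ =>
    mul_nonneg (hg e) (fe.1 e)).trans ?_)⟩
  simp only [mul_add, sum_add_distrib, mul_left_comm _ ε, ← mul_sum]
  nlinarith

theorem deg_sum (a b : E → W) (A : Finset E) (O : Finset W) :
    ∑ v ∈ O, (A ∩ cut a b (sg v)).card = ∑ e ∈ A, (O.filter fun v => e ∈ cut a b (sg v)).card := by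
  simp only [← filter_mem_eq_inter, card_filter]
  exact sum_comm

theorem ends_sub (a b : E → W) (O : Finset W) (e : E) :
    (O.filter fun v => e ∈ cut a b (sg v)) ⊆ O ∩ {a e, b e} := fun v hv => by
  rw [mem_filter, mem_sg] at hv
  simp only [mem_inter, mem_insert, mem_singleton]
  exact ⟨hv.1, hv.2.imp (fun k => k.1.symm) fun k => k.1.symm⟩

theorem sum_act {a b : E → W} {x d : E → ℝ} (h : ∀ e, e ∉ act a b x → d e = 0)
    (φ : W → ZMod 2) :
    ∑ e ∈ cut a b φ, d e = ∑ e ∈ act a b x, (if e ∈ cut a b φ then 1 else 0) * d e := by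
  simp only [ite_mul, one_mul, zero_mul]
  rw [← sum_filter, filter_mem_eq_inter]
  exact (sum_subset inter_subset_right fun e h1 h2 =>
    h e fun k => h2 (mem_inter.2 ⟨k, h1⟩)).symm

theorem sum_act' {a b : E → W} {x : E → ℝ} (h : ∀ e, 0 ≤ x e) (φ : W → ZMod 2) :
    ∑ e ∈ cut a b φ, x e = ∑ e ∈ act a b x, (if e ∈ cut a b φ then 1 else 0) * x e := by
  simp only [ite_mul, one_mul, zero_mul]
  rw [← sum_filter, filter_mem_eq_inter]
  exact (sum_subset inter_subset_right fun e h1 h2 => le_antisymm (not_lt.1 fun k =>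
    h2 (mem_inter.2 ⟨mem_act.2 ⟨fun q => mem_cut.1 h1 (congrArg φ q), k⟩, h1⟩)) (h e)).symm

/-- A direction keeping the tight vertex constraints. -/
theorem ex_dir' {a b : E → W} {τ : Θ → W} {x : E → ℝ} (h : Feas a b τ x)
    (h1 : ∀ e ∈ act a b x, x e < 1) (hne : (act a b x).Nonempty)
    (h2 : ∀ φ, par τ φ = 1 → ∑ e ∈ cut a b φ, x e = 1 → ∀ e ∈ act a b x,
      φ (a e) = 1 ∧ φ (b e) = 1 → ∀ f ∈ act a b x, ¬ (φ (a f) = 0 ∧ φ (b f) = 0)) :
    ∃ d : E → ℝ, (∀ e, e ∉ act a b x → d e = 0) ∧ (∃ e, d e ≠ 0) ∧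
      ∀ v, par τ (sg v) = 1 → ∑ e ∈ cut a b (sg v), x e = 1 → ∑ e ∈ cut a b (sg v), d e = 0 := by
  classical
  set A := act a b x with hA
  set O := univ.filter fun v => par τ (sg v) = 1 ∧ ∑ e ∈ cut a b (sg v), x e = 1 with hO
  have mO : ∀ v, v ∈ O ↔ par τ (sg v) = 1 ∧ ∑ e ∈ cut a b (sg v), x e = 1 := fun v => by simp [hO]
  by_cases k : O.card < A.card
  · obtain ⟨d, d1, d2, d3⟩ := ex_dir a b A O k
    exact ⟨d, d1, d2, fun v p q => d3 v ((mO v).2 ⟨p, q⟩)⟩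
  have g1 : ∀ v ∈ O, 2 ≤ (A ∩ cut a b (sg v)).card := fun v hv => by
    have t := ((mO v).1 hv).2
    rw [sum_act' h.1] at t
    simp only [ite_mul, one_mul, zero_mul] at t
    rw [← sum_filter, filter_mem_eq_inter, ← hA] at t
    by_contra q
    rcases (show (A ∩ cut a b (sg v)).card = 0 ∨ (A ∩ cut a b (sg v)).card = 1 by omega) with z | z
    · rw [card_eq_zero.1 z, sum_empty] at t
      exact zero_ne_one t
    · obtain ⟨e, z⟩ := card_eq_one.1 z
      rw [z, sum_singleton] at t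
      exact (h1 e (mem_inter.1 (z ▸ mem_singleton_self e)).1).ne t
  have g2 : ∀ e ∈ A, (O.filter fun v => e ∈ cut a b (sg v)).card ≤ 2 := fun e _ =>
    (card_le_card ((ends_sub a b O e).trans inter_subset_right)).trans card_le_two
  have g3 := deg_sum a b A O
  have g4 := sum_le_sum g1
  have g5 := sum_le_sum g2
  simp only [sum_const, smul_eq_mul] at g4 g5
  have g6 : ∀ v ∈ O, 2 = (A ∩ cut a b (sg v)).card :=
    (sum_eq_sum_iff_of_le g1).1 (by simp only [sum_const, smul_eq_mul]; omega)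
  have g7 : ∀ e ∈ A, a e ∈ O ∧ b e ∈ O := fun e he => by
    have q := (sum_eq_sum_iff_of_le g2).1 (by simp only [sum_const, smul_eq_mul]; omega) e he
    have r : O ∩ {a e, b e} = {a e, b e} := eq_of_subset_of_card_le inter_subset_right
      (card_le_two.trans (q ▸ card_le_card (ends_sub a b O e)))
    exact ⟨(mem_inter.1 (r ▸ (by simp : a e ∈ ({a e, b e} : Finset W)))).1,
      (mem_inter.1 (r ▸ (by simp : b e ∈ ({a e, b e} : Finset W)))).1⟩
  suffices H : ∃ y ∈ O, ∀ d : E → ℝ, (∀ e, e ∉ A → d e = 0) →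
      (∀ v ∈ O.erase y, ∑ e ∈ cut a b (sg v), d e = 0) → ∑ e ∈ cut a b (sg y), d e = 0 by
    obtain ⟨y, hy, H⟩ := H
    obtain ⟨d, d1, d2, d3⟩ := ex_dir a b A (O.erase y) (by
      rw [card_erase_of_mem hy]
      have := card_pos.2 ⟨y, hy⟩
      omega)
    refine ⟨d, d1, d2, fun v p q => ?_⟩
    by_cases z : v = y
    · exact z ▸ H d d1 d3
    · exact d3 v (mem_erase.2 ⟨z, (mO v).2 ⟨p, q⟩⟩)
  obtain ⟨e₁, he₁⟩ := hne
  have n1 := (mem_act.1 he₁).1
  obtain ⟨hv, hu⟩ := g7 e₁ he₁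
  set v := a e₁ with ev
  set u := b e₁ with eu
  have m1 : e₁ ∈ A ∩ cut a b (sg v) := mem_inter.2 ⟨he₁, mem_sg.2 (Or.inl ⟨rfl, n1.symm⟩)⟩
  obtain ⟨e₂, he₂⟩ : ∃ e₂, (A ∩ cut a b (sg v)).erase e₁ = {e₂} :=
    card_eq_one.1 (by rw [card_erase_of_mem m1, ← g6 v hv])
  have m2 := mem_erase.1 (he₂ ▸ mem_singleton_self e₂)
  have m3 : A ∩ cut a b (sg v) = {e₁, e₂} := by rw [← he₂, insert_erase m1]
  obtain ⟨w, hw, wv, ew⟩ : ∃ w ∈ O, w ≠ v ∧ ((a e₂ = v ∧ b e₂ = w) ∨ (b e₂ = v ∧ a e₂ = w)) := by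
    have := g7 e₂ (mem_inter.1 m2.2).1
    rcases mem_sg.1 (mem_inter.1 m2.2).2 with q | q
    · exact ⟨_, this.2, q.2, Or.inl ⟨q.1, rfl⟩⟩
    · exact ⟨_, this.1, q.2, Or.inr ⟨q.1, rfl⟩⟩
  by_cases wu : w = u
  · have m4 : A ∩ cut a b (sg v) = A ∩ cut a b (sg u) := by
      refine eq_of_subset_of_card_le ?_ (by rw [← g6 v hv, ← g6 u hu])
      rw [m3]
      refine insert_subset (mem_inter.2 ⟨he₁, mem_sg.2 (Or.inr ⟨rfl, n1⟩)⟩)
        (singleton_subset_iff.2 (mem_inter.2 ⟨(mem_inter.1 m2.2).1, mem_sg.2 ?_⟩))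
      rcases ew with q | q
      · exact Or.inr ⟨q.2.trans wu, q.1 ▸ n1⟩
      · exact Or.inl ⟨q.2.trans wu, q.1 ▸ n1⟩
    refine ⟨v, hv, fun d d1 d2 => ?_⟩
    have := d2 u (mem_erase.2 ⟨n1.symm, hu⟩)
    rw [sum_act d1] at this ⊢
    simp only [ite_mul, one_mul, zero_mul] at this ⊢
    rwa [← sum_filter, filter_mem_eq_inter, ← hA, m4, ← filter_mem_eq_inter, sum_filter]
  set φ := sg u + sg v + sg w with hφ
  have po : par τ φ = 1 := by
    rw [hφ, par_add, par_add, ((mO u).1 hu).1, ((mO v).1 hv).1, ((mO w).1 hw).1]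
    rfl
  have key : ∀ e ∈ A, (if e ∈ cut a b φ then (1 : ℝ) else 0) =
      (if e ∈ cut a b (sg u) then 1 else 0) + (if e ∈ cut a b (sg w) then 1 else 0) -
      (if e ∈ cut a b (sg v) then 1 else 0) -
      2 * if e ∈ cut a b (sg u) ∧ e ∈ cut a b (sg w) then 1 else 0 := fun e he => by
    have uv : u ≠ v := n1.symm
    have z11 : (1 : ZMod 2) + 1 = 0 := rfl
    by_cases q : e ∈ cut a b (sg v)
    · have : e ∈ ({e₁, e₂} : Finset E) := m3 ▸ mem_inter.2 ⟨he, q⟩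
      simp only [mem_insert, mem_singleton] at this
      rcases this with rfl | rfl
      · simp [mem_cut, hφ, sg, ← ev, ← eu, uv, n1, wv.symm, Ne.symm wu]
      · rcases ew with ⟨p, r⟩ | ⟨p, r⟩ <;>
          simp [mem_cut, hφ, sg, p, r, wv, wv.symm, wu, n1]
    · have n2 := (mem_act.1 he).1
      have q1 : a e ≠ v := fun z => q (mem_sg.2 (Or.inl ⟨z, fun z' => n2 (z.trans z'.symm)⟩))
      have q2 : b e ≠ v := fun z => q (mem_sg.2 (Or.inr ⟨z, q1⟩))
      simp only [mem_cut, hφ, sg, Pi.add_apply, q1, q2]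
      by_cases p1 : a e = u <;> by_cases p2 : a e = w <;> by_cases p3 : b e = u <;>
        by_cases p4 : b e = w <;> simp_all <;> norm_num
  have tot : ∀ d : E → ℝ, ∑ e ∈ A, (if e ∈ cut a b φ then 1 else 0) * d e =
      ∑ e ∈ A, (if e ∈ cut a b (sg u) then 1 else 0) * d e +
      ∑ e ∈ A, (if e ∈ cut a b (sg w) then 1 else 0) * d e -
      ∑ e ∈ A, (if e ∈ cut a b (sg v) then 1 else 0) * d e -
      2 * ∑ e ∈ A, (if e ∈ cut a b (sg u) ∧ e ∈ cut a b (sg w) then 1 else 0) * d e := fun d => by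
    simp only [mul_sum, ← sum_add_distrib, ← sum_sub_distrib]
    exact sum_congr rfl fun e he => by rw [key e he]; ring
  have t1 := tot x
  rw [← sum_act' h.1, ← sum_act' h.1, ← sum_act' h.1, ← sum_act' h.1, ((mO u).1 hu).2,
    ((mO v).1 hv).2, ((mO w).1 hw).2] at t1
  have t2 := h.2 φ po
  have t0 : ∀ e ∈ A, 0 ≤ (if e ∈ cut a b (sg u) ∧ e ∈ cut a b (sg w) then 1 else 0) * x e :=
    fun e _ => mul_nonneg (by positivity) (h.1 e)
  have t3 := sum_nonneg t0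
  have t4 := (sum_eq_zero_iff_of_nonneg t0).1 (by linarith)
  have t5 : ∑ e ∈ cut a b φ, x e = 1 := by linarith
  have i1 : φ (a e₁) = 1 ∧ φ (b e₁) = 1 := by
    simp [hφ, sg, ← ev, ← eu, n1, n1.symm, wv.symm, Ne.symm wu]
  obtain ⟨y, y1, y2, y3, y4⟩ := triv h (φ := φ + 1) (by rw [par_add, po, h.par_one, add_zero])
    (by rw [cut_add_one, t5]) fun f hf q => h2 φ po t5 e₁ he₁ i1 f hf (by simpa using q)
  have y5 : φ y = 0 := by simpa using y1
  have yu : u ≠ y := fun z => by rw [← z, i1.2] at y5; exact absurd y5 (by decide)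
  have yv : v ≠ y := fun z => by rw [← z, i1.1] at y5; exact absurd y5 (by decide)
  have yw : w ≠ y := fun z => by
    rw [← z] at y5
    simp [hφ, sg, wu, wv] at y5
  refine ⟨y, (mO y).2 ⟨y2, y3⟩, fun d d1 d2 => ?_⟩
  have t6 := tot d
  rw [← sum_act d1, ← sum_act d1, ← sum_act d1, ← sum_act d1, d2 u (mem_erase.2 ⟨yu, hu⟩),
    d2 v (mem_erase.2 ⟨yv, hv⟩), d2 w (mem_erase.2 ⟨yw, hw⟩), sum_eq_zero (s := A) fun e he => by
      rw [(mul_eq_zero.1 (t4 e he)).resolve_right (mem_act.1 he).2.ne', zero_mul]] at t6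
  rw [sum_act d1] at t6 ⊢
  rw [cut_add_one] at y4
  exact (sum_congr rfl fun e he => by simp only [y4 e he]).trans (t6.trans (by ring))

theorem tj_step (m : ℕ) (ih : ∀ (a b : E → W) (τ : Θ → W) (x : E → ℝ), (act a b x).card < m →
    Feas a b τ x → Good a b τ x) (a b : E → W) (τ : Θ → W) (k : ℕ) :
    ∀ x, (univ.filter fun i => 0 < slk a b τ 1 x i).card = k → (act a b x).card ≤ m →
      Feas a b τ x → Good a b τ x := by
  induction k using Nat.strong_induction_on with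
  | _ k ik =>
  intro x hk hm h
  have ic : ∀ π : W → W, (act (π ∘ a) (π ∘ b) x).card < (act a b x).card →
      Good (π ∘ a) (π ∘ b) (π ∘ τ) x := fun π q => ih _ _ _ _ (q.trans_le hm) (h.comp π)
  by_cases h1 : ∃ e ∈ act a b x, 1 ≤ x e
  · obtain ⟨e, p, q⟩ := h1
    exact stepA h p q ic
  by_cases h2 : ∃ φ, par τ φ = 1 ∧ ∑ e ∈ cut a b φ, x e = 1 ∧ ∃ e ∈ act a b x,
      (φ (a e) = 1 ∧ φ (b e) = 1) ∧ ∃ f ∈ act a b x, φ (a f) = 0 ∧ φ (b f) = 0
  · obtain ⟨φ, p, q, e, he, r, f, hf, s⟩ := h2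
    exact stepB h p q he r.1 r.2 hf s.1 s.2 ic
  rcases (act a b x).eq_empty_or_nonempty with h3 | h3
  · intro g _
    refine ⟨∅, empty_subset _, fun φ => ?_, by simp [h3]⟩
    rcases z2 (par τ φ) with q | q
    · simp [q]
    · have := h.2 φ q
      rw [sum_act' h.1, h3, sum_empty] at this
      linarith
  obtain ⟨d, d1, d2, d3⟩ := ex_dir' h (fun e he => not_le.1 fun q => h1 ⟨e, he, q⟩) h3
    fun φ p q e he r f hf s => h2 ⟨φ, p, q, e, he, r, f, hf, s⟩
  refine move h d1 d2 (fun φ p q => ?_) fun y fy sy ky =>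
    ik _ (hk ▸ ky) y rfl ((card_le_card sy).trans hm) fy
  have fin : ∀ ψ : W → ZMod 2, par τ ψ = 1 → ∑ e ∈ cut a b ψ, x e = 1 →
      (∀ e ∈ act a b x, ¬ (ψ (a e) = 1 ∧ ψ (b e) = 1)) → ∑ e ∈ cut a b ψ, d e = 0 :=
    fun ψ p q r => by
      obtain ⟨v, -, y2, y3, y4⟩ := triv h p q r
      rw [← d3 v y2 y3, sum_act d1, sum_act d1]
      exact sum_congr rfl fun e he => by simp only [y4 e he]
  by_cases r : ∀ e ∈ act a b x, ¬ (φ (a e) = 1 ∧ φ (b e) = 1)
  · exact fin φ p q r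
  · push Not at r
    obtain ⟨e, he, r⟩ := r
    rw [← cut_add_one]
    exact fin _ (by rw [par_add, p, h.par_one, add_zero]) (by rw [cut_add_one, q])
      fun f hf s => h2 ⟨φ, p, q, e, he, r, f, hf, by simpa using s⟩

/-- The join theorem. -/
theorem tj (a b : E → W) (τ : Θ → W) (x : E → ℝ) (h : Feas a b τ x) : Good a b τ x := by
  have : ∀ m, ∀ (a b : E → W) (τ : Θ → W) (x : E → ℝ), (act a b x).card < m →
      Feas a b τ x → Good a b τ x := fun m => by
    induction m with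
    | zero => exact fun _ _ _ _ q => absurd q (Nat.not_lt_zero _)
    | succ m ih => exact fun a b τ x q => tj_step m ih a b τ _ x rfl (by omega)
  exact this _ a b τ x (Nat.lt_succ_self _) h

end Pool.Agent.P.MP_92d394_lc
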