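import Pool.Agent.P.MP_92d394_lc.Cap
import Pool.Agent.P.MP_92d394_lc.Spl

/-! The upper bound for triangle points. -/

set_option linter.unusedSectionVars false

namespace Pool.Agent.P.MP_92d394_lc

open Finset

variable {V : Type} [Fintype V] [DecidableEq V] {y : V → V → ℝ}

/-- The triangle at a vertex. -/
noncomputable def tri (y : V → V → ℝ) (p : V) : Finset V :=
  univ.filter fun q => q = p ∨ y p q = 1 / 2

/-- Edges of the network: edges of value one, and spokes. -/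
abbrev Ed (y : V → V → ℝ) : Type :=
  {p : V × V // Fintype.equivFin V p.1 < Fintype.equivFin V p.2 ∧ y p.1 p.2 = 1} ⊕
    {p : V // ∃ q, y p q = 1 / 2}

/-- First end. -/
noncomputable def ea (y : V → V → ℝ) : Ed y → V ⊕ Finset V
  | .inl e => .inl e.1.1
  | .inr p => .inr (tri y p.1)

/-- Second end. -/
def eb (y : V → V → ℝ) : Ed y → V ⊕ Finset V
  | .inl e => .inl e.1.2
  | .inr p => .inl p.1

/-- The vector of an edge of the network. -/
noncomputable def lam (y : V → V → ℝ) : Ed y → V → V → ℝ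
  | .inl e => ed e.1.1 e.1.2
  | .inr p => fun s t => if s ∈ tri y p.1 ∧ t ∈ tri y p.1 ∧ s ≠ t then
      (if s = p.1 ∨ t = p.1 then 1 / 2 else -1 / 2) else 0

/-- The majority extension of a set. -/
def maj (S : Finset V) : V ⊕ Finset V → ZMod 2
  | .inl v => if v ∈ S then 1 else 0
  | .inr A => if 2 ≤ ∑ v ∈ A, (if v ∈ S then 1 else 0 : ℕ) then 1 else 0

theorem tri_spec (hy : y ∈ SubP V) (ht : IsTri y) {p q : V} (h : y p q = 1 / 2) :
    ∃ r, p ≠ q ∧ p ≠ r ∧ q ≠ r ∧ y p r = 1 / 2 ∧ y q r = 1 / 2 ∧ tri y p = {p, q, r} ∧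
      tri y q = {p, q, r} ∧ tri y r = {p, q, r} := by
  have ne : ∀ s t, y s t = 1 / 2 → s ≠ t := fun s t k e => by
    rw [e, hy.2.1] at k; norm_num at k
  obtain ⟨r, h1, h2, h3, h4⟩ := ht.2 p q h
  obtain ⟨r', -, -, -, h5⟩ := ht.2 q p (hy.1 p q ▸ h)
  obtain ⟨r'', -, -, -, h6⟩ := ht.2 r p (hy.1 p r ▸ h2)
  have n1 := ne _ _ h
  have n2 := ne _ _ h2
  have s1 := hy.1 p q
  have s2 := hy.1 p r
  have s3 := hy.1 q r
  have k5 := h5 r h3
  have k6 := h6 q (s3 ▸ h3)
  refine ⟨r, n1, n2, h1.symm, h2, h3, ?_, ?_, ?_⟩ <;> ext x <;>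
    simp only [tri, mem_filter, mem_univ, true_and, mem_insert, mem_singleton] <;> grind

theorem lam_eq {p : {p : V // ∃ q, y p q = 1 / 2}} {q r : V} (n1 : p.1 ≠ q) (n2 : p.1 ≠ r)
    (n3 : q ≠ r) (e : tri y p.1 = {p.1, q, r}) {c : V → V → ℝ} (h1 : ∀ u v, c u v = c v u)
    (h2 : ∀ u, c u u = 0) : dot c (lam y (.inr p)) = (c p.1 q + c p.1 r - c q r) / 2 := by
  have : lam y (.inr p) = (1 / 2 : ℝ) • (ed p.1 q + ed p.1 r - ed q r) := by
    funext s t
    simp only [lam, e, mem_insert, mem_singleton, Pi.smul_apply, Pi.sub_apply, Pi.add_apply, ed,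
      smul_eq_mul]
    generalize p.1 = p at *
    grind
  rw [this, dot_smul, dot_sub, dot_add, dot_ed h1 h2, dot_ed h1 h2, dot_ed h1 h2]
  ring

theorem dot_lam (hy : y ∈ SubP V) (ht : IsTri y) (S : Finset V) (e : Ed y) :
    dot (cutm S) (lam y e) = if maj S (ea y e) ≠ maj S (eb y e) then 1 else 0 := by
  rcases e with e | p
  · rw [lam, dot_ed (cutm_symm S) (cutm_self S)]
    by_cases a : e.1.1 ∈ S <;> by_cases b : e.1.2 ∈ S <;> simp [ea, eb, maj, cutm, a, b]
  · obtain ⟨q, hq⟩ := p.2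
    obtain ⟨r, n1, n2, n3, -, -, e, -, -⟩ := tri_spec hy ht hq
    rw [lam_eq n1 n2 n3 e (cutm_symm S) (cutm_self S)]
    simp only [ea, eb, maj, e]
    rw [sum_insert (by simp [n1, n2]), sum_pair n3]
    by_cases a : p.1 ∈ S <;> by_cases b : q ∈ S <;> by_cases c : r ∈ S <;>
      simp [cutm, a, b, c]

theorem sum_lam (hy : y ∈ SubP V) (ht : IsTri y) (z : Ed y → ℝ) (s t : V) :
    (y s t = 0 ∧ (∑ e, z e • lam y e) s t = 0) ∨
    (y s t = 1 ∧ ∃ e, (∑ e, z e • lam y e) s t = z e) ∨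
    (y s t = 1 / 2 ∧ ∃ p q r : {p : V // ∃ q, y p q = 1 / 2}, p ≠ q ∧ p ≠ r ∧ q ≠ r ∧
      tri y q.1 = tri y p.1 ∧ tri y r.1 = tri y p.1 ∧
      (∑ e, z e • lam y e) s t = (z (.inr p) + z (.inr q) - z (.inr r)) / 2) := by
  classical
  simp only [Finset.sum_apply, Pi.smul_apply, smul_eq_mul, Fintype.sum_sum_type]
  have a1 : y s t ≠ 1 → ∑ e, z (.inl e) * lam y (.inl e) s t = 0 := fun k =>
    sum_eq_zero fun e _ => by
      have := e.2.2
      have := hy.1 s t
      simp only [lam, ed]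
      grind
  have a2 : y s t ≠ 1 / 2 → ∑ e, z (.inr e) * lam y (.inr e) s t = 0 := fun k =>
    sum_eq_zero fun p _ => by
      obtain ⟨q, hq⟩ := p.2
      obtain ⟨r, n1, n2, n3, b1, b2, e, -, -⟩ := tri_spec hy ht hq
      have := hy.1 p.1 q
      have := hy.1 p.1 r
      have := hy.1 q r
      simp only [lam, e, mem_insert, mem_singleton]
      grind
  rcases ht.1 s t with k | k | k
  · exact Or.inl ⟨k, by rw [a1 (by rw [k]; norm_num), a2 (by rw [k]; norm_num), add_zero]⟩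
  · refine Or.inr (Or.inr ⟨k, ?_⟩)
    obtain ⟨r, n1, n2, n3, b1, b2, e1, e2, e3⟩ := tri_spec hy ht k
    refine ⟨⟨s, t, k⟩, ⟨t, r, b2⟩, ⟨r, s, hy.1 s r ▸ b1⟩, by simpa using n1, by simpa using n2,
      by simpa using n3, e2.trans e1.symm, e3.trans e1.symm, ?_⟩
    rw [a1 (by rw [k]; norm_num), zero_add, ← sum_subset (subset_univ
      {⟨s, t, k⟩, ⟨t, r, b2⟩, ⟨r, s, hy.1 s r ▸ b1⟩}) fun p _ hp => ?_,
      sum_insert (by simp [n1, n2]), sum_pair (by simpa using n3)]
    · simp [lam, e1, e2, e3, n1, n2, n3]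
      ring
    · obtain ⟨q, hq⟩ := p.2
      obtain ⟨r', -, -, -, -, -, f1, f2, f3⟩ := tri_spec hy ht hq
      simp only [lam]
      rw [if_neg, mul_zero]
      intro u
      have : p.1 ∈ tri y s := by
        have := u.1
        rw [f1] at this
        simp only [mem_insert, mem_singleton] at this
        rcases this with w | w | w <;> rw [w] <;> simp [f1, f2, f3]
      simp only [e1, mem_insert, mem_singleton, Subtype.ext_iff] at this hp
      exact hp this
  · refine Or.inr (Or.inl ⟨k, ?_⟩)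
    rw [a2 (by rw [k]; norm_num), add_zero]
    have n : s ≠ t := fun e => by rw [e, hy.2.1] at k; norm_num at k
    have key : ∀ e₀ : {p : V × V // Fintype.equivFin V p.1 < Fintype.equivFin V p.2 ∧
        y p.1 p.2 = 1}, (e₀.1 = (s, t) ∨ e₀.1 = (t, s)) →
        ∑ e, z (.inl e) * lam y (.inl e) s t = z (.inl e₀) := fun e₀ h => by
      rw [sum_eq_single e₀ (fun e _ ne => ?_) (by simp)]
      · rcases h with h | h <;> simp [lam, ed, h, n, n.symm]
      · have := e.2.1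
        have := e₀.2.1
        have : e.1 ≠ e₀.1 := fun q => ne (Subtype.ext q)
        simp only [lam, ed]
        grind
    rcases lt_or_gt_of_ne ((Fintype.equivFin V).injective.ne n) with o | o
    · exact ⟨_, key ⟨(s, t), o, k⟩ (Or.inl rfl)⟩
    · exact ⟨_, key ⟨(t, s), o, hy.1 s t ▸ k⟩ (Or.inr rfl)⟩

theorem sum_lam_one (hy : y ∈ SubP V) (ht : IsTri y) : ∑ e, (1 : ℝ) • lam y e = y := by
  classical
  funext s t
  rcases sum_lam hy ht (fun _ => 1) s t with ⟨p, q⟩ | ⟨p, -, q⟩ | ⟨p, -, -, -, -, -, -, -, -, q⟩ <;>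
    rw [p, q]
  norm_num

open Classical in
theorem dot_cut (hy : y ∈ SubP V) (ht : IsTri y) (S : Finset V) (z : Ed y → ℝ) :
    dot (cutm S) (∑ e, z e • lam y e) = ∑ e ∈ cut (ea y) (eb y) (maj S), z e := by
  simp only [dot_sum, dot_smul, dot_lam hy ht, cut, sum_filter, mul_ite, mul_one, mul_zero]

open Classical in
theorem card_cut (hy : y ∈ SubP V) (ht : IsTri y) (S : Finset V) :
    ((cut (ea y) (eb y) (maj S)).card : ℝ) = dot (cutm S) y := by
  conv_rhs => rw [← sum_lam_one hy ht]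
  rw [dot_cut hy ht]
  simp

open Classical in
theorem cut_tri (hy : y ∈ SubP V) (ht : IsTri y) {p q r : {p : V // ∃ q, y p q = 1 / 2}}
    (n1 : p ≠ q) (n2 : p ≠ r) (n3 : q ≠ r) (e1 : tri y q.1 = tri y p.1)
    (e2 : tri y r.1 = tri y p.1) :
    cut (ea y) (eb y) (sg (.inr (tri y p.1))) = {.inr p, .inr q, .inr r} := by
  obtain ⟨u, hu⟩ := p.2
  obtain ⟨v, m1, m2, m3, -, -, f, -, -⟩ := tri_spec hy ht hu
  have sf : ∀ x, x ∈ tri y x := fun x => by simp [tri]
  have k1 := e1 ▸ sf q.1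
  have k2 := e2 ▸ sf r.1
  ext e
  rcases e with e | x
  · simp [mem_sg, ea, eb]
  · simp only [mem_sg, ea, eb, mem_insert, mem_singleton, Sum.inr.injEq]
    have k3 := sf x.1
    simp only [ne_eq, Subtype.ext_iff] at n1 n2 n3 ⊢
    constructor
    · intro k
      have k : tri y x.1 = tri y p.1 := by simpa using k
      rw [k] at k3
      simp only [f, mem_insert, mem_singleton] at k1 k2 k3
      grind
    · rintro (k | k | k) <;> simp [k, e1, e2]

open Classical in
theorem net (hy : y ∈ SubP V) (ht : IsTri y) :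
    Net (ea y) (eb y) (univ.image fun p : {p : V // ∃ q, y p q = 1 / 2} => .inr (tri y p.1))
      (univ.image .inl) := by
  have ex : ∀ p : {p : V // ∃ q, y p q = 1 / 2}, ∃ q r : {p : V // ∃ q, y p q = 1 / 2},
      p ≠ q ∧ p ≠ r ∧ q ≠ r ∧ tri y q.1 = tri y p.1 ∧ tri y r.1 = tri y p.1 ∧
      tri y p.1 = {p.1, q.1, r.1} := fun p => by
    obtain ⟨q, hq⟩ := p.2
    obtain ⟨r, n1, n2, n3, b1, b2, e1, e2, e3⟩ := tri_spec hy ht hq
    exact ⟨⟨q, r, b2⟩, ⟨r, p, hy.1 p r ▸ b1⟩, fun k => n1 (congrArg Subtype.val k),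
      fun k => n2 (congrArg Subtype.val k), by simpa using n3, e2.trans e1.symm,
      e3.trans e1.symm, e1⟩
  refine ⟨?_, ?_, ?_, ?_, ?_, ?_, ?_, fun φ k => ?_⟩
  · rintro (e | p)
    · simpa [ea, eb] using fun k : e.1.1 = e.1.2 => e.2.1.ne (by rw [k])
    · simp [ea, eb]
  · rintro (e | p) <;> simp [eb]
  · rintro (e | p)
    · simp [ea]
    · exact Or.inl (mem_image.2 ⟨p, mem_univ _, rfl⟩)
  · simp [disjoint_left]
  · intro t h
    obtain ⟨p, -, rfl⟩ := mem_image.1 h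
    obtain ⟨q, r, n1, n2, n3, e1, e2, -⟩ := ex p
    rw [cut_tri hy ht n1 n2 n3 e1 e2, card_insert_of_notMem (by simp [n1, n2]),
      card_pair (by simpa using n3)]
  · intro t h
    obtain ⟨v, -, rfl⟩ := mem_image.1 h
    have := card_cut hy ht {v}
    rw [dot_single hy.1 hy.2.1, hy.2.2.2.1, show maj {v} = sg (.inl v) from ?_] at this
    · exact_mod_cast this
    · funext w
      rcases w with w | A
      · simp [maj, sg]
      · simp only [maj, sg, mem_singleton, sum_ite_eq']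
        split_ifs <;> simp_all
  · rintro (e | p) (f | q) <;> simp [ea, eb, Subtype.ext_iff]
  · set S := univ.filter fun v => φ (.inl v) = 1 with hS
    have m : ∀ v, maj S (.inl v) = φ (.inl v) := fun v => by
      rcases z2 (φ (.inl v)) with u | u <;> simp [maj, hS, u]
    have e : cut (ea y) (eb y) (maj S) = cut (ea y) (eb y) φ := by
      ext e
      rcases e with e | p
      · simp [mem_cut, ea, eb, m]
      · obtain ⟨q, r, n1, n2, n3, e1, e2, e3⟩ := ex p
        have u := fun s t a b => card_le_one.1 k.le (.inr s) a (.inr t) b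
        have u1 := u p q
        have u2 := u p r
        have u3 := u q r
        have n1' : p.1 ≠ q.1 := fun z => n1 (Subtype.ext z)
        have n2' : p.1 ≠ r.1 := fun z => n2 (Subtype.ext z)
        have n3' : q.1 ≠ r.1 := fun z => n3 (Subtype.ext z)
        simp only [mem_cut, ea, eb, e1, e2, Sum.inr.injEq, n1, n2, n3, m] at u1 u2 u3 ⊢
        simp only [maj, e3, hS, mem_filter, mem_univ, true_and] at u1 u2 u3 ⊢
        rw [sum_insert (by simp [n1', n2']), sum_pair n3']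
        revert u1 u2 u3
        generalize φ (.inr {p.1, q.1, r.1}) = s0, φ (.inl p.1) = s1, φ (.inl q.1) = s2,
          φ (.inl r.1) = s3
        revert s0 s1 s2 s3
        decide
    have c := card_cut hy ht S
    rw [e, k] at c
    rcases S.eq_empty_or_nonempty with u | u
    · simp [u, dot_cutm hy.1] at c
    rcases Sᶜ.eq_empty_or_nonempty with v | v
    · simp [v, dot_cutm hy.1] at c
    · have := cut_two hy u v
      push_cast at c
      linarith

theorem upper (hy : y ∈ SubP V) (ht : IsTri y) (hn : 3 ≤ Fintype.card V) {c : V → V → ℝ}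
    (hc : IsMetric c) (Φ : ℝ)
    (hΦ : ∀ k₁ k₂ k₃ : ℕ, 3 ≤ k₁ → 3 ≤ k₂ → 3 ≤ k₃ → k₁ + k₂ + k₃ ≤ Fintype.card V + 3 →
      Φ ≤ k₁ / (k₁ - 2) + k₂ / (k₂ - 2) + k₃ / (k₃ - 2)) (p0 : 0 < Φ) :
    ∃ x, (x ∈ SubP V ∧ ∀ u v, ∃ k : ℤ, x u v = k) ∧ Φ * dot c x ≤ (Φ + 1) * dot c y := by
  classical
  by_cases hT : ∃ p q, y p q = 1 / 2
  swap
  · refine ⟨y, ⟨hy, fun u v => ?_⟩, ?_⟩
    · rcases ht.1 u v with k | k | k
      · exact ⟨0, by simpa using k⟩
      · exact absurd ⟨u, v, k⟩ hT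
      · exact ⟨1, by simpa using k⟩
    · linarith [dot_nonneg hc.2.2.1 fun u v => (hy.2.2.1 u v).1]
  obtain ⟨p₀, hp₀⟩ := hT
  have N := net hy ht
  obtain ⟨J, F, f1, hJ, f2, f3⟩ := N.main ⟨_, mem_image.2 ⟨⟨p₀, hp₀⟩, mem_univ _, rfl⟩⟩
    (fun e => dot c (lam y e)) (by
      rintro (e | p)
      · rw [lam, dot_ed hc.1 hc.2.1]; exact hc.2.2.1 _ _
      · obtain ⟨q, hq⟩ := p.2
        obtain ⟨r, n1, n2, n3, -, -, e, -, -⟩ := tri_spec hy ht hq
        rw [lam_eq n1 n2 n3 e hc.1 hc.2.1]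
        linarith [hc.2.2.2 q r p.1, hc.1 q p.1]) Φ
    (by rwa [card_image_of_injective _ Sum.inl_injective, card_univ]) p0
  set z : Ed y → ℝ := fun e => 1 + (if e ∈ J then 1 else 0) - 2 * if e ∈ F then 1 else 0 with hz
  have sz : ∀ (X : Finset (Ed y)) (u : Ed y → ℝ), ∑ e ∈ X, z e * u e =
      ∑ e ∈ X, u e + ∑ e ∈ X ∩ J, u e - 2 * ∑ e ∈ X ∩ F, u e := fun X u => by
    simp only [← filter_mem_eq_inter, sum_filter, mul_sum, ← sum_add_distrib, ← sum_sub_distrib]
    exact sum_congr rfl fun e _ => by simp only [hz]; split_ifs <;> ring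
  have zc : ∀ e, (e ∉ J ∧ z e = 1) ∨ (e ∈ J ∧ (z e = 0 ∨ z e = 2)) := fun e => by
    have := @f1 e
    simp only [hz]
    split_ifs <;> simp_all <;> norm_num
  have eu : Eul (∑ e, z e • lam y e) := by
    refine ⟨fun s t => ?_, fun s => ?_, fun s t => ?_, fun S => ?_, fun S u v => ?_⟩
    · simp only [Finset.sum_apply, Pi.smul_apply]
      refine sum_congr rfl fun e _ => congrArg _ ?_
      rcases e with e | p
      · exact ed_symm _ _ _ _
      · simp only [lam]; grind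
    · rcases sum_lam hy ht z s s with ⟨-, q⟩ | ⟨p, -⟩ | ⟨p, -⟩
      · exact q
      · rw [hy.2.1] at p; norm_num at p
      · rw [hy.2.1] at p; norm_num at p
    · rcases sum_lam hy ht z s t with ⟨-, q⟩ | ⟨-, e, q⟩ | ⟨-, p, q, r, n1, n2, n3, e1, e2, k⟩
      · exact ⟨0, by simpa using q⟩
      · rcases zc e with ⟨-, k⟩ | ⟨-, k | k⟩
        · exact ⟨1, by rw [q, k]; simp⟩
        · exact ⟨0, by rw [q, k]; simp⟩
        · exact ⟨2, by rw [q, k]; simp⟩
      · have c1 := hJ.2 _ (N.dT _ (mem_image.2 ⟨p, mem_univ _, rfl⟩))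
        rw [cut_tri hy ht n1 n2 n3 e1 e2, inter_comm, ← filter_mem_eq_inter, card_filter,
          sum_insert (by simp [n1, n2]), sum_pair (by simpa using n3)] at c1
        rw [k]
        rcases zc (.inr p) with ⟨a1, b1⟩ | ⟨a1, b1 | b1⟩ <;>
          rcases zc (.inr q) with ⟨a2, b2⟩ | ⟨a2, b2 | b2⟩ <;>
          rcases zc (.inr r) with ⟨a3, b3⟩ | ⟨a3, b3 | b3⟩ <;>
          simp [a1, a2, a3] at c1 <;> rw [b1, b2, b3] <;>
          first | (refine ⟨0, ?_⟩; norm_num; done) | (refine ⟨1, ?_⟩; norm_num)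
    · have k1 := sz (cut (ea y) (eb y) (maj S)) fun _ => 1
      have k2 := hJ.1 (maj S)
      rw [N.par, sum_card, inter_comm, ZMod.natCast_eq_natCast_iff'] at k2
      simp only [mul_one, sum_const, nsmul_eq_mul] at k1
      rw [dot_cut hy ht, k1]
      obtain ⟨j, hj⟩ : ∃ j, (cut (ea y) (eb y) (maj S)).card +
        (cut (ea y) (eb y) (maj S) ∩ J).card = 2 * j := ⟨_, by
          rw [eq_comm, mul_comm]; exact Nat.div_mul_cancel (by omega)⟩
      have hj' : ((cut (ea y) (eb y) (maj S)).card : ℝ) +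
        (cut (ea y) (eb y) (maj S) ∩ J).card = 2 * j := by exact_mod_cast hj
      exact ⟨j - (cut (ea y) (eb y) (maj S) ∩ F).card, by push_cast; linarith⟩
    · rw [dot_cut hy ht]
      have k1 := card_cut hy ht S
      have k2 := cut_two hy u v
      obtain ⟨e, he, hF⟩ := not_subset.1 fun k => by
        rw [f2 _ k] at k1
        simp at k1
        linarith
      refine sum_pos' (fun e _ => ?_) ⟨e, he, ?_⟩
      · rcases zc e with ⟨-, k⟩ | ⟨-, k | k⟩ <;> rw [k] <;> norm_num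
      · simp only [hz, hF]
        split_ifs <;> simp_all
  obtain ⟨x, x1, x2⟩ := eu.tour hc hn
  refine ⟨x, x1, (mul_le_mul_of_nonneg_left x2 p0.le).trans ?_⟩
  have k : dot c y = ∑ e, dot c (lam y e) := by
    conv_lhs => rw [← sum_lam_one hy ht]
    simp only [dot_sum, dot_smul, one_mul]
  simp only [dot_sum, dot_smul]
  rw [sz, univ_inter, univ_inter, k]
  linarith

end Pool.Agent.P.MP_92d394_lc
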